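import Mathlib

/-!
Trace maps of Sturmian Hamiltonians, spectra in terms of traces, continued fraction digits.
-/

set_option autoImplicit false

namespace Pool.Agent.W811.Stu

/-- a point of trace space: `z = ½ tr P`, `y = ½ tr Q`, `x = ½ tr PQ` -/
@[ext] structure P3 where
  z : ℝ
  y : ℝ
  x : ℝ

/-- `(P, Q) ↦ (PQ, Q)` -/
def stepR (p : P3) : P3 := ⟨p.x, p.y, 2 * p.x * p.y - p.z⟩

/-- `(P, Q) ↦ (Q, P)` -/
def stepS (p : P3) : P3 := ⟨p.y, p.z, p.x⟩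

/-- the trace map with digit `d` : `(P, Q) ↦ (Q, P Q^d)` -/
def stepT (d : ℕ) (p : P3) : P3 := stepS (stepR^[d] p)

/-- the orbit of a point under the trace maps with digits `d 0, d 1, ...` -/
def orb (d : ℕ → ℕ) (p : P3) : ℕ → P3
  | 0 => p
  | m + 1 => stepT (d m) (orb d p m)

/-- the starting line -/
noncomputable def lin (lam E : ℝ) : P3 := ⟨1, E / 2, (E - lam) / 2⟩

/-- the spectrum in terms of traces -/
def Sp (lam : ℝ) (d : ℕ → ℕ) : Set ℝ :=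
  {E | ∀ m, |(orb d (lin lam E) m).y| ≤ 1 ∨ |(orb d (lin lam E) (m + 1)).y| ≤ 1}

/-- the Gauss map -/
noncomputable def gauss (x : ℝ) : ℝ := Int.fract x⁻¹

/-- the continued fraction digits, `α = [dig α 0, dig α 1, ...]` -/
noncomputable def dig (α : ℝ) (k : ℕ) : ℕ := ⌊(gauss^[k] α)⁻¹⌋₊

/-- the Sturmian operator -/
def IsSturm (lam α : ℝ) (T : lp (fun _ : ℤ => ℂ) 2 →L[ℂ] lp (fun _ : ℤ => ℂ) 2) : Prop :=
  ∀ (u : lp (fun _ : ℤ => ℂ) 2) (n : ℤ),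
    (T u) n = u (n + 1) + u (n - 1)
      + ((lam * ((⌊((n:ℝ) + 1) * α⌋ - ⌊(n:ℝ) * α⌋ : ℤ) : ℝ) : ℝ) : ℂ) * u n

end Pool.Agent.W811.Stu
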