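import Mathlib

/-!
The Lorentz form on `ℝ³` and its cone.
-/

set_option autoImplicit false

namespace Pool.Agent.W811.Stu

/-- vectors of `ℝ^{1,2}` -/
abbrev L : Type := ℝ × ℝ × ℝ

/-- the Lorentz form -/
def ip (a b : L) : ℝ := a.1 * b.1 - a.2.1 * b.2.1 - a.2.2 * b.2.2

lemma ip_comm (a b : L) : ip a b = ip b a := by unfold ip; ring

@[simp] lemma ip_add_left (a b v : L) : ip (a + b) v = ip a v + ip b v := by
  simp only [ip, Prod.fst_add, Prod.snd_add]; ring

@[simp] lemma ip_add_right (a b v : L) : ip v (a + b) = ip v a + ip v b := by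
  simp only [ip, Prod.fst_add, Prod.snd_add]; ring

@[simp] lemma ip_sub_left (a b v : L) : ip (a - b) v = ip a v - ip b v := by
  simp only [ip, Prod.fst_sub, Prod.snd_sub]; ring

@[simp] lemma ip_sub_right (a b v : L) : ip v (a - b) = ip v a - ip v b := by
  simp only [ip, Prod.fst_sub, Prod.snd_sub]; ring

@[simp] lemma ip_neg_left (a v : L) : ip (-a) v = -ip a v := by
  simp only [ip, Prod.fst_neg, Prod.snd_neg]; ring

@[simp] lemma ip_neg_right (a v : L) : ip v (-a) = -ip v a := by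
  simp only [ip, Prod.fst_neg, Prod.snd_neg]; ring

@[simp] lemma ip_smul_left (k : ℝ) (a v : L) : ip (k • a) v = k * ip a v := by
  simp only [ip, Prod.smul_fst, Prod.smul_snd, smul_eq_mul]; ring

@[simp] lemma ip_smul_right (k : ℝ) (a v : L) : ip v (k • a) = k * ip v a := by
  simp only [ip, Prod.smul_fst, Prod.smul_snd, smul_eq_mul]; ring

@[simp] lemma ip_zero_left (v : L) : ip 0 v = 0 := by simp [ip]
@[simp] lemma ip_zero_right (v : L) : ip v 0 = 0 := by simp [ip]

/-- the closed future cone -/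
def Cn (v : L) : Prop := 0 ≤ v.1 ∧ 0 ≤ ip v v

lemma Cn_zero : Cn 0 := ⟨le_rfl, by simp⟩

lemma cn_aux {t u w t' u' w' : ℝ} (h1 : 0 ≤ t) (h2 : 0 ≤ t * t - u * u - w * w)
    (h3 : 0 ≤ t') (h4 : 0 ≤ t' * t' - u' * u' - w' * w') :
    u * u' + w * w' ≤ t * t' := by
  have key : (u * u' + w * w') ^ 2 ≤ (t * t') ^ 2 := by
    have e1 : (u * u' + w * w') ^ 2 ≤ (u * u + w * w) * (u' * u' + w' * w') := by
      nlinarith [sq_nonneg (u * w' - w * u')]
    have e2 : (u * u + w * w) * (u' * u' + w' * w') ≤ (t * t) * (t' * t') := by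
      apply mul_le_mul (by linarith) (by linarith) _ (mul_self_nonneg _)
      nlinarith [mul_self_nonneg u', mul_self_nonneg w']
    nlinarith
  exact le_trans (le_abs_self _) (abs_le_of_sq_le_sq key (mul_nonneg h1 h3) |>.trans le_rfl)

lemma ip_nonneg {v w : L} (hv : Cn v) (hw : Cn w) : 0 ≤ ip v w := by
  obtain ⟨h1, h2⟩ := hv
  obtain ⟨h3, h4⟩ := hw
  unfold ip at *
  have := cn_aux h1 h2 h3 h4
  linarith

lemma rev_cs {v w : L} (hv : 0 ≤ ip v v) (hw : 0 ≤ ip w w) :
    ip v v * ip w w ≤ (ip v w) ^ 2 := by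
  obtain ⟨t, u, x⟩ := v
  obtain ⟨t', u', x'⟩ := w
  unfold ip at *
  simp only at *
  -- (tt' - S)^2 - (t²-A)(t'²-B) = ... with S² ≤ AB
  have hS : (u * u' + x * x') ^ 2 ≤ (u * u + x * x) * (u' * u' + x' * x') := by
    nlinarith [sq_nonneg (u * x' - x * u')]
  by_cases h0 : t = 0
  · subst h0
    have : u * u + x * x ≤ 0 := by linarith
    have hu : u = 0 := by nlinarith [mul_self_nonneg u, mul_self_nonneg x]
    have hx : x = 0 := by nlinarith [mul_self_nonneg u, mul_self_nonneg x]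
    subst hu; subst hx; simp
  have ht : 0 < t * t := lt_of_le_of_ne (mul_self_nonneg _) (Ne.symm (mul_self_ne_zero.2 h0))
  -- t² * (RHS - LHS) ≥ 0
  have key : 0 ≤ t * t * ((t * t' - u * u' - x * x') ^ 2 -
      (t * t - u * u - x * x) * (t' * t' - u' * u' - x' * x')) := by
    nlinarith [sq_nonneg (t * (t * t' - u * u' - x * x') - t' * (t * t - u * u - x * x)),
      mul_nonneg hv (sub_nonneg.2 hS), sq_nonneg (u * t' - t * u'), sq_nonneg (x * t' - t * x'),
      mul_nonneg hv (mul_self_nonneg (u * t' - t * u')),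
      mul_nonneg hv (mul_self_nonneg (x * t' - t * x'))]
  have := nonneg_of_mul_nonneg_right key ht
  nlinarith [this]

lemma Cn_add {v w : L} (hv : Cn v) (hw : Cn w) : Cn (v + w) := by
  refine ⟨add_nonneg hv.1 hw.1, ?_⟩
  rw [ip_add_left, ip_add_right, ip_add_right, ip_comm w v]
  have := ip_nonneg hv hw
  have := hv.2
  have := hw.2
  linarith

lemma Cn_smul {v : L} (hv : Cn v) {k : ℝ} (hk : 0 ≤ k) : Cn (k • v) := by
  refine ⟨mul_nonneg hk hv.1, ?_⟩
  rw [ip_smul_left, ip_smul_right]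
  exact mul_nonneg hk (mul_nonneg hk hv.2)

lemma Cn_or {v : L} (hv : 0 ≤ ip v v) : Cn v ∨ Cn (-v) := by
  rcases le_total 0 v.1 with h | h
  · exact Or.inl ⟨h, hv⟩
  · right
    refine ⟨by simpa using h, by simpa using hv⟩

/-- causal vectors orthogonal to a timelike vector vanish -/
lemma eq_zero_of_ip {T w : L} (hT : 0 < ip T T) (hw : 0 ≤ ip w w) (h : ip T w = 0) : w = 0 := by
  obtain ⟨t, u, x⟩ := T
  obtain ⟨t', u', x'⟩ := w
  unfold ip at *
  simp only at *
  have hS : (u * u' + x * x') ^ 2 ≤ (u * u + x * x) * (u' * u' + x' * x') := by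
    nlinarith [sq_nonneg (u * x' - x * u')]
  have h1 : (t * t') ^ 2 = (u * u' + x * x') ^ 2 := by
    have : t * t' = u * u' + x * x' := by linarith
    rw [this]
  have h2 : (u * u + x * x) * (u' * u' + x' * x') ≤ (u * u + x * x) * (t' * t') :=
    mul_le_mul_of_nonneg_left (by linarith)
      (add_nonneg (mul_self_nonneg _) (mul_self_nonneg _))
  have h3 : (t * t - (u * u + x * x)) * (t' * t') ≤ 0 := by nlinarith
  have h4 : t' * t' = 0 := by
    have : 0 < t * t - (u * u + x * x) := by linarith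
    by_contra hne
    have hp : 0 < t' * t' := lt_of_le_of_ne (mul_self_nonneg _) (Ne.symm hne)
    nlinarith [mul_pos this hp]
  have ht' : t' = 0 := mul_self_eq_zero.1 h4
  subst ht'
  have hu' : u' = 0 := by nlinarith [mul_self_nonneg u', mul_self_nonneg x']
  have hx' : x' = 0 := by nlinarith [mul_self_nonneg u', mul_self_nonneg x']
  subst hu'; subst hx'; rfl

lemma Cn_of_ip {T v : L} (hT : Cn T) (hT' : 0 < ip T T) (hv : 0 ≤ ip v v) (h : 0 ≤ ip T v) :
    Cn v := by
  rcases Cn_or hv with h1 | h1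
  · exact h1
  · have h2 := ip_nonneg hT h1
    rw [ip_neg_right] at h2
    have h3 : ip T v = 0 := le_antisymm (by linarith) h
    rw [eq_zero_of_ip hT' hv h3]
    exact Cn_zero

lemma ip_pos {T w : L} (hT : Cn T) (hT' : 0 < ip T T) (hw : Cn w) (h0 : w ≠ 0) : 0 < ip T w := by
  refine lt_of_le_of_ne (ip_nonneg hT hw) fun h => h0 ?_
  exact eq_zero_of_ip hT' hw.2 h.symm

/-- orthogonal projection to the complement of a unit spacelike vector -/
def pr (σ v : L) : L := v + ip v σ • σ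

lemma ip_pr {σ v w : L} (h : ip w σ = 0) : ip (pr σ v) w = ip v w := by
  unfold pr
  rw [ip_add_left, ip_smul_left, ip_comm σ w, h]; ring

lemma ip_pr_self {σ v : L} (hσ : ip σ σ = -1) : ip (pr σ v) σ = 0 := by
  unfold pr
  rw [ip_add_left, ip_smul_left, hσ]; ring

lemma norm_pr {σ v : L} (hσ : ip σ σ = -1) : ip (pr σ v) (pr σ v) = ip v v + ip v σ ^ 2 := by
  unfold pr
  simp only [ip_add_left, ip_smul_left, ip_add_right, ip_smul_right, hσ, ip_comm σ v]
  ring

lemma Cn_pr {σ v : L} (hσ : ip σ σ = -1) (hv : Cn v) : Cn (pr σ v) := by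
  have hn : 0 ≤ ip (pr σ v) (pr σ v) := by
    rw [norm_pr hσ]; have := hv.2; positivity
  rcases Cn_or hn with h | h
  · exact h
  · have h2 := ip_nonneg h hv
    have e : ip (-pr σ v) v = -(ip v v + ip v σ ^ 2) := by
      unfold pr
      rw [ip_neg_left, ip_add_left, ip_smul_left, ip_comm σ v]; ring
    rw [e] at h2
    have h3 : ip v v = 0 := le_antisymm (by nlinarith [sq_nonneg (ip v σ)]) hv.2
    have h4 : ip v σ = 0 := by
      have : ip v σ ^ 2 ≤ 0 := by linarith
      exact pow_eq_zero_iff (two_ne_zero) |>.1 (le_antisymm this (sq_nonneg _))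
    unfold pr
    rw [h4, zero_smul, add_zero]
    exact hv

/-- superadditivity of the Lorentz norm -/
lemma norm_add {v w : L} (hv : Cn v) (hw : Cn w) {m n : ℝ}
    (h1 : m ^ 2 ≤ ip v v) (h2 : n ^ 2 ≤ ip w w) : (m + n) ^ 2 ≤ ip (v + w) (v + w) := by
  have h3 := rev_cs hv.2 hw.2
  have h4 := ip_nonneg hv hw
  have h5 : m * n ≤ ip v w := by
    have : (m * n) ^ 2 ≤ (ip v w) ^ 2 := by
      calc (m * n) ^ 2 = m ^ 2 * n ^ 2 := by ring
        _ ≤ ip v v * ip w w := mul_le_mul h1 h2 (by positivity) hv.2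
        _ ≤ _ := h3
    exact le_trans (le_abs_self _) (abs_le_of_sq_le_sq this h4 |>.trans le_rfl)
  rw [ip_add_left, ip_add_right, ip_add_right, ip_comm w v]
  nlinarith

end Pool.Agent.W811.Stu
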