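import Mathlib
import Pool.Agent.W811.Stu.Defs
import Pool.Agent.W811.Stu.Lor

/-!
Tangent vectors to the invariant surface represented by pairs of vectors of the Lorentz cone.
-/

set_option autoImplicit false

namespace Pool.Agent.W811.Stu

def gA (p : P3) : ℝ := p.z - p.x * p.y
def gB (p : P3) : ℝ := p.y - p.x * p.z
def gX (p : P3) : ℝ := p.x - p.y * p.z

/-- the invariant surface -/
def OnS (δ : ℝ) (p : P3) : Prop :=
  p.x ^ 2 + p.y ^ 2 + p.z ^ 2 - 2 * p.x * p.y * p.z = 1 + δ ^ 2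

/-- tangent map of `stepR` -/
def dR (p u : P3) : P3 := ⟨u.x, u.y, 2 * p.y * u.x + 2 * p.x * u.y - u.z⟩
/-- tangent map of `stepS` -/
def dS (u : P3) : P3 := ⟨u.y, u.z, u.x⟩

lemma OnS.R {δ : ℝ} {p : P3} (h : OnS δ p) : OnS δ (stepR p) := by
  unfold OnS stepR at *; simp only; linear_combination h

lemma OnS.S {δ : ℝ} {p : P3} (h : OnS δ p) : OnS δ (stepS p) := by
  unfold OnS stepS at *; simp only; linear_combination h

lemma OnS.A2 {δ : ℝ} {p : P3} (h : OnS δ p) : gA p ^ 2 = δ ^ 2 + (1 - p.x ^ 2) * (1 - p.y ^ 2) := by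
  unfold OnS gA at *; linear_combination h

lemma OnS.B2 {δ : ℝ} {p : P3} (h : OnS δ p) : gB p ^ 2 = δ ^ 2 + (1 - p.x ^ 2) * (1 - p.z ^ 2) := by
  unfold OnS gB at *; linear_combination h

lemma OnS.X2 {δ : ℝ} {p : P3} (h : OnS δ p) : gX p ^ 2 = δ ^ 2 + (1 - p.y ^ 2) * (1 - p.z ^ 2) := by
  unfold OnS gX at *; linear_combination h

/-- three unit spacelike vectors with the Gram matrix given by the traces -/
structure Mir (p : P3) (s1 s2 s3 : L) : Prop where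
  n1 : ip s1 s1 = -1
  n2 : ip s2 s2 = -1
  n3 : ip s3 s3 = -1
  hz : ip s1 s2 = -p.z
  hy : ip s2 s3 = -p.y
  hx : ip s1 s3 = -p.x

/-- the third mirror after `stepR` -/
def s3R (p : P3) (s2 s3 : L) : L := (2 * p.y) • s3 - s2

lemma Mir.R {p : P3} {s1 s2 s3 : L} (h : Mir p s1 s2 s3) :
    Mir (stepR p) s1 s3 (s3R p s2 s3) := by
  obtain ⟨n1, n2, n3, hz, hy, hx⟩ := h
  have hy' := hy; rw [ip_comm] at hy'
  refine ⟨n1, n3, ?_, hx, ?_, ?_⟩ <;>
    simp only [s3R, stepR, ip_sub_left, ip_sub_right, ip_smul_left, ip_smul_right, n2, n3, hz,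
      hy, hx, hy'] <;> ring

lemma Mir.S {p : P3} {s1 s2 s3 : L} (h : Mir p s1 s2 s3) : Mir (stepS p) s3 s2 s1 := by
  obtain ⟨n1, n2, n3, hz, hy, hx⟩ := h
  exact ⟨n3, n2, n1, by rw [ip_comm, hy]; rfl, by rw [ip_comm, hz]; rfl, by rw [ip_comm, hx]; rfl⟩

/-- the pair `(a, b)` represents the tangent vector `u` -/
structure Dat (δ : ℝ) (p : P3) (s1 s2 s3 a b : L) (u : P3) : Prop where
  a1 : ip a s1 = 0
  b3 : ip b s3 = 0
  tan : p.x * (ip a s2 + ip b s2) = p.z * ip a s3 + p.y * ip b s1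
  uz : δ * u.z = -((1 - p.z ^ 2) * ip a s3 - gB p * ip a s2)
  uy : δ * u.y = -((1 - p.y ^ 2) * ip b s1 - gA p * ip b s2)
  ux : δ * u.x = (1 - p.x ^ 2) * (ip a s2 + ip b s2) - gB p * ip a s3 - gA p * ip b s1

lemma Dat.R {δ : ℝ} {p : P3} {s1 s2 s3 a b : L} {u : P3} (hM : Mir p s1 s2 s3)
    (h : Dat δ p s1 s2 s3 a b u) :
    Dat δ (stepR p) s1 s3 (s3R p s2 s3) (a + pr s1 b) (pr (s3R p s2 s3) b) (dR p u) := by
  have hM' := hM.R
  obtain ⟨n1, n2, n3, hz, hy, hx⟩ := hM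
  obtain ⟨a1, b3, tan, uz, uy, ux⟩ := h
  have hy' := hy; rw [ip_comm] at hy'
  have hx' := hx; rw [ip_comm] at hx'
  have hz' := hz; rw [ip_comm] at hz'
  have e1 : ip (a + pr s1 b) s3 = ip a s3 - p.x * ip b s1 := by
    simp only [pr, ip_add_left, ip_smul_left, hx, b3]; ring
  have e2 : ip (a + pr s1 b) s2 = ip a s2 + ip b s2 - p.z * ip b s1 := by
    simp only [pr, ip_add_left, ip_smul_left, hz]; ring
  have e3 : ip (a + pr s1 b) (s3R p s2 s3) =
      2 * p.y * (ip a s3 - p.x * ip b s1) - (ip a s2 + ip b s2 - p.z * ip b s1) := by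
    rw [s3R, ip_sub_right, ip_smul_right, e1, e2]
  have e4 : ip b (s3R p s2 s3) = -ip b s2 := by
    rw [s3R, ip_sub_right, ip_smul_right, b3]; ring
  have e5 : ip (pr (s3R p s2 s3) b) s1 = ip b s1 + (2 * p.x * p.y - p.z) * ip b s2 := by
    rw [pr, ip_add_left, ip_smul_left, e4, s3R, ip_sub_left, ip_smul_left, hx', hz']; ring
  have e6 : ip (pr (s3R p s2 s3) b) s3 = p.y * ip b s2 := by
    rw [pr, ip_add_left, ip_smul_left, e4, s3R, ip_sub_left, ip_smul_left, n3, hy, b3]; ring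
  refine ⟨?_, ?_, ?_, ?_, ?_, ?_⟩
  · rw [ip_add_left, a1, ip_pr_self n1, add_zero]
  · exact ip_pr_self hM'.n3
  · rw [e1, e3, e5, e6]
    simp only [stepR]
    linear_combination tan
  · rw [e1, e3]
    simp only [stepR, dR, gB]
    rw [ux]
    unfold gB gA
    ring
  · rw [e5, e6]
    simp only [stepR, dR, gA]
    rw [uy]
    unfold gA
    ring
  · rw [e1, e3, e5, e6]
    simp only [stepR, dR, gB, gA]
    have : δ * (2 * p.y * u.x + 2 * p.x * u.y - u.z) =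
      2 * p.y * (δ * u.x) + 2 * p.x * (δ * u.y) - δ * u.z := by ring
    rw [this, ux, uy, uz]
    unfold gB gA
    ring

lemma Dat.S {δ : ℝ} {p : P3} {s1 s2 s3 a b : L} {u : P3}
    (h : Dat δ p s1 s2 s3 a b u) : Dat δ (stepS p) s3 s2 s1 b a (dS u) := by
  obtain ⟨a1, b3, tan, uz, uy, ux⟩ := h
  refine ⟨b3, a1, ?_, ?_, ?_, ?_⟩
  · simp only [stepS]; linear_combination tan
  · simp only [stepS, dS, gB]; rw [uy]; unfold gA; ring
  · simp only [stepS, dS, gA]; rw [uz]; unfold gB; ring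
  · simp only [stepS, dS, gA, gB]; rw [ux]; unfold gA gB; ring

end Pool.Agent.W811.Stu
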