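import Mathlib
import Pool.Agent.W811.Stu.Rep

/-!
Sign of the derivative of the third trace along directions of the cone.
-/

set_option autoImplicit false

namespace Pool.Agent.W811.Stu

/-- for `1 < x² < c²` : `x A B < 0` -/
lemma xAB_neg {δ : ℝ} {p : P3} (h : OnS δ p) (h1 : 1 < p.x ^ 2) (h2 : p.x ^ 2 < 1 + δ ^ 2) :
    p.x * gA p * gB p < 0 := by
  unfold OnS at h
  have e : p.x * gA p * gB p = -(p.x * p.y * p.z) * (p.x ^ 2 - 1)
      - p.x ^ 2 * (1 + δ ^ 2 - p.x ^ 2) := by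
    unfold gA gB; linear_combination (-p.x ^ 2) * h
  rw [e]
  have h3 : -(p.x * p.y * p.z) * (p.x ^ 2 - 1) ≤ (1 + δ ^ 2 - p.x ^ 2) / 2 * (p.x ^ 2 - 1) := by
    apply mul_le_mul_of_nonneg_right _ (by linarith)
    nlinarith [sq_nonneg p.y, sq_nonneg p.z]
  nlinarith

/-- the vector representing the differential of the third trace -/
def wv (p : P3) (s1 s2 s3 : L) : L := (1 - p.x ^ 2) • s2 - gA p • s1 - gB p • s3

variable {δ : ℝ} {p : P3} {s1 s2 s3 a b : L} {u : P3}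

lemma wv_1 (h : Mir p s1 s2 s3) : ip (wv p s1 s2 s3) s1 = 0 := by
  obtain ⟨n1, n2, n3, hz, hy, hx⟩ := h
  have hx' := hx; rw [ip_comm] at hx'
  have hz' := hz; rw [ip_comm] at hz'
  simp only [wv, ip_sub_left, ip_smul_left, n1, hx', hz']
  unfold gA gB; ring

lemma wv_3 (h : Mir p s1 s2 s3) : ip (wv p s1 s2 s3) s3 = 0 := by
  obtain ⟨n1, n2, n3, hz, hy, hx⟩ := h
  simp only [wv, ip_sub_left, ip_smul_left, n3, hx, hy]
  unfold gA gB; ring

lemma wv_2 (hS : OnS δ p) (h : Mir p s1 s2 s3) : ip (wv p s1 s2 s3) s2 = δ ^ 2 := by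
  obtain ⟨n1, n2, n3, hz, hy, hx⟩ := h
  have hy' := hy; rw [ip_comm] at hy'
  simp only [wv, ip_sub_left, ip_smul_left, n2, hz, hy']
  unfold OnS at hS
  unfold gA gB; linear_combination hS

lemma wv_norm (hS : OnS δ p) (h : Mir p s1 s2 s3) :
    ip (wv p s1 s2 s3) (wv p s1 s2 s3) = (1 - p.x ^ 2) * δ ^ 2 := by
  have e : ip (wv p s1 s2 s3) (wv p s1 s2 s3) = (1 - p.x ^ 2) * ip (wv p s1 s2 s3) s2
      - gA p * ip (wv p s1 s2 s3) s1 - gB p * ip (wv p s1 s2 s3) s3 := by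
    conv_lhs => rw [wv, ip_sub_left, ip_sub_left, ip_smul_left, ip_smul_left, ip_smul_left]
    rw [ip_comm s2, ip_comm s1, ip_comm s3]
    rfl
  rw [e, wv_1 h, wv_2 hS h, wv_3 h]; ring

lemma ux_eq (hD : Dat δ p s1 s2 s3 a b u) : δ * u.x = ip (a + b) (wv p s1 s2 s3) := by
  obtain ⟨a1, b3, tan, uz, uy, ux⟩ := hD
  rw [ux]
  simp only [wv, ip_add_left, ip_sub_right, ip_smul_right, a1, b3]
  ring

/-- the basic identity for hyperbolic products -/
lemma xux (hS : OnS δ p) (hδ : δ ≠ 0) (hD : Dat δ p s1 s2 s3 a b u) :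
    p.x * δ * u.x = gA p * ip a s3 + gB p * ip b s1 := by
  obtain ⟨a1, b3, tan, uz, uy, ux⟩ := hD
  have : p.x * δ * u.x = p.x * (δ * u.x) := by ring
  rw [this, ux]
  unfold gA gB at *
  linear_combination (1 - p.x ^ 2) * tan

/-- **Sign lemma.** -/
theorem sgn (hδ : δ ≠ 0) (hS : OnS δ p) (hM : Mir p s1 s2 s3) (hx : p.x ^ 2 < 1 + δ ^ 2) :
    ∃ s : ℝ, (s = 1 ∨ s = -1) ∧ ∀ a b u, Dat δ p s1 s2 s3 a b u → Cn a → Cn b →
      0 ≤ s * u.x ∧ (0 < ip b b → 0 < s * u.x) := by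
  have hδ2 : 0 < δ ^ 2 := by positivity
  rcases le_or_gt (p.x ^ 2) 1 with h1 | h1
  · -- elliptic case
    have hn : 0 ≤ ip (wv p s1 s2 s3) (wv p s1 s2 s3) := by
      rw [wv_norm hS hM]; exact mul_nonneg (by linarith) hδ2.le
    have hne : wv p s1 s2 s3 ≠ 0 := by
      intro h0
      have := wv_2 hS hM
      rw [h0, ip_zero_left] at this
      linarith
    -- sign of δ and orientation of wv
    have key : ∀ w : L, Cn w → w ≠ 0 → ∀ σ : ℝ, w = σ • wv p s1 s2 s3 → ∀ a b u,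
        Dat δ p s1 s2 s3 a b u → Cn a → Cn b →
        0 ≤ σ * (δ * u.x) ∧ (0 < ip b b → 0 < σ * (δ * u.x)) := by
      intro w hw hw0 σ hσ a b u hD ha hb
      have e : σ * (δ * u.x) = ip a w + ip b w := by
        rw [ux_eq hD, hσ, ip_add_left, ip_smul_right, ip_smul_right]; ring
      rw [e]
      exact ⟨add_nonneg (ip_nonneg ha hw) (ip_nonneg hb hw), fun hbb =>
        add_pos_of_nonneg_of_pos (ip_nonneg ha hw) (ip_pos hb hbb hw hw0)⟩
    have hs : ∃ τ : ℝ, (τ = 1 ∨ τ = -1) ∧ Cn (τ • wv p s1 s2 s3) := by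
      rcases Cn_or hn with h | h
      · exact ⟨1, Or.inl rfl, by rwa [one_smul]⟩
      · exact ⟨-1, Or.inr rfl, by rwa [neg_one_smul]⟩
    obtain ⟨τ, hτ, hτC⟩ := hs
    have hτ0 : τ • wv p s1 s2 s3 ≠ 0 := by
      intro h0
      rcases smul_eq_zero.1 h0 with h | h
      · rcases hτ with h' | h' <;> rw [h'] at h <;> norm_num at h
      · exact hne h
    have K := key _ hτC hτ0 τ rfl
    rcases lt_or_gt_of_ne hδ with hd | hd
    · refine ⟨-τ, by rcases hτ with h | h <;> simp [h], fun a b u hD ha hb => ?_⟩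
      obtain ⟨k1, k2⟩ := K a b u hD ha hb
      have e : τ * (δ * u.x) = (-δ) * (-τ * u.x) := by ring
      rw [e] at k1 k2
      exact ⟨nonneg_of_mul_nonneg_right k1 (by linarith),
        fun h => (pos_iff_pos_of_mul_pos (k2 h)).1 (by linarith)⟩
    · refine ⟨τ, hτ, fun a b u hD ha hb => ?_⟩
      obtain ⟨k1, k2⟩ := K a b u hD ha hb
      have e : τ * (δ * u.x) = δ * (τ * u.x) := by ring
      rw [e] at k1 k2
      exact ⟨nonneg_of_mul_nonneg_right k1 hd,
        fun h => (pos_iff_pos_of_mul_pos (k2 h)).1 hd⟩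
  · -- hyperbolic case
    have hx0 : p.x ≠ 0 := by intro h; rw [h] at h1; norm_num at h1
    obtain ⟨n1, n2, n3, hz, hy, hxx⟩ := hM
    have hxx' := hxx; rw [ip_comm] at hxx'
    set u1 : L := s3 - p.x • s1 with hu1
    set u3 : L := s1 - p.x • s3 with hu3
    have N1 : ip u1 u1 = p.x ^ 2 - 1 := by
      simp only [hu1, ip_sub_left, ip_sub_right, ip_smul_left, ip_smul_right, n1, n3, hxx, hxx']
      ring
    have N3 : ip u3 u3 = p.x ^ 2 - 1 := by
      simp only [hu3, ip_sub_left, ip_sub_right, ip_smul_left, ip_smul_right, n1, n3, hxx, hxx']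
      ring
    have N13 : ip u1 u3 = -p.x * (p.x ^ 2 - 1) := by
      simp only [hu1, hu3, ip_sub_left, ip_sub_right, ip_smul_left, ip_smul_right, n1, n3, hxx,
        hxx']
      ring
    have hAB := xAB_neg hS h1 hx
    have hA0 : gA p ≠ 0 := by
      intro h; rw [h] at hAB; simp at hAB
    obtain ⟨ε, hε, hεC⟩ : ∃ ε : ℝ, ε * ε = 1 ∧ Cn (ε • u1) := by
      rcases Cn_or (v := u1) (by rw [N1]; linarith) with h | h
      · exact ⟨1, by norm_num, by rwa [one_smul]⟩
      · exact ⟨-1, by norm_num, by rwa [neg_one_smul]⟩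
    have hε1 : 0 < ip (ε • u1) (ε • u1) := by
      rw [ip_smul_left, ip_smul_right, N1, ← mul_assoc, hε]; linarith
    have hC3 : Cn ((-(p.x * ε)) • u3) := by
      apply Cn_of_ip hεC hε1
      · rw [ip_smul_left, ip_smul_right, N3]
        have : -(p.x * ε) * (-(p.x * ε) * (p.x ^ 2 - 1)) = p.x ^ 2 * (ε * ε) * (p.x ^ 2 - 1) := by
          ring
        rw [this, hε]; nlinarith [sq_nonneg p.x]
      · rw [ip_smul_left, ip_smul_right, N13]
        have : ε * (-(p.x * ε) * (-p.x * (p.x ^ 2 - 1))) = p.x ^ 2 * (ε * ε) * (p.x ^ 2 - 1) := by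
          ring
        rw [this, hε]; nlinarith [sq_nonneg p.x]
    have hC3' : (-(p.x * ε)) • u3 ≠ 0 := by
      intro h0
      have h00 : ip ((-(p.x * ε)) • u3) ((-(p.x * ε)) • u3) = 0 := by rw [h0]; simp
      rw [ip_smul_left, ip_smul_right, N3] at h00
      have : -(p.x * ε) * (-(p.x * ε) * (p.x ^ 2 - 1)) = p.x ^ 2 * (ε * ε) * (p.x ^ 2 - 1) := by
        ring
      rw [this, hε] at h00
      nlinarith [sq_nonneg p.x]
    set θ : ℝ := p.x * δ * gA p * ε with hθ
    have hε0 : ε ≠ 0 := by intro h; rw [h] at hε; norm_num at hε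
    have hθ0 : θ ≠ 0 := mul_ne_zero (mul_ne_zero (mul_ne_zero hx0 hδ) hA0) hε0
    have main : ∀ a b u, Dat δ p s1 s2 s3 a b u → Cn a → Cn b →
        0 ≤ θ * u.x ∧ (0 < ip b b → 0 < θ * u.x) := by
      intro a b u hD ha hb
      have e1 := xux hS hδ hD
      have ea : ε * ip a s3 = ip a (ε • u1) := by
        rw [hu1, ip_smul_right, ip_sub_right, ip_smul_right, hD.a1]; ring
      have eb : -(p.x * ε) * ip b s1 = ip b ((-(p.x * ε)) • u3) := by
        rw [hu3, ip_smul_right, ip_sub_right, ip_smul_right, hD.b3]; ring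
      have pa : 0 ≤ ε * ip a s3 := by rw [ea]; exact ip_nonneg ha hεC
      have pb : 0 ≤ -(p.x * ε) * ip b s1 := by rw [eb]; exact ip_nonneg hb hC3
      have e2 : p.x ^ 2 * (θ * u.x) = p.x ^ 2 * gA p ^ 2 * (ε * ip a s3)
          + (-(p.x * gA p * gB p)) * (-(p.x * ε) * ip b s1) := by
        rw [hθ]
        have : p.x ^ 2 * (p.x * δ * gA p * ε * u.x) =
          p.x ^ 2 * gA p * ε * (p.x * δ * u.x) := by ring
        rw [this, e1]; ring
      have hx2 : 0 < p.x ^ 2 := by positivity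
      constructor
      · have : 0 ≤ p.x ^ 2 * (θ * u.x) := by
          rw [e2]
          have h3 : 0 ≤ (-(p.x * gA p * gB p)) := by linarith
          positivity
        exact nonneg_of_mul_nonneg_right this hx2
      · intro hbb
        have pb' : 0 < -(p.x * ε) * ip b s1 := by rw [eb]; exact ip_pos hb hbb hC3 hC3'
        have : 0 < p.x ^ 2 * (θ * u.x) := by
          rw [e2]
          have h3 : 0 < (-(p.x * gA p * gB p)) := by linarith
          have := mul_pos h3 pb'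
          have : 0 ≤ p.x ^ 2 * gA p ^ 2 * (ε * ip a s3) := by positivity
          linarith
        exact (pos_iff_pos_of_mul_pos this).1 hx2
    rcases lt_or_gt_of_ne hθ0 with ht | ht
    · refine ⟨-1, Or.inr rfl, fun a b u hD ha hb => ?_⟩
      obtain ⟨k1, k2⟩ := main a b u hD ha hb
      have e : θ * u.x = (-θ) * (-1 * u.x) := by ring
      rw [e] at k1 k2
      exact ⟨nonneg_of_mul_nonneg_right k1 (by linarith),
        fun h => (pos_iff_pos_of_mul_pos (k2 h)).1 (by linarith)⟩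
    · refine ⟨1, Or.inl rfl, fun a b u hD ha hb => ?_⟩
      obtain ⟨k1, k2⟩ := main a b u hD ha hb
      rw [one_mul]
      exact ⟨nonneg_of_mul_nonneg_right k1 ht,
        fun h => (pos_iff_pos_of_mul_pos (k2 h)).1 ht⟩

end Pool.Agent.W811.Stu
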