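import Mathlib
import Pool.Agent.W811.Stu.Sgn

/-!
Comparison of derivatives along different directions.
-/

set_option autoImplicit false

namespace Pool.Agent.W811.Stu

/-- elementary moves -/
inductive Mv | R | S

def mstep : Mv → P3 → P3
  | .R, p => stepR p
  | .S, p => stepS p

def mdstep : Mv → P3 → P3 → P3
  | .R, p, u => dR p u
  | .S, _, u => dS u

def run : List Mv → P3 → P3
  | [], p => p
  | m :: w, p => run w (mstep m p)

def drun : List Mv → P3 → P3 → P3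
  | [], _, u => u
  | m :: w, p, u => drun w (mstep m p) (mdstep m p u)

lemma run_append (w w' : List Mv) (p : P3) : run (w ++ w') p = run w' (run w p) := by
  induction w generalizing p with
  | nil => rfl
  | cons m w ih => exact ih _

lemma drun_append (w w' : List Mv) (p u : P3) :
    drun (w ++ w') p u = drun w' (run w p) (drun w p u) := by
  induction w generalizing p u with
  | nil => rfl
  | cons m w ih => exact ih _ _

/-- linear combination -/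
def lc (N : ℝ) (u : P3) (M : ℝ) (v : P3) : P3 :=
  ⟨N * u.z + M * v.z, N * u.y + M * v.y, N * u.x + M * v.x⟩

lemma mdstep_lc (m : Mv) (p : P3) (N : ℝ) (u : P3) (M : ℝ) (v : P3) :
    mdstep m p (lc N u M v) = lc N (mdstep m p u) M (mdstep m p v) := by
  cases m <;> simp only [mdstep, dR, dS, lc] <;> ext <;> simp <;> ring

lemma drun_lc (w : List Mv) (p : P3) (N : ℝ) (u : P3) (M : ℝ) (v : P3) :
    drun w p (lc N u M v) = lc N (drun w p u) M (drun w p v) := by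
  induction w generalizing p u v with
  | nil => rfl
  | cons m w ih => simp only [drun, mdstep_lc, ih]

lemma OnS.step {δ : ℝ} {p : P3} (h : OnS δ p) (m : Mv) : OnS δ (mstep m p) := by
  cases m
  · exact h.R
  · exact h.S

lemma OnS.run {δ : ℝ} {p : P3} (h : OnS δ p) (w : List Mv) : OnS δ (run w p) := by
  induction w generalizing p with
  | nil => exact h
  | cons m w ih => exact ih (h.step m)

variable {δ : ℝ} {p : P3} {s1 s2 s3 a b : L} {u : P3}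

lemma Dat.lc (h : Dat δ p s1 s2 s3 a b u) {a' b' : L} {u' : P3}
    (h' : Dat δ p s1 s2 s3 a' b' u') (N M : ℝ) :
    Dat δ p s1 s2 s3 (N • a + M • a') (N • b + M • b') (lc N u M u') := by
  obtain ⟨a1, b3, tan, uz, uy, ux⟩ := h
  obtain ⟨a1', b3', tan', uz', uy', ux'⟩ := h'
  refine ⟨?_, ?_, ?_, ?_, ?_, ?_⟩ <;>
    simp only [Stu.lc, ip_add_left, ip_smul_left, a1, a1', b3, b3']
  · ring
  · ring
  · linear_combination N * tan + M * tan'
  · linear_combination N * uz + M * uz'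
  · linear_combination N * uy + M * uy'
  · linear_combination N * ux + M * ux'

/-- transport of the cone along a word -/
theorem trans (w : List Mv) (hM : Mir p s1 s2 s3) :
    ∃ t1 t2 t3, Mir (run w p) t1 t2 t3 ∧ ∀ (n : ℝ) a b u, Dat δ p s1 s2 s3 a b u → Cn a → Cn b →
      n ≤ ip a a → n ≤ ip b b →
      ∃ a' b', Dat δ (run w p) t1 t2 t3 a' b' (drun w p u) ∧ Cn a' ∧ Cn b' ∧
        n ≤ ip a' a' ∧ n ≤ ip b' b' := by
  induction w generalizing p s1 s2 s3 with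
  | nil => exact ⟨s1, s2, s3, hM, fun n a b u h ha hb na nb => ⟨a, b, h, ha, hb, na, nb⟩⟩
  | cons m w ih =>
    cases m with
    | R =>
      obtain ⟨t1, t2, t3, hT, H⟩ := ih hM.R
      refine ⟨t1, t2, t3, hT, fun n a b u h ha hb na nb => ?_⟩
      have c1 := Cn_pr hM.n1 hb
      have c3 := Cn_pr hM.R.n3 hb
      refine H n _ _ _ (h.R hM) (Cn_add ha c1) c3 ?_ ?_
      · rw [ip_add_left, ip_add_right, ip_add_right, ip_comm (pr s1 b) a]
        have h1 := ip_nonneg ha c1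
        have h2 := c1.2
        linarith
      · rw [norm_pr hM.R.n3]; nlinarith [sq_nonneg (ip b (s3R p s2 s3))]
    | S =>
      obtain ⟨t1, t2, t3, hT, H⟩ := ih hM.S
      exact ⟨t1, t2, t3, hT, fun n a b u h ha hb na nb => H n _ _ _ h.S hb ha nb na⟩

/-- sign of a derivative of a later trace -/
theorem sgn_run (hδ : δ ≠ 0) (hS : OnS δ p) (hM : Mir p s1 s2 s3) (w : List Mv)
    (hx : (run w p).x ^ 2 < 1 + δ ^ 2) :
    ∃ s : ℝ, (s = 1 ∨ s = -1) ∧ ∀ a b u, Dat δ p s1 s2 s3 a b u → Cn a → Cn b →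
      0 ≤ s * (drun w p u).x ∧ (0 < ip a a → 0 < ip b b → 0 < s * (drun w p u).x) := by
  obtain ⟨t1, t2, t3, hT, H⟩ := trans (δ := δ) w hM
  obtain ⟨s, hs, K⟩ := sgn hδ (hS.run w) hT hx
  refine ⟨s, hs, fun a b u hD ha hb => ⟨?_, fun h1 h2 => ?_⟩⟩
  · obtain ⟨a', b', hD', ha', hb', -, -⟩ := H 0 a b u hD ha hb ha.2 hb.2
    exact (K _ _ _ hD' ha' hb').1
  · obtain ⟨a', b', hD', ha', hb', h3, h4⟩ := H (min (ip a a) (ip b b)) a b u hD ha hb
      (min_le_left _ _) (min_le_right _ _)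
    exact (K _ _ _ hD' ha' hb').2 (lt_of_lt_of_le (lt_min h1 h2) h4)

/-- domination -/
theorem dom (hδ : δ ≠ 0) (hS : OnS δ p) (hM : Mir p s1 s2 s3) (w : List Mv)
    (hx : (run w p).x ^ 2 < 1 + δ ^ 2) {a' b' : L} {u' : P3} (hD : Dat δ p s1 s2 s3 a b u)
    (hD' : Dat δ p s1 s2 s3 a' b' u') (ha : Cn a) (hb : Cn b) {N : ℝ}
    (h1 : Cn (N • a + a')) (h2 : Cn (N • a - a')) (h3 : Cn (N • b + b')) (h4 : Cn (N • b - b')) :
    |(drun w p u').x| ≤ N * |(drun w p u).x| := by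
  obtain ⟨s, hs, K⟩ := sgn_run hδ hS hM w hx
  have k0 := (K _ _ _ hD ha hb).1
  have k1 := (K _ _ _ (hD.lc hD' N 1) (by rwa [one_smul]) (by rwa [one_smul])).1
  have k2 := (K _ _ _ (hD.lc hD' N (-1)) (by rwa [neg_one_smul, ← sub_eq_add_neg])
    (by rwa [neg_one_smul, ← sub_eq_add_neg])).1
  rw [drun_lc] at k1 k2
  simp only [Stu.lc] at k1 k2
  have e : |(drun w p u).x| = s * (drun w p u).x := by
    rcases hs with h | h
    · rw [h, one_mul] at k0 ⊢; exact abs_of_nonneg k0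
    · rw [h, neg_one_mul] at k0 ⊢; exact abs_of_nonpos (by linarith)
  rw [e]
  rcases hs with h | h <;> rw [h] at k1 k2 ⊢ <;> rw [abs_le] <;> constructor <;> linarith

/-- every point of the surface has a triple of mirrors -/
theorem exists_mir (hδ : δ ≠ 0) (hS : OnS δ p) : ∃ s1 s2 s3, Mir p s1 s2 s3 := by
  obtain ⟨σ, hσ, hne⟩ : ∃ σ : ℝ, σ ^ 2 = δ ^ 2 ∧ p.z * p.y - p.x + σ ≠ 0 := by
    by_cases h : p.z * p.y - p.x + δ = 0
    · refine ⟨-δ, by ring, fun h' => hδ (by linarith)⟩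
    · exact ⟨δ, rfl, h⟩
  set W := p.z * p.y - p.x with hW
  have hW2 : W ^ 2 - σ ^ 2 = (p.z ^ 2 - 1) * (p.y ^ 2 - 1) := by
    unfold OnS at hS; rw [hσ, hW]; linear_combination hS
  have e : (p.z ^ 2 - 1) * ((p.y ^ 2 - 1) / (W + σ)) = W - σ := by
    field_simp
    linear_combination -hW2
  refine ⟨((1 + (p.z ^ 2 - 1)) / 2, p.z, (1 - (p.z ^ 2 - 1)) / 2), (0, 1, 0),
    (((p.y ^ 2 - 1) / (W + σ) + (W + σ)) / 2, p.y, ((p.y ^ 2 - 1) / (W + σ) - (W + σ)) / 2),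
    ?_, ?_, ?_, ?_, ?_, ?_⟩
  · simp only [ip]; ring
  · simp only [ip]; ring
  · simp only [ip]
    have : (p.y ^ 2 - 1) / (W + σ) * (W + σ) = p.y ^ 2 - 1 := div_mul_cancel₀ _ hne
    nlinarith [this]
  · simp only [ip]; ring
  · simp only [ip]; ring
  · simp only [ip]
    have : (p.z ^ 2 - 1) * ((p.y ^ 2 - 1) / (W + σ)) = W - σ := e
    have h2 : W = p.z * p.y - p.x := hW
    nlinarith [this]

/-! ### basic vector fields -/

/-- the field preserving `z` -/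
def fV (p : P3) : P3 := ⟨0, gX p, -gB p⟩
/-- the field preserving `y` -/
def fH (p : P3) : P3 := ⟨gX p, 0, -gA p⟩
/-- the field preserving `x` -/
def fK (p : P3) : P3 := ⟨-gB p, gA p, 0⟩

noncomputable def b0 (δ : ℝ) (p : P3) (s1 s2 s3 : L) : L :=
  (1 / δ) • (gX p • s1 + gB p • s2 - (1 + δ ^ 2 - p.z ^ 2) • s3)

noncomputable def aH (δ : ℝ) (p : P3) (s1 s2 s3 : L) : L :=
  (1 / δ) • ((1 + δ ^ 2 - p.y ^ 2) • s1 - gA p • s2 - gX p • s3)

lemma b0_1 (hδ : δ ≠ 0) (h : Mir p s1 s2 s3) :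
    ip (b0 δ p s1 s2 s3) s1 = δ * p.x := by
  obtain ⟨n1, n2, n3, hz, hy, hx⟩ := h
  have hx' := hx; rw [ip_comm] at hx'
  have hz' := hz; rw [ip_comm] at hz'
  simp only [b0, ip_sub_left, ip_add_left, ip_smul_left, n1, hx', hz']
  unfold gX gB
  field_simp
  ring

lemma b0_2 (hδ : δ ≠ 0) (h : Mir p s1 s2 s3) :
    ip (b0 δ p s1 s2 s3) s2 = δ * p.y := by
  obtain ⟨n1, n2, n3, hz, hy, hx⟩ := h
  have hy' := hy; rw [ip_comm] at hy'
  simp only [b0, ip_sub_left, ip_add_left, ip_smul_left, n2, hy', hz]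
  unfold gX gB
  field_simp
  ring

lemma b0_3 (hδ : δ ≠ 0) (hS : OnS δ p) (h : Mir p s1 s2 s3) :
    ip (b0 δ p s1 s2 s3) s3 = 0 := by
  obtain ⟨n1, n2, n3, hz, hy, hx⟩ := h
  simp only [b0, ip_sub_left, ip_add_left, ip_smul_left, n3, hy, hx]
  unfold gX gB
  unfold OnS at hS
  field_simp
  linear_combination -hS

lemma b0_norm (hδ : δ ≠ 0) (hS : OnS δ p) (h : Mir p s1 s2 s3) :
    ip (b0 δ p s1 s2 s3) (b0 δ p s1 s2 s3) = 1 + δ ^ 2 - p.z ^ 2 := by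
  have e : ip (b0 δ p s1 s2 s3) (b0 δ p s1 s2 s3) = (1 / δ) * (gX p * ip (b0 δ p s1 s2 s3) s1
      + gB p * ip (b0 δ p s1 s2 s3) s2 - (1 + δ ^ 2 - p.z ^ 2) * ip (b0 δ p s1 s2 s3) s3) := by
    conv_lhs =>
      rw [b0, ip_smul_left, ip_sub_left, ip_add_left, ip_smul_left, ip_smul_left, ip_smul_left]
    rw [ip_comm s2, ip_comm s1, ip_comm s3]
    rfl
  rw [e, b0_1 hδ h, b0_2 hδ h, b0_3 hδ hS h]
  unfold OnS at hS
  unfold gX gB
  field_simp
  linear_combination δ * hS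

lemma b0_dat (hδ : δ ≠ 0) (hS : OnS δ p) (h : Mir p s1 s2 s3) :
    Dat δ p s1 s2 s3 0 (b0 δ p s1 s2 s3) (lc (-1) (fV p) 0 (fV p)) := by
  have e1 := b0_1 hδ h
  have e2 := b0_2 hδ h
  refine ⟨by simp, b0_3 hδ hS h, ?_, ?_, ?_, ?_⟩ <;>
    simp only [ip_zero_left, e1, e2, lc, fV, gX, gB, gA] <;> ring

lemma aH_1 (hδ : δ ≠ 0) (hS : OnS δ p) (h : Mir p s1 s2 s3) :
    ip (aH δ p s1 s2 s3) s1 = 0 := by
  obtain ⟨n1, n2, n3, hz, hy, hx⟩ := h
  have hx' := hx; rw [ip_comm] at hx'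
  have hz' := hz; rw [ip_comm] at hz'
  simp only [aH, ip_sub_left, ip_smul_left, n1, hx', hz']
  unfold gX gA
  unfold OnS at hS
  field_simp
  linear_combination hS

lemma aH_2 (hδ : δ ≠ 0) (h : Mir p s1 s2 s3) :
    ip (aH δ p s1 s2 s3) s2 = -(δ * p.z) := by
  obtain ⟨n1, n2, n3, hz, hy, hx⟩ := h
  have hy' := hy; rw [ip_comm] at hy'
  simp only [aH, ip_sub_left, ip_smul_left, n2, hy', hz]
  unfold gX gA
  field_simp
  ring

lemma aH_3 (hδ : δ ≠ 0) (h : Mir p s1 s2 s3) :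
    ip (aH δ p s1 s2 s3) s3 = -(δ * p.x) := by
  obtain ⟨n1, n2, n3, hz, hy, hx⟩ := h
  simp only [aH, ip_sub_left, ip_smul_left, n3, hy, hx]
  unfold gX gA
  field_simp
  ring

lemma aH_ip (v : L) : ip (aH δ p s1 s2 s3) v =
    (1 / δ) * ((1 + δ ^ 2 - p.y ^ 2) * ip v s1 - gA p * ip v s2 - gX p * ip v s3) := by
  rw [aH, ip_smul_left, ip_sub_left, ip_sub_left, ip_smul_left, ip_smul_left, ip_smul_left,
    ip_comm s2, ip_comm s1, ip_comm s3]

lemma aH_norm (hδ : δ ≠ 0) (hS : OnS δ p) (h : Mir p s1 s2 s3) :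
    ip (aH δ p s1 s2 s3) (aH δ p s1 s2 s3) = 1 + δ ^ 2 - p.y ^ 2 := by
  rw [aH_ip, aH_1 hδ hS h, aH_2 hδ h, aH_3 hδ h]
  unfold OnS at hS
  unfold gX gA
  field_simp
  linear_combination δ * hS

lemma aH_dat (hδ : δ ≠ 0) (hS : OnS δ p) (h : Mir p s1 s2 s3) :
    Dat δ p s1 s2 s3 (aH δ p s1 s2 s3) 0 (fH p) := by
  have e1 := aH_2 hδ h
  have e2 := aH_3 hδ h
  refine ⟨aH_1 hδ hS h, by simp, ?_, ?_, ?_, ?_⟩ <;>
    simp only [ip_zero_left, e1, e2, fH, gX, gB, gA] <;> ring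

lemma b0_aH (hδ : δ ≠ 0) (hS : OnS δ p) (h : Mir p s1 s2 s3) :
    ip (b0 δ p s1 s2 s3) (aH δ p s1 s2 s3) = (1 + δ ^ 2) * p.x - p.y * p.z := by
  rw [ip_comm, aH_ip, b0_1 hδ h, b0_2 hδ h, b0_3 hδ hS h]
  unfold gX gA
  field_simp
  ring

end Pool.Agent.W811.Stu
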