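import Mathlib
import Pool.Agent.W811.Stu.Cmp

/-!
All directions are dominated by the direction preserving `z`.
-/

set_option autoImplicit false

namespace Pool.Agent.W811.Stu

lemma Cn_dom {T U : L} {N C m t : ℝ} (hT : Cn T) (hm : 0 < m) (ht : 0 ≤ t) (hC : 0 ≤ C)
    (h1 : m * (1 + t) ≤ ip T T) (h2 : |ip T U| ≤ C * (1 + t)) (h3 : |ip U U| ≤ C * (1 + t))
    (hN : N = 1 + 3 * C / m) : Cn (N • T + U) := by
  have hNm : N * m = m + 3 * C := by rw [hN]; field_simp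
  have hN1 : 1 ≤ N := by rw [hN]; have := div_nonneg (by linarith : 0 ≤ 3 * C) hm.le; linarith
  have hN0 : 0 ≤ N := by linarith
  have h2' := abs_le.1 h2
  have h3' := abs_le.1 h3
  have hTT : 0 < ip T T := lt_of_lt_of_le (by positivity) h1
  have hNC : C ≤ N * C := by nlinarith
  apply Cn_of_ip hT hTT
  · simp only [ip_add_left, ip_add_right, ip_smul_left, ip_smul_right, ip_comm U T]
    have e1 : N * (N * (m * (1 + t))) ≤ N * (N * ip T T) :=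
      mul_le_mul_of_nonneg_left (mul_le_mul_of_nonneg_left h1 hN0) hN0
    have e2 : N * (N * (m * (1 + t))) = N * (m + 3 * C) * (1 + t) := by rw [← hNm]; ring
    have e3 : N * (-(C * (1 + t))) ≤ N * ip T U := mul_le_mul_of_nonneg_left h2'.1 hN0
    have e4 : 0 ≤ N * m * (1 + t) := by positivity
    have e5 : C * (1 + t) ≤ N * C * (1 + t) := mul_le_mul_of_nonneg_right hNC (by linarith)
    have := h3'.1
    nlinarith
  · simp only [ip_add_right, ip_smul_right]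
    have e1 : N * (m * (1 + t)) ≤ N * ip T T := mul_le_mul_of_nonneg_left h1 hN0
    have e2 : N * (m * (1 + t)) = (m + 3 * C) * (1 + t) := by rw [← hNm]; ring
    have e4 : 0 ≤ m * (1 + t) := by positivity
    have e5 : 0 ≤ C * (1 + t) := by positivity
    nlinarith [h2'.1]

lemma Cn_dom' {T U : L} {N C m t : ℝ} (hT : Cn T) (hm : 0 < m) (ht : 0 ≤ t) (hC : 0 ≤ C)
    (h1 : m * (1 + t) ≤ ip T T) (h2 : |ip T U| ≤ C * (1 + t)) (h3 : |ip U U| ≤ C * (1 + t))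
    (hN : N = 1 + 3 * C / m) : Cn (N • T - U) := by
  rw [sub_eq_add_neg]
  apply Cn_dom hT hm ht hC h1 _ _ hN
  · rw [ip_neg_right, abs_neg]; exact h2
  · rw [ip_neg_right, ip_neg_left, neg_neg]; exact h3

lemma y2_le {δ : ℝ} {p : P3} {κ : ℝ} (hS : OnS δ p) (hz : p.z ^ 2 ≤ κ) :
    p.y ^ 2 ≤ (2 * κ + 2 * δ ^ 2 + 2 * (1 + κ)) * (1 + p.x ^ 2) := by
  have hκ : 0 ≤ κ := le_trans (sq_nonneg _) hz
  have h := hS.B2
  have h1 : (1 - p.x ^ 2) * (1 - p.z ^ 2) ≤ (1 + p.x ^ 2) * (1 + κ) := by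
    nlinarith [sq_nonneg p.x, sq_nonneg p.z, mul_nonneg (sq_nonneg p.x) (sq_nonneg p.z),
      mul_nonneg (sq_nonneg p.x) (sub_nonneg.2 hz)]
  have h2 : p.y ^ 2 ≤ 2 * (p.x * p.z) ^ 2 + 2 * gB p ^ 2 := by
    unfold gB; nlinarith [sq_nonneg (p.y - 2 * (p.x * p.z))]
  have h3 : (p.x * p.z) ^ 2 ≤ p.x ^ 2 * κ := by
    rw [mul_pow]; exact mul_le_mul_of_nonneg_left hz (sq_nonneg _)
  nlinarith [sq_nonneg p.x, mul_nonneg (sq_nonneg p.x) (sq_nonneg δ)]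

lemma x2_le {δ : ℝ} {p : P3} {κ : ℝ} (hS : OnS δ p) (hz : p.z ^ 2 ≤ κ) :
    p.x ^ 2 ≤ (2 * κ + 2 * δ ^ 2 + 2 * (1 + κ)) * (1 + p.y ^ 2) := by
  have hS' : OnS δ ⟨p.z, p.x, p.y⟩ := by
    unfold OnS at *; simp only; linear_combination hS
  exact y2_le hS' hz

lemma dR_fK (p : P3) : dR p (fK p) = lc (-1) (fV (stepR p)) 0 (fV (stepR p)) := by
  unfold dR fK lc fV stepR gA gB gX
  ext <;> simp only <;> ring

lemma pr_zero (σ : L) : pr σ 0 = 0 := by unfold pr; simp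

/-- the constant in the comparison -/
noncomputable def N0 (δ κ : ℝ) : ℝ :=
  1 + 3 * (1 + δ ^ 2 + (2 * κ + 2 * δ ^ 2 + 2 * (1 + κ)) + κ) / (min (1 + δ ^ 2 - κ) (δ ^ 2))

lemma N0_ge {δ κ : ℝ} (hδ : δ ≠ 0) (hκ0 : 0 ≤ κ) (hκ : κ < 1 + δ ^ 2) : 1 ≤ N0 δ κ := by
  unfold N0
  have : 0 < δ ^ 2 := by positivity
  have hm : 0 < min (1 + δ ^ 2 - κ) (δ ^ 2) := lt_min (by linarith) this
  have := div_nonneg (by positivity : (0:ℝ) ≤
    3 * (1 + δ ^ 2 + (2 * κ + 2 * δ ^ 2 + 2 * (1 + κ)) + κ)) hm.le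
  linarith

/-- **Comparison of directions.** -/
theorem cmp {δ κ : ℝ} (hδ : δ ≠ 0) (hκ0 : 0 ≤ κ) (hκ : κ < 1 + δ ^ 2) {p : P3} (hS : OnS δ p)
    (hz : p.z ^ 2 ≤ κ) (w : List Mv) (hx : (run w (stepR p)).x ^ 2 < 1 + δ ^ 2) :
    |(drun w (stepR p) (dR p (fH p))).x| ≤ N0 δ κ * |(drun w (stepR p) (dR p (fV p))).x| ∧
    |(drun w (stepR p) (dR p (fK p))).x| ≤ N0 δ κ * |(drun w (stepR p) (dR p (fV p))).x| ∧
    (drun w (stepR p) (dR p (fV p))).x ≠ 0 := by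
  obtain ⟨s1, s2, s3, hM⟩ := exists_mir hδ hS
  have hδ2 : 0 < δ ^ 2 := by positivity
  set m := min (1 + δ ^ 2 - κ) (δ ^ 2) with hm
  have hm0 : 0 < m := lt_min (by linarith) hδ2
  have hm1 : m ≤ 1 + δ ^ 2 - κ := min_le_left _ _
  have hm2 : m ≤ δ ^ 2 := min_le_right _ _
  set C1 := 2 * κ + 2 * δ ^ 2 + 2 * (1 + κ) with hC1
  have hC10 : 0 ≤ C1 := by positivity
  set C := 1 + δ ^ 2 + C1 + κ with hC
  have hC0 : 0 ≤ C := by positivity
  have hN : N0 δ κ = 1 + 3 * C / m := rfl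
  have hN0 : 0 ≤ N0 δ κ := by linarith [N0_ge hδ hκ0 hκ]
  have hMR := hM.R
  have hSR := hS.R
  -- orientation
  set β := b0 δ p s1 s2 s3 with hβ
  have nβ : ip β β = 1 + δ ^ 2 - p.z ^ 2 := b0_norm hδ hS hM
  have nβ0 : 0 < ip β β := by rw [nβ]; linarith
  obtain ⟨η, hη, hηC⟩ : ∃ η : ℝ, (η = 1 ∨ η = -1) ∧ Cn (η • β) := by
    rcases Cn_or nβ0.le with h | h
    · exact ⟨1, Or.inl rfl, by rwa [one_smul]⟩
    · exact ⟨-1, Or.inr rfl, by rwa [neg_one_smul]⟩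
  have hη2 : η * η = 1 := by rcases hη with h | h <;> rw [h] <;> norm_num
  have habs : |η| = 1 := by rcases hη with h | h <;> rw [h] <;> norm_num
  -- data
  have D0 : Dat δ p s1 s2 s3 (0 : L) (η • β) (lc (-η) (fV p) 0 (fV p)) := by
    have h := (b0_dat hδ hS hM).lc (b0_dat hδ hS hM) η 0
    rw [zero_smul, add_zero, zero_smul, add_zero, smul_zero] at h
    convert h using 1
    unfold lc; ext <;> simp only <;> ring
  have DV := D0.R hM
  rw [zero_add] at DV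
  set T1 := pr s1 (η • β) with hT1
  set T3 := pr (s3R p s2 s3) (η • β) with hT3
  have cT1 : Cn T1 := Cn_pr hM.n1 hηC
  have cT3 : Cn T3 := Cn_pr hMR.n3 hηC
  have hb3 : ip β (s3R p s2 s3) = -(δ * p.y) := by
    rw [s3R, ip_sub_right, ip_smul_right, b0_3 hδ hS hM, b0_2 hδ hM]; ring
  have nT1 : ip T1 T1 = 1 + δ ^ 2 - p.z ^ 2 + δ ^ 2 * p.x ^ 2 := by
    rw [hT1, norm_pr hM.n1, ip_smul_left, ip_smul_right, ip_smul_left, nβ, b0_1 hδ hM]
    linear_combination (1 + δ ^ 2 - p.z ^ 2 + δ ^ 2 * p.x ^ 2) * hη2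
  have nT3 : ip T3 T3 = 1 + δ ^ 2 - p.z ^ 2 + δ ^ 2 * p.y ^ 2 := by
    rw [hT3, norm_pr hMR.n3, ip_smul_left, ip_smul_right, ip_smul_left, nβ, hb3]
    linear_combination (1 + δ ^ 2 - p.z ^ 2 + δ ^ 2 * p.y ^ 2) * hη2
  have lT1 : m * (1 + p.x ^ 2) ≤ ip T1 T1 := by
    rw [nT1]; nlinarith [mul_nonneg (sub_nonneg.2 hm2) (sq_nonneg p.x)]
  have lT3 : m * (1 + p.y ^ 2) ≤ ip T3 T3 := by
    rw [nT3]; nlinarith [mul_nonneg (sub_nonneg.2 hm2) (sq_nonneg p.y)]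
  have DH := (aH_dat hδ hS hM).R hM
  rw [pr_zero, pr_zero, add_zero] at DH
  have DK := b0_dat hδ hSR hMR
  rw [← dR_fK] at DK
  have hy2 := y2_le hS hz
  have hx2 := x2_le hS hz
  rw [← hC1] at hy2 hx2
  have eV : (drun w (stepR p) (dR p (lc (-η) (fV p) 0 (fV p)))).x =
      -η * (drun w (stepR p) (dR p (fV p))).x := by
    have : dR p (lc (-η) (fV p) 0 (fV p)) = lc (-η) (dR p (fV p)) 0 (dR p (fV p)) :=
      mdstep_lc Mv.R p _ _ _ _
    rw [this, drun_lc]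
    simp only [lc]; ring
  have eVabs : |(drun w (stepR p) (dR p (lc (-η) (fV p) 0 (fV p)))).x| =
      |(drun w (stepR p) (dR p (fV p))).x| := by
    rw [eV, abs_mul, abs_neg, habs, one_mul]
  have aux1 : |p.x| ≤ 1 + p.x ^ 2 := by
    rw [abs_le]; constructor <;> nlinarith [sq_nonneg (p.x - 1), sq_nonneg (p.x + 1)]
  have aux2 : |p.y| ≤ 1 + p.y ^ 2 := by
    rw [abs_le]; constructor <;> nlinarith [sq_nonneg (p.y - 1), sq_nonneg (p.y + 1)]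
  have px := sq_nonneg p.x
  have py := sq_nonneg p.y
  refine ⟨?_, ?_, ?_⟩
  · rw [← eVabs]
    have e1 : ip T1 (aH δ p s1 s2 s3) = η * ((1 + δ ^ 2) * p.x - p.y * p.z) := by
      rw [hT1, ip_pr (aH_1 hδ hS hM), ip_smul_left, b0_aH hδ hS hM]
    have e2 : |ip T1 (aH δ p s1 s2 s3)| ≤ C * (1 + p.x ^ 2) := by
      rw [e1, abs_mul, habs, one_mul]
      have f1 : |(1 + δ ^ 2) * p.x| ≤ (1 + δ ^ 2) * (1 + p.x ^ 2) := by
        rw [abs_mul, abs_of_pos (by positivity : 0 < 1 + δ ^ 2)]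
        exact mul_le_mul_of_nonneg_left aux1 (by positivity)
      have f2 : |p.y * p.z| ≤ C1 * (1 + p.x ^ 2) + κ := by
        rw [abs_le]; constructor <;>
          nlinarith [sq_nonneg (p.y + p.z), sq_nonneg (p.y - p.z), sq_nonneg p.y, sq_nonneg p.z]
      calc |(1 + δ ^ 2) * p.x - p.y * p.z| ≤ |(1 + δ ^ 2) * p.x| + |p.y * p.z| := abs_sub _ _
        _ ≤ (1 + δ ^ 2) * (1 + p.x ^ 2) + (C1 * (1 + p.x ^ 2) + κ) := add_le_add f1 f2
        _ ≤ C * (1 + p.x ^ 2) := by rw [hC]; nlinarith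
    have e3 : |ip (aH δ p s1 s2 s3) (aH δ p s1 s2 s3)| ≤ C * (1 + p.x ^ 2) := by
      rw [aH_norm hδ hS hM, abs_le]
      constructor <;> rw [hC] <;> nlinarith
    refine dom hδ hSR hMR w hx DV DH cT1 cT3 ?_ ?_ ?_ ?_
    · exact Cn_dom cT1 hm0 px hC0 lT1 e2 e3 hN
    · exact Cn_dom' cT1 hm0 px hC0 lT1 e2 e3 hN
    · rw [add_zero]; exact Cn_smul cT3 hN0
    · rw [sub_zero]; exact Cn_smul cT3 hN0
  · rw [← eVabs]
    set U := b0 δ (stepR p) s1 s3 (s3R p s2 s3) with hU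
    have U3 : ip U (s3R p s2 s3) = 0 := b0_3 hδ hSR hMR
    have e1 : ip T3 U = η * ((1 + δ ^ 2) * p.y - p.x * p.z) := by
      rw [hT3, ip_pr U3, ip_smul_left]
      congr 1
      rw [hU, b0, ip_smul_right, ip_sub_right, ip_add_right, ip_smul_right, ip_smul_right,
        ip_smul_right, hb3, b0_3 hδ hS hM, b0_1 hδ hM]
      simp only [gX, stepR]
      field_simp
      ring
    have e2 : |ip T3 U| ≤ C * (1 + p.y ^ 2) := by
      rw [e1, abs_mul, habs, one_mul]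
      have f1 : |(1 + δ ^ 2) * p.y| ≤ (1 + δ ^ 2) * (1 + p.y ^ 2) := by
        rw [abs_mul, abs_of_pos (by positivity : 0 < 1 + δ ^ 2)]
        exact mul_le_mul_of_nonneg_left aux2 (by positivity)
      have f2 : |p.x * p.z| ≤ C1 * (1 + p.y ^ 2) + κ := by
        rw [abs_le]; constructor <;>
          nlinarith [sq_nonneg (p.x + p.z), sq_nonneg (p.x - p.z), sq_nonneg p.x, sq_nonneg p.z]
      calc |(1 + δ ^ 2) * p.y - p.x * p.z| ≤ |(1 + δ ^ 2) * p.y| + |p.x * p.z| := abs_sub _ _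
        _ ≤ (1 + δ ^ 2) * (1 + p.y ^ 2) + (C1 * (1 + p.y ^ 2) + κ) := add_le_add f1 f2
        _ ≤ C * (1 + p.y ^ 2) := by rw [hC]; nlinarith
    have e3 : |ip U U| ≤ C * (1 + p.y ^ 2) := by
      rw [hU, b0_norm hδ hSR hMR, abs_le]
      simp only [stepR]
      constructor <;> rw [hC] <;> nlinarith
    refine dom hδ hSR hMR w hx DV DK cT1 cT3 ?_ ?_ ?_ ?_
    · rw [add_zero]; exact Cn_smul cT1 hN0
    · rw [sub_zero]; exact Cn_smul cT1 hN0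
    · exact Cn_dom cT3 hm0 py hC0 lT3 e2 e3 hN
    · exact Cn_dom' cT3 hm0 py hC0 lT3 e2 e3 hN
  · obtain ⟨s, hs, K⟩ := sgn_run hδ hSR hMR w hx
    have h1 : 0 < ip T1 T1 := lt_of_lt_of_le (by positivity) lT1
    have h3 : 0 < ip T3 T3 := lt_of_lt_of_le (by positivity) lT3
    have := (K _ _ _ DV cT1 cT3).2 h1 h3
    rw [eV] at this
    intro h0
    rw [h0] at this
    simp at this

/-- the derivative along the field preserving `z` does not vanish, at the stage itself -/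
theorem V_ne {δ : ℝ} (hδ : δ ≠ 0) {p : P3} (hS : OnS δ p) (hz : p.z ^ 2 < 1 + δ ^ 2)
    (hx : p.x ^ 2 < 1 + δ ^ 2) : (fV p).x ≠ 0 := by
  have h := hS.B2
  simp only [fV]
  intro h0
  have h1 : gB p = 0 := by linarith
  rw [h1] at h
  have hδ2 : 0 < δ ^ 2 := by positivity
  rcases le_or_gt (p.x ^ 2) 1 with h2 | h2 <;> rcases le_or_gt (p.z ^ 2) 1 with h3 | h3
  · nlinarith [mul_nonneg (sub_nonneg.2 h2) (sub_nonneg.2 h3)]
  · nlinarith [mul_nonneg (sub_nonneg.2 h2) (sub_nonneg.2 h3.le), sq_nonneg p.x]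
  · nlinarith [mul_nonneg (sub_nonneg.2 h2.le) (sub_nonneg.2 h3), sq_nonneg p.z]
  · nlinarith [mul_nonneg (sub_nonneg.2 h2.le) (sub_nonneg.2 h3.le)]

end Pool.Agent.W811.Stu
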