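import Mathlib
import Pool.Agent.W811.Stu.Cmp

/-!
More statements of independent parts of the project.
-/

set_option autoImplicit false

open MeasureTheory Filter Polynomial NNReal

namespace Pool.Agent.W811.Stu

/-- trace polynomials: nonconstant with real zeros -/
def TPoly : Prop :=
  ∀ (lam : ℝ) (d : ℕ → ℕ) (m : ℕ), (∀ k, 1 ≤ d k) → ∃ F : ℝ[X], 1 ≤ F.natDegree ∧
    (∀ E : ℝ, F.eval E = (orb d (lin lam E) m).y) ∧ (∀ w : ℂ, aeval w F = 0 → w.im = 0)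

/-- uniform bounds on the spectrum -/
def TBdd : Prop :=
  ∀ lam : ℝ, 0 < lam → ∃ C : ℝ, ∀ d : ℕ → ℕ, (∀ k, 1 ≤ d k) → ∀ E ∈ Sp lam d, ∀ m,
    |(orb d (lin lam E) m).z| ≤ C ∧ |(orb d (lin lam E) m).y| ≤ C ∧ |(orb d (lin lam E) m).x| ≤ C

/-- traces tend to infinity off the spectrum -/
def TEsc : Prop :=
  ∀ lam : ℝ, 0 < lam → ∀ d : ℕ → ℕ, (∀ k, 1 ≤ d k) → ∀ E : ℝ, E ∉ Sp lam d →
    Tendsto (fun m => |(orb d (lin lam E) m).y|) atTop atTop

/-- `u` is the derivative of the curve `p` at `t` -/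
def HasDer (p : ℝ → P3) (u : P3) (t : ℝ) : Prop :=
  HasDerivAt (fun s => (p s).z) u.z t ∧ HasDerivAt (fun s => (p s).y) u.y t ∧
    HasDerivAt (fun s => (p s).x) u.x t

/-- continuity of a field of vectors along an interval -/
def ContP (p : ℝ → P3) (s : Set ℝ) : Prop :=
  ContinuousOn (fun t => (p t).z) s ∧ ContinuousOn (fun t => (p t).y) s ∧
    ContinuousOn (fun t => (p t).x) s

/-- **Crossing lemma.** A curve `q` along which `y` moves monotonically from `-1/2` to `1/2` and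
which satisfies a one-sided twist condition is mapped by `stepT b`, `b` large, to a curve which
meets every curve `p` along which `z` moves monotonically through `[-1/2,1/2]` with slopes at most
`C`. -/
def TCross : Prop :=
  ∀ δ : ℝ, 0 < δ → ∀ C : ℝ, 0 ≤ C → ∃ B : ℕ, ∀ b : ℕ, B ≤ b →
    ∀ (q q' : ℝ → P3) (e0 e1 : ℝ), e0 ≠ e1 →
      ContP q' (Set.uIcc e0 e1) →
      (∀ E ∈ Set.uIcc e0 e1, HasDer q (q' E) E ∧ OnS δ (q E) ∧ (q' E).y ≠ 0 ∧
        -(δ * |(q E).z| * (q' E).y ^ 2) ≤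
          ((1 - (q E).y ^ 2) * ((q' E).x * (q E).z - (q' E).z * (q E).x)
            - (q' E).y * (q E).z * gA (q E)) * (q' E).y) →
      (q e0).y = -(1 / 2) → (q e1).y = 1 / 2 →
    ∀ (p p' : ℝ → P3) (t0 t1 : ℝ), t0 ≠ t1 →
      ContP p' (Set.uIcc t0 t1) →
      (∀ t ∈ Set.uIcc t0 t1, HasDer p (p' t) t ∧ OnS δ (p t) ∧ (p' t).z ≠ 0 ∧
        |(p' t).y| ≤ C * |(p' t).z| ∧ |(p' t).x| ≤ C * |(p' t).z|) →
      (p t0).z = -(1 / 2) → (p t1).z = 1 / 2 →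
    ∃ E ∈ Set.uIcc e0 e1, ∃ t ∈ Set.uIcc t0 t1, stepT b (q E) = p t

/-- **The key statement** (dynamical core, to be proved by helper811): after a large digit the
spectrum with the remaining digits is an almost Lipschitz image of a subset of the spectrum. -/
def Key : Prop :=
  ∀ lam : ℝ, 0 < lam → ∃ A : ℕ, ∀ d : ℕ → ℕ, (∀ k, 1 ≤ d k) → ∀ n, A ≤ d n →
    (∀ᶠ k in atTop, d k ≤ (k + 1) ^ 2) →
    ∀ r : ℝ≥0, 0 < r → r < 1 → ∃ (C : ℝ≥0) (g : ℝ → ℝ) (Q : Set ℝ), Q ⊆ Sp lam d ∧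
      g '' Q = Sp lam (fun k => d (n + 1 + k)) ∧ HolderOnWith C r g Q

/-- upper box dimension of a bounded set, through coverings by intervals of length `2ε` -/
noncomputable def covN (K : Set ℝ) (ε : ℝ) : ℕ :=
  sInf {N : ℕ | ∃ t : Finset ℝ, t.card = N ∧ K ⊆ ⋃ x ∈ t, Set.Icc (x - ε) (x + ε)}

noncomputable def ubox (K : Set ℝ) : EReal :=
  limsup (fun ε : ℝ => ((Real.log (covN K ε) / Real.log (1 / ε) : ℝ) : EReal))
    (nhdsWithin 0 (Set.Ioi 0))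

/-- the conclusion for the Hausdorff dimension = frozen statement S15713 -/
def TFinH : Prop :=
  ∀ lam : ℝ, 0 < lam → ∃ d : ENNReal, ∀ᵐ α ∂(volume.restrict (Set.Ioo (0:ℝ) 1)),
    ∀ T : lp (fun _ : ℤ => ℂ) 2 →L[ℂ] lp (fun _ : ℤ => ℂ) 2, IsSturm lam α T →
      dimH {E : ℝ | (E : ℂ) ∈ spectrum ℂ T} = d

/-- the conclusion for the upper box dimension -/
def TFinB : Prop :=
  ∀ lam : ℝ, 0 < lam → ∃ d : EReal, ∀ᵐ α ∂(volume.restrict (Set.Ioo (0:ℝ) 1)),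
    ∀ T : lp (fun _ : ℤ => ℂ) 2 →L[ℂ] lp (fun _ : ℤ => ℂ) 2, IsSturm lam α T →
      ubox {E : ℝ | (E : ℂ) ∈ spectrum ℂ T} = d

end Pool.Agent.W811.Stu
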