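import Mathlib
import Pool.Agent.W811.Stu.Cmp2
import Pool.Agent.W811.Stu.Stmts2

/-!
Tangent maps of the trace maps, level functions, leaves.
-/

set_option autoImplicit false

namespace Pool.Agent.W811.Stu

/-- tangent map of `stepR^[k]` -/
def dRk : ℕ → P3 → P3 → P3
  | 0, _, u => u
  | k + 1, p, u => dR (stepR^[k] p) (dRk k p u)

/-- tangent map of `orb d · m` -/
def dorb (d : ℕ → ℕ) (p u : P3) : ℕ → P3
  | 0 => u
  | m + 1 => dS (dRk (d m) (orb d p m) (dorb d p u m))

/-- the derivative of the level function `p ↦ (orb d p m).y` along the field `fV` -/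
def Vy (d : ℕ → ℕ) (m : ℕ) (p : P3) : ℝ := (dorb d p (fV p) m).y

/-- the field tangent to the leaves of level `m`, i.e. to the curves in the surface on which
`(orb d · m).y` is constant -/
def LF (d : ℕ → ℕ) (m : ℕ) (p : P3) : P3 :=
  ⟨(dorb d p (fV p) m).y, -(dorb d p (fH p) m).y, -(dorb d p (fK p) m).y⟩

/-- the function `t_k` at stage `j` : `t_0 = z_j = y_{j-1}`, `t_{d_j} = y_{j+1}` -/
def tf (d : ℕ → ℕ) (j k : ℕ) (p : P3) : ℝ := (stepR^[k] (orb d p j)).z

/-- its derivative along the field `fV` -/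
def Vt (d : ℕ → ℕ) (j k : ℕ) (p : P3) : ℝ := (dRk k (orb d p j) (dorb d p (fV p) j)).z

/-- `c = √(1+δ²)` -/
noncomputable def cc (δ : ℝ) : ℝ := Real.sqrt (1 + δ ^ 2)

lemma cc_sq (δ : ℝ) : cc δ ^ 2 = 1 + δ ^ 2 := Real.sq_sqrt (by positivity)

lemma cc_pos (δ : ℝ) : 0 < cc δ := Real.sqrt_pos.2 (by positivity)

lemma one_lt_cc {δ : ℝ} (hδ : δ ≠ 0) : 1 < cc δ := by
  have h1 := cc_sq δ
  have h2 := cc_pos δ
  have : 0 < δ ^ 2 := by positivity
  nlinarith

/-- the surface OnS contains the starting lines -/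
lemma onS_lin (lam E : ℝ) : OnS (lam / 2) (lin lam E) := by
  unfold OnS lin; simp only; ring

lemma OnS.iter {δ : ℝ} {p : P3} (h : OnS δ p) (k : ℕ) : OnS δ (stepR^[k] p) := by
  induction k with
  | zero => exact h
  | succ k ih => rw [Function.iterate_succ_apply']; exact ih.R

lemma OnS.orb {δ : ℝ} {p : P3} (h : OnS δ p) (d : ℕ → ℕ) (m : ℕ) : OnS δ (orb d p m) := by
  induction m with
  | zero => exact h
  | succ m ih => exact (ih.iter (d m)).S

lemma iter_y (k : ℕ) (p : P3) : (stepR^[k] p).y = p.y := by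
  induction k with
  | zero => rfl
  | succ k ih => rw [Function.iterate_succ_apply']; exact ih

lemma iter_x (k : ℕ) (p : P3) : (stepR^[k] p).x = (stepR^[k+1] p).z := by
  rw [Function.iterate_succ_apply']; rfl

lemma orb_succ_y (d : ℕ → ℕ) (p : P3) (m : ℕ) : (orb d p (m + 1)).y = tf d m (d m) p := rfl

lemma orb_succ_z (d : ℕ → ℕ) (p : P3) (m : ℕ) : (orb d p (m + 1)).z = (orb d p m).y := by
  have : (orb d p (m + 1)).z = (stepR^[d m] (orb d p m)).y := rfl
  rw [this, iter_y]

lemma orb_succ_x (d : ℕ → ℕ) (p : P3) (m : ℕ) :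
    (orb d p (m + 1)).x = tf d m (d m + 1) p := by
  have : (orb d p (m + 1)).x = (stepR^[d m] (orb d p m)).x := rfl
  rw [this, iter_x]; rfl

lemma tf_zero (d : ℕ → ℕ) (j : ℕ) (p : P3) : tf d j 0 p = (orb d p j).z := rfl

lemma tf_one (d : ℕ → ℕ) (j : ℕ) (p : P3) : tf d j 1 p = (orb d p j).x := rfl

lemma tf_rec (d : ℕ → ℕ) (j k : ℕ) (p : P3) :
    tf d j (k + 2) p = 2 * (orb d p j).y * tf d j (k + 1) p - tf d j k p := by
  unfold tf
  rw [← iter_x (k + 1), Function.iterate_succ_apply']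
  simp only [stepR]
  rw [iter_y, iter_x, Function.iterate_succ_apply']
  ring

lemma tf_energy {δ : ℝ} {p : P3} (h : OnS δ p) (d : ℕ → ℕ) (j k : ℕ) :
    tf d j k p ^ 2 + tf d j (k + 1) p ^ 2 - 2 * (orb d p j).y * tf d j k p * tf d j (k + 1) p
      = 1 + δ ^ 2 - (orb d p j).y ^ 2 := by
  have h1 := (h.orb d j).iter k
  unfold OnS at h1
  rw [iter_y, iter_x] at h1
  unfold tf
  linear_combination h1

/-- digits may be changed beyond the stage -/
lemma orb_congr {d d' : ℕ → ℕ} (p : P3) {m : ℕ} (h : ∀ k < m, d k = d' k) :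
    orb d p m = orb d' p m := by
  induction m with
  | zero => rfl
  | succ m ih =>
    unfold orb
    rw [ih (fun k hk => h k (by omega)), h m (by omega)]

lemma dorb_congr {d d' : ℕ → ℕ} (p u : P3) {m : ℕ} (h : ∀ k < m, d k = d' k) :
    dorb d p u m = dorb d' p u m := by
  induction m with
  | zero => rfl
  | succ m ih =>
    unfold dorb
    rw [ih (fun k hk => h k (by omega)), h m (by omega), orb_congr p (fun k hk => h k (by omega))]

/-- the functions `t_k` at stage `j` are level functions of modified digits -/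
lemma tf_eq_orb (d : ℕ → ℕ) (j k : ℕ) (p : P3) :
    (orb (Function.update d j k) p (j + 1)).y = tf d j k p := by
  rw [orb_succ_y]
  unfold tf
  rw [Function.update_self, orb_congr (d := Function.update d j k) (d' := d) p
    (fun i hi => Function.update_of_ne (by omega) _ _)]

lemma Vt_eq_Vy (d : ℕ → ℕ) (j k : ℕ) (p : P3) :
    Vy (Function.update d j k) (j + 1) p = Vt d j k p := by
  unfold Vy Vt
  have : (dorb (Function.update d j k) p (fV p) (j + 1)).y =
    (dRk (Function.update d j k j) (orb (Function.update d j k) p j)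
      (dorb (Function.update d j k) p (fV p) j)).z := rfl
  rw [this, Function.update_self, orb_congr (d := Function.update d j k) (d' := d) p
    (fun i hi => Function.update_of_ne (by omega) _ _),
    dorb_congr (d := Function.update d j k) (d' := d) p _
    (fun i hi => Function.update_of_ne (by omega) _ _)]

lemma Vy_succ (d : ℕ → ℕ) (j : ℕ) (p : P3) : Vy d (j + 1) p = Vt d j (d j) p := rfl

/-- shifting -/
lemma orb_add (d : ℕ → ℕ) (p : P3) (n m : ℕ) :
    orb d p (n + m) = orb (fun k => d (n + k)) (orb d p n) m := by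
  induction m with
  | zero => rfl
  | succ m ih =>
    show stepT (d (n + m)) (orb d p (n + m)) = _
    rw [ih]; rfl

lemma dorb_add (d : ℕ → ℕ) (p u : P3) (n m : ℕ) :
    dorb d p u (n + m) = dorb (fun k => d (n + k)) (orb d p n) (dorb d p u n) m := by
  induction m with
  | zero => rfl
  | succ m ih =>
    show dS (dRk (d (n + m)) (orb d p (n + m)) (dorb d p u (n + m))) = _
    rw [ih, orb_add]; rfl

/-! ### words -/

lemma run_rep (k : ℕ) (p : P3) : run (List.replicate k Mv.R) p = stepR^[k] p := by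
  induction k generalizing p with
  | zero => rfl
  | succ k ih => rw [List.replicate_succ, run, ih]; rfl

lemma drun_rep (k : ℕ) (p u : P3) : drun (List.replicate k Mv.R) p u = dRk k p u := by
  induction k generalizing p u with
  | zero => rfl
  | succ k ih =>
    rw [List.replicate_succ', drun_append, ih, run_rep]; rfl

/-- the word of `orb d · m` -/
def Wd (d : ℕ → ℕ) : ℕ → List Mv
  | 0 => []
  | m + 1 => Wd d m ++ (List.replicate (d m) Mv.R ++ [Mv.S])

lemma run_Wd (d : ℕ → ℕ) (p : P3) (m : ℕ) : run (Wd d m) p = orb d p m := by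
  induction m with
  | zero => rfl
  | succ m ih => rw [Wd, run_append, run_append, ih, run_rep]; rfl

lemma drun_Wd (d : ℕ → ℕ) (p u : P3) (m : ℕ) : drun (Wd d m) p u = dorb d p u m := by
  induction m with
  | zero => rfl
  | succ m ih =>
    rw [Wd, drun_append, drun_append, ih, drun_rep, run_rep, run_Wd]; rfl

lemma Wd_head (d : ℕ → ℕ) (hd : ∀ k, 1 ≤ d k) (m : ℕ) : ∃ w, Wd d (m + 1) = Mv.R :: w := by
  induction m with
  | zero =>
    obtain ⟨k, hk⟩ : ∃ k, d 0 = k + 1 := ⟨d 0 - 1, by have := hd 0; omega⟩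
    refine ⟨List.replicate k Mv.R ++ [Mv.S], ?_⟩
    rw [Wd, Wd, hk, List.replicate_succ]; rfl
  | succ m ih =>
    obtain ⟨w, hw⟩ := ih
    refine ⟨w ++ (List.replicate (d (m+1)) Mv.R ++ [Mv.S]), ?_⟩
    rw [Wd, hw]; rfl

/-- level functions as third traces of words which start with `R` -/
lemma yword (d : ℕ → ℕ) (hd : ∀ k, 1 ≤ d k) (m : ℕ) :
    ∃ w, (∀ p, (orb d p (m + 2)).y = (run w (stepR p)).x) ∧
      ∀ p u, (dorb d p u (m + 2)).y = (drun w (stepR p) (dR p u)).x := by
  obtain ⟨w, hw⟩ := Wd_head d hd m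
  obtain ⟨k, hk⟩ : ∃ k, d (m + 1) = k + 1 := ⟨d (m + 1) - 1, by have := hd (m + 1); omega⟩
  refine ⟨w ++ List.replicate k Mv.R, fun p => ?_, fun p u => ?_⟩
  · have e : run w (stepR p) = orb d p (m + 1) := by rw [← run_Wd, hw]; rfl
    rw [run_append, e, run_rep, iter_x, orb_succ_y, hk]; rfl
  · have e : run w (stepR p) = orb d p (m + 1) := by rw [← run_Wd, hw]; rfl
    have e' : drun w (stepR p) (dR p u) = dorb d p u (m + 1) := by rw [← drun_Wd, hw]; rfl
    rw [drun_append, e', e, drun_rep]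
    show (dRk (d (m + 1)) (orb d p (m + 1)) (dorb d p u (m + 1))).z = _
    rw [hk]; rfl

/-- **Comparison of directions for level functions.** -/
theorem cmpY {δ κ : ℝ} (hδ : δ ≠ 0) (hκ0 : 0 ≤ κ) (hκ : κ < 1 + δ ^ 2) {d : ℕ → ℕ}
    (hd : ∀ k, 1 ≤ d k) {m : ℕ} (hm : 2 ≤ m) {p : P3} (hS : OnS δ p) (hz : p.z ^ 2 ≤ κ)
    (hy : (orb d p m).y ^ 2 < 1 + δ ^ 2) :
    |(dorb d p (fH p) m).y| ≤ N0 δ κ * |Vy d m p| ∧
    |(dorb d p (fK p) m).y| ≤ N0 δ κ * |Vy d m p| ∧ Vy d m p ≠ 0 := by
  obtain ⟨m, rfl⟩ : ∃ k, m = k + 2 := ⟨m - 2, by omega⟩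
  obtain ⟨w, h1, h2⟩ := yword d hd m
  rw [h1] at hy
  have := cmp hδ hκ0 hκ hS hz w hy
  unfold Vy
  rw [h2, h2, h2]
  exact this

/-! ### linearity -/

lemma dRk_lc (k : ℕ) (p : P3) (N : ℝ) (u : P3) (M : ℝ) (v : P3) :
    dRk k p (lc N u M v) = lc N (dRk k p u) M (dRk k p v) := by
  rw [← drun_rep, ← drun_rep, ← drun_rep, drun_lc]

lemma dorb_lc (d : ℕ → ℕ) (p : P3) (N : ℝ) (u : P3) (M : ℝ) (v : P3) (m : ℕ) :
    dorb d p (lc N u M v) m = lc N (dorb d p u m) M (dorb d p v m) := by
  rw [← drun_Wd, ← drun_Wd, ← drun_Wd, drun_lc]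

/-! ### differentiation -/

lemma HasDer.R {p : ℝ → P3} {u : P3} {t : ℝ} (h : HasDer p u t) :
    HasDer (fun s => stepR (p s)) (dR (p t) u) t := by
  obtain ⟨h1, h2, h3⟩ := h
  refine ⟨h3, h2, ?_⟩
  have h4 := ((h3.const_mul 2).mul h2).sub h1
  have e : (dR (p t) u).x = 2 * u.x * (p t).y + 2 * (p t).x * u.y - u.z := by
    simp only [dR]; ring
  rw [e]
  exact h4

lemma HasDer.S {p : ℝ → P3} {u : P3} {t : ℝ} (h : HasDer p u t) :
    HasDer (fun s => stepS (p s)) (dS u) t := ⟨h.2.1, h.1, h.2.2⟩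

lemma HasDer.iter {p : ℝ → P3} {u : P3} {t : ℝ} (h : HasDer p u t) (k : ℕ) :
    HasDer (fun s => stepR^[k] (p s)) (dRk k (p t) u) t := by
  induction k with
  | zero => exact h
  | succ k ih =>
    have h2 := ih.R
    have e : (fun s => stepR^[k + 1] (p s)) = fun s => stepR (stepR^[k] (p s)) := by
      funext s; rw [Function.iterate_succ_apply']
    rw [e]
    exact h2

lemma HasDer.orb {p : ℝ → P3} {u : P3} {t : ℝ} (h : HasDer p u t) (d : ℕ → ℕ) (m : ℕ) :
    HasDer (fun s => orb d (p s) m) (dorb d (p t) u m) t := by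
  induction m with
  | zero => exact h
  | succ m ih => exact (ih.iter (d m)).S

lemma hasDer_lin (lam E : ℝ) : HasDer (lin lam) ⟨0, 1 / 2, 1 / 2⟩ E := by
  refine ⟨?_, ?_, ?_⟩
  · exact hasDerivAt_const _ _
  · exact (hasDerivAt_id E).div_const 2
  · exact ((hasDerivAt_id E).sub_const lam).div_const 2

/-- the direction of the starting line -/
lemma fV_lin {lam : ℝ} (E : ℝ) :
    fV (lin lam E) = lc (-lam) ⟨0, 1 / 2, 1 / 2⟩ 0 ⟨0, 1 / 2, 1 / 2⟩ := by
  unfold fV lin gX gB lc; ext <;> simp only <;> ring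

/-- the derivative of a level function along the starting line -/
lemma hasDeriv_level {lam : ℝ} (h : lam ≠ 0) (d : ℕ → ℕ) (m : ℕ) (E : ℝ) :
    HasDerivAt (fun e => (orb d (lin lam e) m).y) (-(Vy d m (lin lam E)) / lam) E := by
  have h1 := ((hasDer_lin lam E).orb d m).2.1
  convert h1 using 1
  unfold Vy
  rw [fV_lin, dorb_lc]
  simp only [lc]
  field_simp
  ring

/-! ### continuity -/

/-- the point as a vector, for topological purposes -/
def toL (p : P3) : ℝ × ℝ × ℝ := (p.z, p.y, p.x)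
def ofL (v : ℝ × ℝ × ℝ) : P3 := ⟨v.1, v.2.1, v.2.2⟩

@[simp] lemma ofL_toL (p : P3) : ofL (toL p) = p := rfl
@[simp] lemma toL_ofL (v : ℝ × ℝ × ℝ) : toL (ofL v) = v := rfl

lemma cont_stepR : Continuous fun v => toL (stepR (ofL v)) := by
  unfold toL stepR ofL; simp only; fun_prop

lemma cont_stepS : Continuous fun v => toL (stepS (ofL v)) := by
  unfold toL stepS ofL; simp only; fun_prop

lemma cont_iter (k : ℕ) : Continuous fun v => toL (stepR^[k] (ofL v)) := by
  induction k with
  | zero => exact continuous_id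
  | succ k ih =>
    have := cont_stepR.comp ih
    simp only [Function.comp_def, ofL_toL, ← Function.iterate_succ_apply' stepR] at this
    exact this

lemma cont_orb (d : ℕ → ℕ) (m : ℕ) : Continuous fun v => toL (orb d (ofL v) m) := by
  induction m with
  | zero => exact continuous_id
  | succ m ih =>
    have := cont_stepS.comp ((cont_iter (d m)).comp ih)
    simp only [Function.comp_def, ofL_toL] at this
    exact this

lemma cont_dR : Continuous fun v : (ℝ × ℝ × ℝ) × (ℝ × ℝ × ℝ) => toL (dR (ofL v.1) (ofL v.2)) := by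
  unfold toL dR ofL; simp only; fun_prop

lemma cont_dRk (k : ℕ) :
    Continuous fun v : (ℝ × ℝ × ℝ) × (ℝ × ℝ × ℝ) => toL (dRk k (ofL v.1) (ofL v.2)) := by
  induction k with
  | zero => exact continuous_snd
  | succ k ih =>
    have := cont_dR.comp (((cont_iter k).comp continuous_fst).prodMk ih)
    simp only [Function.comp_def, ofL_toL] at this
    exact this

lemma cont_dorb (d : ℕ → ℕ) (m : ℕ) :
    Continuous fun v : (ℝ × ℝ × ℝ) × (ℝ × ℝ × ℝ) => toL (dorb d (ofL v.1) (ofL v.2) m) := by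
  induction m with
  | zero => exact continuous_snd
  | succ m ih =>
    have h1 := (cont_dRk (d m)).comp (((cont_orb d m).comp continuous_fst).prodMk ih)
    simp only [Function.comp_def, ofL_toL] at h1
    have h2 : Continuous fun v : ℝ × ℝ × ℝ => toL (dS (ofL v)) := by
      unfold toL dS ofL; simp only; fun_prop
    have := h2.comp h1
    simp only [Function.comp_def, ofL_toL] at this
    exact this

lemma cont_fV : Continuous fun v => toL (fV (ofL v)) := by
  unfold toL fV gX gB ofL; simp only; fun_prop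
lemma cont_fH : Continuous fun v => toL (fH (ofL v)) := by
  unfold toL fH gX gA ofL; simp only; fun_prop
lemma cont_fK : Continuous fun v => toL (fK (ofL v)) := by
  unfold toL fK gB gA ofL; simp only; fun_prop

lemma cont_toL_y {X : Type*} [TopologicalSpace X] {f : X → P3} (h : Continuous fun v => toL (f v)) :
    Continuous fun v => (f v).y := continuous_fst.comp (continuous_snd.comp h)
lemma cont_toL_z {X : Type*} [TopologicalSpace X] {f : X → P3} (h : Continuous fun v => toL (f v)) :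
    Continuous fun v => (f v).z := continuous_fst.comp h
lemma cont_toL_x {X : Type*} [TopologicalSpace X] {f : X → P3} (h : Continuous fun v => toL (f v)) :
    Continuous fun v => (f v).x := continuous_snd.comp (continuous_snd.comp h)

lemma cont_LF (d : ℕ → ℕ) (m : ℕ) : Continuous fun v => toL (LF d m (ofL v)) := by
  have h1 := cont_toL_y ((cont_dorb d m).comp (continuous_id.prodMk cont_fV))
  have h2 := cont_toL_y ((cont_dorb d m).comp (continuous_id.prodMk cont_fH))
  have h3 := cont_toL_y ((cont_dorb d m).comp (continuous_id.prodMk cont_fK))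
  simp only [Function.comp_def, ofL_toL, id] at h1 h2 h3
  exact h1.prodMk (h2.neg.prodMk h3.neg)

lemma cont_Vy (d : ℕ → ℕ) (m : ℕ) : Continuous fun v => Vy d m (ofL v) := by
  have h1 := cont_toL_y ((cont_dorb d m).comp (continuous_id.prodMk cont_fV))
  simp only [Function.comp_def, ofL_toL, id] at h1
  exact h1

lemma cont_lin (lam : ℝ) : Continuous fun E => toL (lin lam E) := by
  unfold toL lin; simp only; fun_prop

lemma HasDer.cont {p : ℝ → P3} {u : P3} {t : ℝ} (h : HasDer p u t) :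
    ContinuousAt (fun s => toL (p s)) t :=
  h.1.continuousAt.prodMk (h.2.1.continuousAt.prodMk h.2.2.continuousAt)

end Pool.Agent.W811.Stu
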