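import Mathlib
import Pool.Agent.W811.Stu.Base

/-!
Statements of the independent parts of the proof of `Key`.
-/

set_option autoImplicit false

open MeasureTheory Filter Polynomial NNReal

namespace Pool.Agent.W811.Stu

/-- part of the surface over `|z| ≤ 1` on which the level function is at most `κ` -/
def Reg (δ κ : ℝ) (d : ℕ → ℕ) (m : ℕ) : Set (ℝ × ℝ × ℝ) :=
  {v | OnS δ (ofL v) ∧ |(ofL v).z| ≤ 1 ∧ |(orb d (ofL v) m).y| ≤ κ}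

/-- `g` is (a piece of) a leaf of level `m` over `|z| ≤ 1` -/
structure IsLeaf (δ : ℝ) (d : ℕ → ℕ) (m : ℕ) (g : ℝ → P3) (s t : ℝ) : Prop where
  der : ∀ τ ∈ Set.uIcc s t, HasDer g (LF d m (g τ)) τ
  onS : ∀ τ ∈ Set.uIcc s t, OnS δ (g τ)
  zz : ∀ τ ∈ Set.uIcc s t, |(g τ).z| ≤ 1
  lev : ∀ τ ∈ Set.uIcc s t, (orb d (g τ) m).y = (orb d (g s) m).y

/-- joined by a leaf of level `m` -/
def Joined (δ : ℝ) (d : ℕ → ℕ) (m : ℕ) (p q : P3) : Prop :=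
  ∃ (g : ℝ → P3) (s t : ℝ), IsLeaf δ d m g s t ∧ g s = p ∧ g t = q

/-! ### geometry of leaves -/

/-- the field `LF d m` is the pull back of the field `fH` -/
def TEquiv : Prop := ∀ (d : ℕ → ℕ) (m : ℕ), ∃ s : ℝ, (s = 1 ∨ s = -1) ∧ ∀ p : P3,
  dorb d p (LF d m p) m = lc s (fH (orb d p m)) 0 (fH (orb d p m))

/-- the flow of the field `LF d m` -/
def TFlow : Prop := ∀ (d : ℕ → ℕ) (m : ℕ), ∃ Φ : ℝ → P3 → P3,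
  (∀ p, Φ 0 p = p) ∧ (∀ p t, HasDer (fun s => Φ s p) (LF d m (Φ t p)) t) ∧
  (∀ δ p t, OnS δ p → OnS δ (Φ t p)) ∧ (∀ p t, (orb d (Φ t p) m).y = (orb d p m).y) ∧
  Continuous fun v : ℝ × (ℝ × ℝ × ℝ) => toL (Φ v.1 (ofL v.2))

/-- existence of complete leaves over `|z| ≤ 1` -/
def TLeafEx : Prop := ∀ δ : ℝ, δ ≠ 0 → ∀ d : ℕ → ℕ, (∀ k, 1 ≤ d k) → ∀ m, 2 ≤ m → ∀ p : P3,
  OnS δ p → |p.z| ≤ 1 → |(orb d p m).y| < cc δ → ∃ (g : ℝ → P3) (s t : ℝ), IsLeaf δ d m g s t ∧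
    0 ∈ Set.uIcc s t ∧ g 0 = p ∧ (g s).z = -1 ∧ (g t).z = 1

/-- sliding along the leaves to the starting line -/
def TExit : Prop := ∀ lam : ℝ, lam ≠ 0 → ∀ d : ℕ → ℕ, (∀ k, 1 ≤ d k) → ∀ m, 2 ≤ m →
  ∀ κ < cc (lam / 2), ∀ (E0 : ℝ) (q : P3),
    JoinedIn (Reg (lam / 2) κ d m) (toL (lin lam E0)) (toL q) →
    ∃ E, Joined (lam / 2) d m q (lin lam E) ∧
      (∀ e ∈ Set.uIcc E0 E, |(orb d (lin lam e) m).y| ≤ κ) ∧ (∀ E1, q = lin lam E1 → E = E1)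

/-! ### polynomials -/

/-- bounded distortion of polynomials which satisfy the Laguerre inequality -/
def TPD : Prop := ∀ (F : ℝ[X]) (c κ : ℝ), 0 < κ → κ < c →
  (∀ E : ℝ, |F.eval E| < c → F.derivative.eval E ≠ 0) →
  (∀ E : ℝ, |F.eval E| < c →
      |F.derivative.derivative.eval E| * (c - |F.eval E|) ≤ (F.derivative.eval E) ^ 2) →
  ∀ a b : ℝ, (∀ e ∈ Set.uIcc a b, |F.eval e| ≤ κ) →
    |F.derivative.eval a| ≤ Real.exp (2 * κ / (c - κ)) * |F.derivative.eval b|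

/-- trace functions along the starting line: nonvanishing derivative, distortion, bands -/
def TDist : Prop := ∀ lam : ℝ, lam ≠ 0 → ∀ d : ℕ → ℕ, (∀ k, 1 ≤ d k) → ∀ m,
  (∀ E, |(orb d (lin lam E) m).y| < cc (lam / 2) → Vy d m (lin lam E) ≠ 0) ∧
  ∀ κ, 0 < κ → κ < cc (lam / 2) →
  (∀ E E', (∀ e ∈ Set.uIcc E E', |(orb d (lin lam e) m).y| ≤ κ) →
    |Vy d m (lin lam E)| ≤ Real.exp (2 * κ / (cc (lam / 2) - κ)) * |Vy d m (lin lam E')| ∧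
    |E - E'| * |Vy d m (lin lam E)| ≤ 2 * κ * |lam| * Real.exp (2 * κ / (cc (lam / 2) - κ))) ∧
  (∀ E, |(orb d (lin lam E) m).y| ≤ κ → ∃ u v, u ≤ E ∧ E ≤ v ∧ u < v ∧
    (∀ e ∈ Set.Icc u v, |(orb d (lin lam e) m).y| ≤ κ) ∧
    (((orb d (lin lam u) m).y = -κ ∧ (orb d (lin lam v) m).y = κ) ∨
      ((orb d (lin lam u) m).y = κ ∧ (orb d (lin lam v) m).y = -κ)))

/-- bounded distortion along the leaves on which the level function is `1` -/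
def TEdge : Prop := ∀ lam : ℝ, lam ≠ 0 → ∀ d : ℕ → ℕ, (∀ k, 1 ≤ d k) → ∀ m, 2 ≤ m →
  ∀ (q : P3) (E : ℝ), Joined (lam / 2) d m q (lin lam E) → (orb d q m).y = 1 →
    |Vy d m q| ≤ Real.exp (2 / (cc (lam / 2) - 1)) * |Vy d m (lin lam E)|

/-! ### the cone part -/

/-- lower bound of the derivatives -/
def TLB : Prop := ∀ δ κ : ℝ, δ ≠ 0 → 0 ≤ κ → κ < cc δ → ∃ c0 : ℝ, 0 < c0 ∧ ∀ d : ℕ → ℕ,
  (∀ k, 1 ≤ d k) → ∀ m, 2 ≤ m → ∀ p : P3, OnS δ p → |p.z| ≤ 1 → |(orb d p m).y| ≤ κ →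
    c0 * 2 ^ (m / 2) ≤ |Vy d m p|

/-- small variation of level functions along the leaves of higher levels -/
def TDrift : Prop := ∀ δ : ℝ, δ ≠ 0 → ∃ C : ℝ, 0 < C ∧ ∀ d : ℕ → ℕ, (∀ k, 1 ≤ d k) →
  ∀ j M, 2 ≤ j → j + 3 ≤ M → ∀ p : P3, OnS δ p → |p.z| ≤ 1 → |(orb d p M).y| < cc δ →
    |(orb d p j).y| < cc δ →
    |(dorb d p (LF d M p) j).y| * 2 ^ (j / 2) ≤ C * (1 + |(orb d p j).z|) * |(LF d M p).z|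

/-- twist condition -/
def TTwist : Prop := ∀ lam : ℝ, 0 < lam → ∀ d : ℕ → ℕ, (∀ k, 1 ≤ d k) → ∀ (n : ℕ) (E : ℝ),
  |(orb d (lin lam E) n).y| < 1 →
  (dorb d (lin lam E) ⟨0, 1 / 2, 1 / 2⟩ n).y ≠ 0 ∧
  -(lam / 2 * |(orb d (lin lam E) n).z| * (dorb d (lin lam E) ⟨0, 1 / 2, 1 / 2⟩ n).y ^ 2) ≤
    ((1 - (orb d (lin lam E) n).y ^ 2) *
        ((dorb d (lin lam E) ⟨0, 1 / 2, 1 / 2⟩ n).x * (orb d (lin lam E) n).z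
          - (dorb d (lin lam E) ⟨0, 1 / 2, 1 / 2⟩ n).z * (orb d (lin lam E) n).x)
      - (dorb d (lin lam E) ⟨0, 1 / 2, 1 / 2⟩ n).y * (orb d (lin lam E) n).z
          * gA (orb d (lin lam E) n)) * (dorb d (lin lam E) ⟨0, 1 / 2, 1 / 2⟩ n).y

/-- comparison of the components of push forwards -/
def TRev : Prop := ∀ δ κ : ℝ, δ ≠ 0 → 0 ≤ κ → κ < 1 + δ ^ 2 → ∀ (w : List Mv) (p q v : P3),
  OnS δ p → p.z ^ 2 < 1 + δ ^ 2 → q = run (Mv.R :: (w ++ [Mv.R])) p →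
  v = drun (Mv.R :: (w ++ [Mv.R])) p (fV p) → q.z ^ 2 ≤ κ →
    |v.y| ≤ N0 δ κ * |v.z| ∧
    |v.x| ≤ (2 * |q.y| + 2 * |q.z| * N0 δ κ + N0 δ κ) * |v.z|

/-! ### elementary parts -/

/-- polynomial growth along elliptic runs -/
def TEll : Prop := ∀ δ C : ℝ, 0 ≤ C → ∃ C' : ℝ, 0 < C' ∧ ∀ (p u : P3) (k : ℕ) (U : ℝ),
  OnS δ p → |p.y| ≤ 1 → |p.z| ≤ C → |p.x| ≤ C → |u.z| ≤ U → |u.y| ≤ U → |u.x| ≤ U →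
    |(dRk k p u).z| ≤ C' * (1 + k) ^ 3 * U ∧ |(dRk k p u).y| ≤ C' * (1 + k) ^ 3 * U ∧
    |(dRk k p u).x| ≤ C' * (1 + k) ^ 3 * U

/-- hyperbolic runs -/
def THyp : Prop := ∀ δ κ y0 : ℝ, δ ≠ 0 → 0 ≤ κ → y0 < cc δ → ∃ K : ℕ, ∀ (p : P3) (k : ℕ),
  OnS δ p → 1 < |p.y| → |p.z| ≤ κ → |(stepR^[k] p).z| ≤ κ →
    (∀ i ≤ k, |(stepR^[i] p).z| ≤ κ) ∧ (K ≤ k → y0 ≤ |p.y|)

/-- bounds for finite orbits -/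
def TBddL : Prop := ∀ δ : ℝ, δ ≠ 0 → ∃ C : ℝ, 1 ≤ C ∧ ∀ d : ℕ → ℕ, (∀ k, 1 ≤ d k) → ∀ p : P3,
  OnS δ p → |p.z| ≤ 1 → ∀ M, |(orb d p M).y| ≤ 1 → ∀ j < M,
    (|(orb d p j).y| ≤ 1 ∨ |(orb d p (j + 1)).y| ≤ 1) ∧
    |(orb d p j).z| ≤ C ∧ |(orb d p j).y| ≤ C ∧ |(orb d p j).x| ≤ C

/-- ratios of successive derivatives -/
def TRatio : Prop := ∀ lam : ℝ, 0 < lam → ∀ K0 : ℕ, ∃ C : ℝ, 1 ≤ C ∧ ∀ d : ℕ → ℕ,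
  (∀ k, 1 ≤ d k) → ∀ E ∈ Sp lam d, ∀ j, 2 ≤ j →
  (|(orb d (lin lam E) j).y| ≤ 1 →
    |Vy d (j + 1) (lin lam E)| ≤ C * (1 + d j) ^ 3 * |Vy d j (lin lam E)| ∧
    ∀ k ≤ K0, |Vt d (j + 1) k (lin lam E)| ≤ C * (1 + d j) ^ 3 * |Vy d j (lin lam E)|) ∧
  (∀ k, 1 ≤ k → |tf d j k (lin lam E)| ≤ 1 →
    |Vt d j (k + 1) (lin lam E)| ≤ C * |Vt d j k (lin lam E)|)

/-! ### control along leaves -/

/-- level functions stay bounded along leaves of higher level -/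
def TLeafC : Prop := ∀ δ κ κ' : ℝ, δ ≠ 0 → 0 ≤ κ → κ < κ' → κ' < cc δ → ∃ j0 : ℕ, 2 ≤ j0 ∧
  ∀ d : ℕ → ℕ, (∀ k, 1 ≤ d k) → ∀ (M : ℕ) (g : ℝ → P3) (s t : ℝ), IsLeaf δ d M g s t →
    |(orb d (g s) M).y| ≤ 1 → ∀ j, j0 ≤ j → j + 3 ≤ M → |(orb d (g s) j).y| ≤ κ →
    ∀ τ ∈ Set.uIcc s t, |(orb d (g τ) j).y| ≤ κ'

/-- control of long hyperbolic runs along leaves -/
def TLeafT : Prop := ∀ δ κ1 κ3 : ℝ, δ ≠ 0 → 1 < κ1 → κ1 < κ3 → κ3 < cc δ → ∃ K0 j0 : ℕ,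
  1 ≤ K0 ∧ 2 ≤ j0 ∧
  ∀ d : ℕ → ℕ, (∀ k, 1 ≤ d k) → ∀ (M : ℕ) (g : ℝ → P3) (s t : ℝ), IsLeaf δ d M g s t →
    |(orb d (g s) M).y| ≤ 1 → ∀ j, j0 ≤ j → j + 4 ≤ M → 1 < |(orb d (g s) j).y| → K0 ≤ d j →
    ∀ τ ∈ Set.uIcc s t, κ3 ≤ |(orb d (g τ) j).y| ∧ ∀ k ≤ d j, |tf d j k (g τ)| ≤ κ1

/-! ### the holonomy -/

/-- the remaining digits -/
def sh (d : ℕ → ℕ) (n : ℕ) : ℕ → ℕ := fun k => d (n + 1 + k)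

/-- the curve -/
noncomputable def Ga (lam : ℝ) (d : ℕ → ℕ) (n : ℕ) (E : ℝ) : P3 := orb d (lin lam E) (n + 1)

/-- the digits `d 0, ..., d n` followed by `b` -/
def cat (d : ℕ → ℕ) (n : ℕ) (b : ℕ → ℕ) : ℕ → ℕ := fun k => if k ≤ n then d k else b (k - (n + 1))

/-- the holonomy relation -/
def Hol (lam : ℝ) (d : ℕ → ℕ) (n : ℕ) (e0 e1 : ℝ) (E0 E1 : ℝ) : Prop :=
  ∀ ε > 0, ∀ N : ℕ, ∃ M ≥ N, ∃ E ∈ Set.Icc e0 e1, |E - E1| < ε ∧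
    |(orb (sh d n) (lin lam E0) M).y| ≤ 1 ∧
    Joined (lam / 2) (sh d n) M (lin lam E0) (Ga lam d n E)

/-- the interval of parameters -/
def Win (lam : ℝ) (d : ℕ → ℕ) (n : ℕ) (e0 e1 : ℝ) : Prop :=
  e0 < e1 ∧ ∀ e ∈ Set.Icc e0 e1, |(orb d (lin lam e) n).y| ≤ 1 / 2

/-- existence of the holonomy -/
def THolEx : Prop := ∀ lam : ℝ, 0 < lam → ∃ A : ℕ, ∀ d : ℕ → ℕ, (∀ k, 1 ≤ d k) → ∀ n, A ≤ d n →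
  ∃ e0 e1, Win lam d n e0 e1 ∧ ∀ E0 ∈ Sp lam (sh d n), ∃ E1 ∈ Sp lam d, E1 ∈ Set.Icc e0 e1 ∧
    Hol lam d n e0 e1 E0 E1

/-- the level function `(orb b · m).y` is at most `κ` along leaves of high levels which start at
the point `lin lam E0` -/
def Ctl (lam : ℝ) (β : ℕ → ℕ) (E0 : ℝ) (b : ℕ → ℕ) (m : ℕ) (κ : ℝ) : Prop :=
  ∃ N0 : ℕ, ∀ M ≥ N0, |(orb β (lin lam E0) M).y| ≤ 1 → ∀ (g : ℝ → P3) (s t : ℝ),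
    IsLeaf (lam / 2) β M g s t → g s = lin lam E0 →
    ∀ τ ∈ Set.uIcc s t, |(orb b (g τ) m).y| ≤ κ

/-- joining the two ends of the holonomy -/
def TJoin : Prop := ∀ lam : ℝ, lam ≠ 0 → ∀ (d : ℕ → ℕ) (n : ℕ), (∀ k, 1 ≤ d k) →
  ∀ e0 e1, Win lam d n e0 e1 → ∀ E0 E1, Hol lam d n e0 e1 E0 E1 →
    E1 ∈ Set.Icc e0 e1 ∧
    (∀ (b : ℕ → ℕ) (m : ℕ) (κ : ℝ), Ctl lam (sh d n) E0 b m κ →
      |(orb b (Ga lam d n E1) m).y| ≤ κ ∧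
      ∀ κ' > κ, JoinedIn (Reg (lam / 2) κ' b m) (toL (lin lam E0)) (toL (Ga lam d n E1))) ∧
    (∀ (b : ℕ → ℕ) (m : ℕ) (κ : ℝ) (E E' : ℝ), E ∈ Set.Icc e0 e1 → E' ∈ Set.Icc e0 e1 →
      (∀ e ∈ Set.uIcc E E', |(orb b (Ga lam d n e) m).y| ≤ κ) →
      JoinedIn (Reg (lam / 2) κ b m) (toL (Ga lam d n E)) (toL (Ga lam d n E')))

/-- joining, when the level function is controlled at the second end -/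
def TJoin2 : Prop := ∀ lam κ κ' : ℝ, lam ≠ 0 → 0 ≤ κ → κ < κ' → κ' < cc (lam / 2) →
  ∃ j0 : ℕ, 2 ≤ j0 ∧ ∀ (d : ℕ → ℕ) (n : ℕ), (∀ k, 1 ≤ d k) →
  ∀ e0 e1, Win lam d n e0 e1 → ∀ E0 E1, Hol lam d n e0 e1 E0 E1 →
    ∀ j, j0 ≤ j → |(orb (sh d n) (Ga lam d n E1) j).y| ≤ κ →
      JoinedIn (Reg (lam / 2) κ' (sh d n) j) (toL (lin lam E0)) (toL (Ga lam d n E1))

/-- comparison of the derivatives at the two ends of the holonomy -/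
def TComp : Prop := ∀ lam κ1 κ : ℝ, 0 < lam → 1 < κ1 → κ1 < κ → κ < cc (lam / 2) →
  ∀ (d : ℕ → ℕ) (n : ℕ), (∀ k, 1 ≤ d k) → ∀ e0 e1, Win lam d n e0 e1 →
  ∃ (m0 : ℕ) (C : ℝ), 2 ≤ m0 ∧ 0 < C ∧ ∀ E0 E1, Hol lam d n e0 e1 E0 E1 →
    ∀ (b : ℕ → ℕ) (m : ℕ), (∀ k, 1 ≤ b k) → m0 ≤ m → Ctl lam (sh d n) E0 b m κ1 →
    ∀ E', (∀ e ∈ Set.uIcc E1 E', |(orb b (Ga lam d n e) m).y| ≤ κ) →
      |Vy (cat d n b) (n + 1 + m) (lin lam E')| ≤ C * |Vy b m (lin lam E0)|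

/-- regularity of the holonomy -/
def THol : Prop := ∀ lam : ℝ, 0 < lam → ∀ (d : ℕ → ℕ) (n : ℕ), (∀ k, 1 ≤ d k) →
  (∀ᶠ k in atTop, d k ≤ (k + 1) ^ 2) → ∀ e0 e1, Win lam d n e0 e1 → ∀ r : ℝ, 0 < r → r < 1 →
  ∃ C : ℝ, 0 < C ∧ ∀ E0 ∈ Sp lam (sh d n), ∀ E0' ∈ Sp lam (sh d n), ∀ E1 E1' : ℝ,
    Hol lam d n e0 e1 E0 E1 → Hol lam d n e0 e1 E0' E1' → |E0 - E0'| ≤ C * |E1 - E1'| ^ r

end Pool.Agent.W811.Stu
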