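import Mathlib
import Pool.Agent.W811.Stu.Stmts3

/-!
Statements of the parts of the proof of `THol`.
-/

set_option autoImplicit false

open MeasureTheory Filter Polynomial NNReal

namespace Pool.Agent.W811.Stu

/-- levels used in the comparison of distances: `Y j` is the function `y_j`, `T j k` is `t_k` at
stage `j` -/
inductive St | Y (j : ℕ) | T (j k : ℕ)

def St.dg (β : ℕ → ℕ) : St → (ℕ → ℕ)
  | .Y _ => β
  | .T j k => Function.update β j k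

def St.lv : St → ℕ
  | .Y j => j
  | .T j _ => j + 1

/-- the level function of a state -/
def St.fn (β : ℕ → ℕ) (s : St) (p : P3) : ℝ := (orb (s.dg β) p s.lv).y

/-- ordering of the states -/
noncomputable def St.mu (β : ℕ → ℕ) : St → ℝ
  | .Y j => j
  | .T j k => j + (k : ℝ) / (β j + 1)

/-- the state can be used at the point `lin lam E0` -/
def St.Valid (lam : ℝ) (β : ℕ → ℕ) (E0 : ℝ) (j0 K0 : ℕ) : St → Prop
  | .Y j => j0 ≤ j ∧ |(orb β (lin lam E0) j).y| ≤ 1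
  | .T j k => j0 + 1 ≤ j ∧ 1 < |(orb β (lin lam E0) j).y| ∧ K0 ≤ k ∧ k < β j

/-- intermediate constants between `1` and `c` -/
noncomputable def kap (lam : ℝ) (i : ℝ) : ℝ := 1 + i * (cc (lam / 2) - 1) / 4

/-- the level functions are small on the segment -/
def St.Ok (lam : ℝ) (d : ℕ → ℕ) (n : ℕ) (E1 E1' : ℝ) : St → Prop
  | .Y j => ∀ e ∈ Set.uIcc E1 E1', |(orb (sh d n) (Ga lam d n e) j).y| ≤ kap lam 2
  | .T j k => ∀ e ∈ Set.uIcc E1 E1', |tf (sh d n) j k (Ga lam d n e)| ≤ kap lam 2 ∧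
      |(orb (sh d n) (Ga lam d n e) (j - 1)).y| ≤ kap lam 2

/-- derivative of the level function of the state -/
noncomputable def St.D (lam : ℝ) (β : ℕ → ℕ) (E0 : ℝ) (s : St) : ℝ := |Vy (s.dg β) s.lv (lin lam E0)|

/-- (A) association -/
def THA : Prop := ∀ lam : ℝ, 0 < lam → ∃ (j0 K0 : ℕ) (CA : ℝ), 2 ≤ j0 ∧ 1 ≤ K0 ∧ 0 < CA ∧
  ∀ (d : ℕ → ℕ) (n : ℕ), (∀ k, 1 ≤ d k) → ∀ e0 e1, Win lam d n e0 e1 →
  ∀ E0 ∈ Sp lam (sh d n), ∀ E0' ∈ Sp lam (sh d n), ∀ E1 E1' : ℝ,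
    Hol lam d n e0 e1 E0 E1 → Hol lam d n e0 e1 E0' E1' →
    ∀ s : St, s.Valid lam (sh d n) E0 j0 K0 → s.Ok lam d n E1 E1' →
      |E0 - E0'| * s.D lam (sh d n) E0 ≤ CA

/-- (B) a level function which is large somewhere on the segment -/
def THB : Prop := ∀ lam : ℝ, 0 < lam → ∀ (d : ℕ → ℕ) (n : ℕ), (∀ k, 1 ≤ d k) →
  ∀ e0 e1, Win lam d n e0 e1 → ∃ (j0 K0 : ℕ) (cB : ℝ), 2 ≤ j0 ∧ 1 ≤ K0 ∧ 0 < cB ∧
  ∀ E0 ∈ Sp lam (sh d n), ∀ E1 : ℝ, Hol lam d n e0 e1 E0 E1 →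
    ∀ s : St, s.Valid lam (sh d n) E0 j0 K0 → ∀ e : ℝ, kap lam 2 < |s.fn (sh d n) (Ga lam d n e)| →
      cB ≤ |E1 - e| * s.D lam (sh d n) E0

/-- (N) the next state -/
def THN : Prop := ∀ lam : ℝ, 0 < lam → ∀ K0 : ℕ, 1 ≤ K0 → ∃ Cr : ℝ, 1 ≤ Cr ∧
  ∀ (d : ℕ → ℕ) (n : ℕ), (∀ k, 1 ≤ d k) → ∀ E0 ∈ Sp lam (sh d n), ∀ j0, 2 ≤ j0 →
  ∀ s : St, s.Valid lam (sh d n) E0 j0 K0 → ∃ s' : St, s'.Valid lam (sh d n) E0 j0 K0 ∧
    s.mu (sh d n) < s'.mu (sh d n) ∧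
    s'.D lam (sh d n) E0 ≤ Cr * (1 + (sh d n) s.lv) ^ 3 * s.D lam (sh d n) E0 ∧
    ∀ E1 E1' : ℝ, s.Ok lam d n E1 E1' → ¬ s'.Ok lam d n E1 E1' →
      ∃ e ∈ Set.uIcc E1 E1', kap lam 2 < |s'.fn (sh d n) (Ga lam d n e)|

end Pool.Agent.W811.Stu
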