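import Mathlib
import Pool.Agent.W811.Stu.Stmts3

/-!
Equivariance of the leaf fields.
-/

set_option autoImplicit false

namespace Pool.Agent.W811.Stu

/-- the leaf field of a word -/
def LFw (w : List Mv) (p : P3) : P3 :=
  ⟨(drun w p (fV p)).y, -(drun w p (fH p)).y, -(drun w p (fK p)).y⟩

lemma drun_fun (w : List Mv) (q : P3) : ∃ α β γ : ℝ, ∀ u : P3,
    (drun w q u).y = α * u.z + β * u.y + γ * u.x := by
  refine ⟨(drun w q ⟨1, 0, 0⟩).y, (drun w q ⟨0, 1, 0⟩).y, (drun w q ⟨0, 0, 1⟩).y, fun u => ?_⟩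
  have e : u = lc u.z ⟨1, 0, 0⟩ 1 (lc u.y ⟨0, 1, 0⟩ u.x ⟨0, 0, 1⟩) := by
    unfold lc; ext <;> simp
  conv_lhs => rw [e]
  rw [drun_lc, drun_lc]
  simp only [lc]; ring

lemma LFw_R (w : List Mv) (p : P3) : dR p (LFw (Mv.R :: w) p) = LFw w (stepR p) := by
  obtain ⟨α, β, γ, h⟩ := drun_fun w (stepR p)
  have e : ∀ u, (drun (Mv.R :: w) p u).y = (drun w (stepR p) (dR p u)).y := fun u => rfl
  unfold LFw
  rw [e, e, e, h, h, h, h, h, h]
  unfold dR fV fH fK stepR gA gB gX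
  ext <;> simp only <;> ring

lemma LFw_S (w : List Mv) (p : P3) :
    dS (LFw (Mv.S :: w) p) = lc (-1) (LFw w (stepS p)) 0 (LFw w (stepS p)) := by
  obtain ⟨α, β, γ, h⟩ := drun_fun w (stepS p)
  have e : ∀ u, (drun (Mv.S :: w) p u).y = (drun w (stepS p) (dS u)).y := fun u => rfl
  unfold LFw
  rw [e, e, e, h, h, h, h, h, h]
  unfold dS fV fH fK stepS lc gA gB gX
  ext <;> simp only <;> ring

/-- **Equivariance.** -/
theorem LFw_equiv (w1 : List Mv) : ∃ s : ℝ, (s = 1 ∨ s = -1) ∧ ∀ (w2 : List Mv) (p : P3),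
    drun w1 p (LFw (w1 ++ w2) p) = lc s (LFw w2 (run w1 p)) 0 (LFw w2 (run w1 p)) := by
  induction w1 with
  | nil => exact ⟨1, Or.inl rfl, fun w2 p => by unfold lc; ext <;> simp [drun, run]⟩
  | cons m w ih =>
    obtain ⟨s, hs, H⟩ := ih
    cases m with
    | R =>
      refine ⟨s, hs, fun w2 p => ?_⟩
      show drun w (stepR p) (dR p (LFw (Mv.R :: (w ++ w2)) p)) = _
      rw [LFw_R, H]; rfl
    | S =>
      refine ⟨-s, by rcases hs with h | h <;> simp [h], fun w2 p => ?_⟩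
      show drun w (stepS p) (dS (LFw (Mv.S :: (w ++ w2)) p)) = _
      rw [LFw_S, drun_lc, H]
      show lc (-1) _ 0 _ = lc (-s) (LFw w2 (run w (stepS p))) 0 _
      unfold lc; ext <;> simp only <;> ring

lemma LF_eq (d : ℕ → ℕ) (m : ℕ) (p : P3) : LF d m p = LFw (Wd d m) p := by
  unfold LF LFw; rw [drun_Wd, drun_Wd, drun_Wd]

lemma LFw_nil (q : P3) : LFw [] q = fH q := by
  unfold LFw drun fV fH fK; ext <;> simp

theorem tEquiv : TEquiv := by
  intro d m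
  obtain ⟨s, hs, H⟩ := LFw_equiv (Wd d m)
  refine ⟨s, hs, fun p => ?_⟩
  have := H [] p
  rw [List.append_nil, LFw_nil, run_Wd, ← LF_eq, drun_Wd] at this
  exact this

/-- suffix of the word -/
lemma Wd_add (d : ℕ → ℕ) (j m : ℕ) : Wd d (j + m) = Wd d j ++ Wd (fun k => d (j + k)) m := by
  induction m with
  | zero => simp [Wd]
  | succ m ih =>
    show Wd d (j + m) ++ _ = _
    rw [ih, List.append_assoc]; rfl

/-- the leaf field at stage `j` -/
theorem LF_stage (d : ℕ → ℕ) (j m : ℕ) : ∃ s : ℝ, (s = 1 ∨ s = -1) ∧ ∀ p : P3,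
    dorb d p (LF d (j + m) p) j = lc s (LF (fun k => d (j + k)) m (orb d p j)) 0
      (LF (fun k => d (j + k)) m (orb d p j)) := by
  obtain ⟨s, hs, H⟩ := LFw_equiv (Wd d j)
  refine ⟨s, hs, fun p => ?_⟩
  have := H (Wd (fun k => d (j + k)) m) p
  rw [← Wd_add, run_Wd, ← LF_eq, drun_Wd, ← LF_eq] at this
  exact this

end Pool.Agent.W811.Stu
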