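import Mathlib
import Pool.Agent.W811.Stu.Equiv

/-!
Lower bounds for derivatives.
-/

set_option autoImplicit false

namespace Pool.Agent.W811.Stu

lemma gram_nonneg (a W E : L) :
    0 ≤ ip a a * ip W W * ip E E - ip a a * ip W E ^ 2 - ip a W ^ 2 * ip E E
      + 2 * ip a W * ip W E * ip a E - ip W W * ip a E ^ 2 := by
  obtain ⟨a1, a2, a3⟩ := a
  obtain ⟨w1, w2, w3⟩ := W
  obtain ⟨e1, e2, e3⟩ := E
  have : ip (a1, a2, a3) (a1, a2, a3) * ip (w1, w2, w3) (w1, w2, w3) * ip (e1, e2, e3) (e1, e2, e3)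
      - ip (a1, a2, a3) (a1, a2, a3) * ip (w1, w2, w3) (e1, e2, e3) ^ 2
      - ip (a1, a2, a3) (w1, w2, w3) ^ 2 * ip (e1, e2, e3) (e1, e2, e3)
      + 2 * ip (a1, a2, a3) (w1, w2, w3) * ip (w1, w2, w3) (e1, e2, e3) *
        ip (a1, a2, a3) (e1, e2, e3)
      - ip (w1, w2, w3) (w1, w2, w3) * ip (a1, a2, a3) (e1, e2, e3) ^ 2
      = (a1 * (w2 * e3 - w3 * e2) - a2 * (w1 * e3 - w3 * e1) + a3 * (w1 * e2 - w2 * e1)) ^ 2 := by
    unfold ip; ring
  rw [this]; positivity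

/-- the side bound -/
lemma side {a W E : L} {C : ℝ} (ha : Cn a) (hW : Cn W) (h : ip a E * ip W E ≤ 0)
    (hC : -ip E E ≤ C) : ip a a * (C * ip W W + ip W E ^ 2) ≤ C * ip a W ^ 2 := by
  have h1 := gram_nonneg a W E
  have h2 := rev_cs ha.2 hW.2
  have h3 := ip_nonneg ha hW
  have h4 : ip a W * (ip a E * ip W E) ≤ 0 := mul_nonpos_of_nonneg_of_nonpos h3 h
  have h5 : 0 ≤ ip W W * ip a E ^ 2 := mul_nonneg hW.2 (sq_nonneg _)
  have h6 : 0 ≤ (C + ip E E) * (ip a W ^ 2 - ip a a * ip W W) :=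
    mul_nonneg (by linarith) (by linarith)
  nlinarith

def E1v (p : P3) (s2 s3 : L) : L := p.x • s2 - p.z • s3
def E3v (p : P3) (s1 s2 : L) : L := p.x • s2 - p.y • s1

variable {δ : ℝ} {p : P3} {s1 s2 s3 a b : L} {u : P3}

lemma E1_1 (h : Mir p s1 s2 s3) : ip (E1v p s2 s3) s1 = 0 := by
  have hx' := h.hx; rw [ip_comm] at hx'
  have hz' := h.hz; rw [ip_comm] at hz'
  simp only [E1v, ip_sub_left, ip_smul_left, hx', hz']; ring

lemma E1_2 (h : Mir p s1 s2 s3) : ip (E1v p s2 s3) s2 = -gX p := by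
  have hy' := h.hy; rw [ip_comm] at hy'
  simp only [E1v, ip_sub_left, ip_smul_left, h.n2, hy']; unfold gX; ring

lemma E1_3 (h : Mir p s1 s2 s3) : ip (E1v p s2 s3) s3 = gA p := by
  simp only [E1v, ip_sub_left, ip_smul_left, h.n3, h.hy]; unfold gA; ring

lemma E3_3 (h : Mir p s1 s2 s3) : ip (E3v p s1 s2) s3 = 0 := by
  simp only [E3v, ip_sub_left, ip_smul_left, h.hx, h.hy]; ring

lemma E3_1 (h : Mir p s1 s2 s3) : ip (E3v p s1 s2) s1 = gB p := by
  have hz' := h.hz; rw [ip_comm] at hz'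
  simp only [E3v, ip_sub_left, ip_smul_left, h.n1, hz']; unfold gB; ring

lemma E1_n (hS : OnS δ p) (h : Mir p s1 s2 s3) :
    ip (E1v p s2 s3) (E1v p s2 s3) = -(1 + δ ^ 2 - p.y ^ 2) := by
  have e : ip (E1v p s2 s3) (E1v p s2 s3) = p.x * ip (E1v p s2 s3) s2
      - p.z * ip (E1v p s2 s3) s3 := by
    conv_lhs => rw [E1v, ip_sub_left, ip_smul_left, ip_smul_left, ip_comm s2, ip_comm s3]
    rfl
  rw [e, E1_2 h, E1_3 h]
  unfold OnS at hS
  unfold gX gA; linear_combination -hS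

lemma E3_n (hS : OnS δ p) (h : Mir p s1 s2 s3) :
    ip (E3v p s1 s2) (E3v p s1 s2) = -(1 + δ ^ 2 - p.z ^ 2) := by
  have hy' := h.hy; rw [ip_comm] at hy'
  have hz' := h.hz; rw [ip_comm] at hz'
  unfold OnS at hS
  simp only [E3v, ip_sub_left, ip_smul_left, ip_sub_right, ip_smul_right, h.n1, h.n2, h.hz, hz']
  linear_combination -hS

lemma aE1 (hD : Dat δ p s1 s2 s3 a b u) : ip a (E1v p s2 s3) = -ip b (E3v p s1 s2) := by
  simp only [E1v, E3v, ip_sub_right, ip_smul_right]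
  linear_combination hD.tan

lemma wvE1 (hS : OnS δ p) (h : Mir p s1 s2 s3) :
    ip (wv p s1 s2 s3) (E1v p s2 s3) = p.x * δ ^ 2 := by
  simp only [E1v, ip_sub_right, ip_smul_right, wv_2 hS h, wv_3 h]; ring

lemma wvE3 (hS : OnS δ p) (h : Mir p s1 s2 s3) :
    ip (wv p s1 s2 s3) (E3v p s1 s2) = p.x * δ ^ 2 := by
  simp only [E3v, ip_sub_right, ip_smul_right, wv_2 hS h, wv_1 h]; ring

/-- **Lower bound** for the derivative of the third trace. -/
theorem LBx (hδ : δ ≠ 0) (hS : OnS δ p) (hM : Mir p s1 s2 s3) (hD : Dat δ p s1 s2 s3 a b u)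
    (ha : Cn a) (hb : Cn b) {n : ℝ} (na : n ^ 2 ≤ ip a a) (nb : n ^ 2 ≤ ip b b)
    (hx : p.x ^ 2 < 1 + δ ^ 2) :
    n ^ 2 * (1 + δ ^ 2 - p.x ^ 2) ≤ (1 + δ ^ 2) * u.x ^ 2 := by
  have hδ2 : 0 < δ ^ 2 := by positivity
  have hE1 : -ip (E1v p s2 s3) (E1v p s2 s3) ≤ 1 + δ ^ 2 := by
    rw [E1_n hS hM]; nlinarith [sq_nonneg p.y]
  have hE3 : -ip (E3v p s1 s2) (E3v p s1 s2) ≤ 1 + δ ^ 2 := by
    rw [E3_n hS hM]; nlinarith [sq_nonneg p.z]
  have hT := aE1 hD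
  rcases le_or_gt (p.x ^ 2) 1 with h1 | h1
  · have hn : 0 ≤ ip (wv p s1 s2 s3) (wv p s1 s2 s3) := by
      rw [wv_norm hS hM]; exact mul_nonneg (by linarith) hδ2.le
    obtain ⟨τ, hτ, hτC⟩ : ∃ τ : ℝ, τ * τ = 1 ∧ Cn (τ • wv p s1 s2 s3) := by
      rcases Cn_or hn with h | h
      · exact ⟨1, by norm_num, by rwa [one_smul]⟩
      · exact ⟨-1, by norm_num, by rwa [neg_one_smul]⟩
    set W := τ • wv p s1 s2 s3 with hW
    have nW : ip W W = (1 - p.x ^ 2) * δ ^ 2 := by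
      rw [hW, ip_smul_left, ip_smul_right, wv_norm hS hM, ← mul_assoc, hτ, one_mul]
    have eW1 : ip W (E1v p s2 s3) = τ * (p.x * δ ^ 2) := by rw [hW, ip_smul_left, wvE1 hS hM]
    have eW3 : ip W (E3v p s1 s2) = τ * (p.x * δ ^ 2) := by rw [hW, ip_smul_left, wvE3 hS hM]
    have sq : (τ * (p.x * δ ^ 2)) ^ 2 = p.x ^ 2 * δ ^ 4 := by
      have : (τ * (p.x * δ ^ 2)) ^ 2 = (τ * τ) * (p.x ^ 2 * δ ^ 4) := by ring
      rw [this, hτ, one_mul]
    have eu : (δ * u.x) ^ 2 = (ip a W + ip b W) ^ 2 := by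
      have : ip a W + ip b W = τ * (δ * u.x) := by
        rw [ux_eq hD, hW, ip_smul_right, ip_smul_right, ip_add_left]; ring
      rw [this]
      have : (τ * (δ * u.x)) ^ 2 = (τ * τ) * (δ * u.x) ^ 2 := by ring
      rw [this, hτ, one_mul]
    have pa := ip_nonneg ha hτC
    have pb := ip_nonneg hb hτC
    have main : n ^ 2 * ((1 + δ ^ 2) * ((1 - p.x ^ 2) * δ ^ 2) + p.x ^ 2 * δ ^ 4) ≤
        (1 + δ ^ 2) * (δ * u.x) ^ 2 := by
      have hpos : 0 ≤ (1 + δ ^ 2) * ((1 - p.x ^ 2) * δ ^ 2) + p.x ^ 2 * δ ^ 4 := by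
        have : 0 ≤ 1 - p.x ^ 2 := by linarith
        positivity
      rcases le_total (ip a (E1v p s2 s3) * ip W (E1v p s2 s3)) 0 with h | h
      · have := side ha hτC h hE1
        rw [nW, eW1, sq] at this
        calc _ ≤ ip a a * ((1 + δ ^ 2) * ((1 - p.x ^ 2) * δ ^ 2) + p.x ^ 2 * δ ^ 4) :=
              mul_le_mul_of_nonneg_right na hpos
          _ ≤ (1 + δ ^ 2) * ip a W ^ 2 := this
          _ ≤ _ := by
            rw [eu]; apply mul_le_mul_of_nonneg_left _ (by positivity); nlinarith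
      · have h' : ip b (E3v p s1 s2) * ip W (E3v p s1 s2) ≤ 0 := by
          rw [eW3]; rw [eW1, hT] at h; linarith
        have := side hb hτC h' hE3
        rw [nW, eW3, sq] at this
        calc _ ≤ ip b b * ((1 + δ ^ 2) * ((1 - p.x ^ 2) * δ ^ 2) + p.x ^ 2 * δ ^ 4) :=
              mul_le_mul_of_nonneg_right nb hpos
          _ ≤ (1 + δ ^ 2) * ip b W ^ 2 := this
          _ ≤ _ := by
            rw [eu]; apply mul_le_mul_of_nonneg_left _ (by positivity); nlinarith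
    have e1 : n ^ 2 * ((1 + δ ^ 2) * ((1 - p.x ^ 2) * δ ^ 2) + p.x ^ 2 * δ ^ 4) =
        δ ^ 2 * (n ^ 2 * (1 + δ ^ 2 - p.x ^ 2)) := by ring
    have e2 : (1 + δ ^ 2) * (δ * u.x) ^ 2 = δ ^ 2 * ((1 + δ ^ 2) * u.x ^ 2) := by ring
    rw [e1, e2] at main
    exact le_of_mul_le_mul_left main hδ2
  · have hx0 : p.x ≠ 0 := by intro h; rw [h] at h1; norm_num at h1
    have hx2 : 0 < p.x ^ 2 := by positivity
    obtain ⟨n1, n2, n3, hz, hy, hxx⟩ := id hM
    have hxx' := hxx; rw [ip_comm] at hxx'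
    set u1 : L := s3 - p.x • s1 with hu1
    set u3 : L := s1 - p.x • s3 with hu3
    have N1 : ip u1 u1 = p.x ^ 2 - 1 := by
      simp only [hu1, ip_sub_left, ip_sub_right, ip_smul_left, ip_smul_right, n1, n3, hxx, hxx']
      ring
    have N3 : ip u3 u3 = p.x ^ 2 - 1 := by
      simp only [hu3, ip_sub_left, ip_sub_right, ip_smul_left, ip_smul_right, n1, n3, hxx, hxx']
      ring
    have N13 : ip u1 u3 = -p.x * (p.x ^ 2 - 1) := by
      simp only [hu1, hu3, ip_sub_left, ip_sub_right, ip_smul_left, ip_smul_right, n1, n3, hxx,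
        hxx']
      ring
    have hAB := xAB_neg hS h1 hx
    have hA0 : gA p ≠ 0 := by
      intro h; rw [h] at hAB; simp at hAB
    have hB0 : gB p ≠ 0 := by
      intro h; rw [h] at hAB; simp at hAB
    obtain ⟨ε, hε, hεC⟩ : ∃ ε : ℝ, ε * ε = 1 ∧ Cn (ε • u1) := by
      rcases Cn_or (v := u1) (by rw [N1]; linarith) with h | h
      · exact ⟨1, by norm_num, by rwa [one_smul]⟩
      · exact ⟨-1, by norm_num, by rwa [neg_one_smul]⟩
    have hε1 : 0 < ip (ε • u1) (ε • u1) := by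
      rw [ip_smul_left, ip_smul_right, N1, ← mul_assoc, hε]; linarith
    have hC3 : Cn ((-(p.x * ε)) • u3) := by
      apply Cn_of_ip hεC hε1
      · rw [ip_smul_left, ip_smul_right, N3]
        have : -(p.x * ε) * (-(p.x * ε) * (p.x ^ 2 - 1)) = p.x ^ 2 * (ε * ε) * (p.x ^ 2 - 1) := by
          ring
        rw [this, hε]; nlinarith [sq_nonneg p.x]
      · rw [ip_smul_left, ip_smul_right, N13]
        have : ε * (-(p.x * ε) * (-p.x * (p.x ^ 2 - 1))) = p.x ^ 2 * (ε * ε) * (p.x ^ 2 - 1) := by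
          ring
        rw [this, hε]; nlinarith [sq_nonneg p.x]
    have e1 := xux hS hδ hD
    have ea : ip a (ε • u1) = ε * ip a s3 := by
      rw [hu1, ip_smul_right, ip_sub_right, ip_smul_right, hD.a1]; ring
    have eb : ip b ((-(p.x * ε)) • u3) = -(p.x * ε) * ip b s1 := by
      rw [hu3, ip_smul_right, ip_sub_right, ip_smul_right, hD.b3]; ring
    have pa : 0 ≤ ε * ip a s3 := by rw [← ea]; exact ip_nonneg ha hεC
    have pb : 0 ≤ -(p.x * ε) * ip b s1 := by rw [← eb]; exact ip_nonneg hb hC3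
    -- the two contributions have the same sign
    set S1 := gA p * ip a s3 with hS1
    set S3 := gB p * ip b s1 with hS3
    have hS13 : 0 ≤ S1 * S3 := by
      have : p.x ^ 2 * (S1 * S3) =
          (-(p.x * gA p * gB p)) * ((ε * ip a s3) * (-(p.x * ε) * ip b s1)) := by
        have : (-(p.x * gA p * gB p)) * ((ε * ip a s3) * (-(p.x * ε) * ip b s1)) =
          (ε * ε) * (p.x ^ 2 * (S1 * S3)) := by rw [hS1, hS3]; ring
        rw [this, hε, one_mul]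
      have h3 : 0 ≤ p.x ^ 2 * (S1 * S3) := by
        rw [this]; exact mul_nonneg (by linarith) (mul_nonneg pa pb)
      exact nonneg_of_mul_nonneg_right h3 hx2
    have k1 : S1 ^ 2 ≤ p.x ^ 2 * δ ^ 2 * u.x ^ 2 := by
      have : p.x ^ 2 * δ ^ 2 * u.x ^ 2 = (S1 + S3) ^ 2 := by rw [← e1]; ring
      rw [this]; nlinarith [sq_nonneg S3]
    have k3 : S3 ^ 2 ≤ p.x ^ 2 * δ ^ 2 * u.x ^ 2 := by
      have : p.x ^ 2 * δ ^ 2 * u.x ^ 2 = (S1 + S3) ^ 2 := by rw [← e1]; ring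
      rw [this]; nlinarith [sq_nonneg S1]
    have hA2 : 1 + δ ^ 2 - p.x ^ 2 ≤ gA p ^ 2 := by
      rw [hS.A2]; nlinarith [mul_nonneg (sub_nonneg.2 h1.le) (sq_nonneg p.y)]
    have hB2 : 1 + δ ^ 2 - p.x ^ 2 ≤ gB p ^ 2 := by
      rw [hS.B2]; nlinarith [mul_nonneg (sub_nonneg.2 h1.le) (sq_nonneg p.z)]
    have fin : ∀ G t : ℝ, 1 + δ ^ 2 - p.x ^ 2 ≤ G ^ 2 → (G * t) ^ 2 ≤ p.x ^ 2 * δ ^ 2 * u.x ^ 2 →
        n ^ 2 * ((1 + δ ^ 2) * (p.x ^ 2 - 1) + G ^ 2) ≤ (1 + δ ^ 2) * t ^ 2 →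
        n ^ 2 * (1 + δ ^ 2 - p.x ^ 2) ≤ (1 + δ ^ 2) * u.x ^ 2 := by
      intro G t hG h2 h3
      have c0 : 0 < 1 + δ ^ 2 - p.x ^ 2 := by linarith
      have h4 : n ^ 2 * ((1 + δ ^ 2) * (p.x ^ 2 - 1) + (1 + δ ^ 2 - p.x ^ 2)) ≤
          (1 + δ ^ 2) * t ^ 2 := by
        refine le_trans ?_ h3
        apply mul_le_mul_of_nonneg_left _ (sq_nonneg n); linarith
      have h5 : n ^ 2 * (p.x ^ 2 * δ ^ 2) ≤ (1 + δ ^ 2) * t ^ 2 := by
        have : n ^ 2 * ((1 + δ ^ 2) * (p.x ^ 2 - 1) + (1 + δ ^ 2 - p.x ^ 2)) =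
          n ^ 2 * (p.x ^ 2 * δ ^ 2) := by ring
        linarith
      have h6 : (1 + δ ^ 2 - p.x ^ 2) * (n ^ 2 * (p.x ^ 2 * δ ^ 2)) ≤
          G ^ 2 * ((1 + δ ^ 2) * t ^ 2) :=
        mul_le_mul hG h5 (by positivity) (sq_nonneg _)
      have h7 : G ^ 2 * ((1 + δ ^ 2) * t ^ 2) ≤ (1 + δ ^ 2) * (p.x ^ 2 * δ ^ 2 * u.x ^ 2) := by
        have : G ^ 2 * ((1 + δ ^ 2) * t ^ 2) = (1 + δ ^ 2) * (G * t) ^ 2 := by ring
        rw [this]; exact mul_le_mul_of_nonneg_left h2 (by positivity)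
      have h8 : (p.x ^ 2 * δ ^ 2) * (n ^ 2 * (1 + δ ^ 2 - p.x ^ 2)) ≤
          (p.x ^ 2 * δ ^ 2) * ((1 + δ ^ 2) * u.x ^ 2) := by nlinarith
      exact le_of_mul_le_mul_left h8 (by positivity)
    set t := ip a (E1v p s2 s3) with ht
    have i1 : ip (ε • u1) (E1v p s2 s3) = ε * gA p := by
      rw [ip_smul_left, hu1, ip_sub_left, ip_smul_left, ip_comm s3, ip_comm s1, E1_3 hM, E1_1 hM]
      ring
    have i3 : ip ((-(p.x * ε)) • u3) (E3v p s1 s2) = -(p.x * ε) * gB p := by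
      rw [ip_smul_left, hu3, ip_sub_left, ip_smul_left, ip_comm s3, ip_comm s1, E3_3 hM, E3_1 hM]
      ring
    rcases le_total (t * (ε * gA p)) 0 with h | h
    · have := side ha hεC (by rw [i1]; exact h) hE1
      rw [i1, ea, ip_smul_left, ip_smul_right, N1] at this
      have q1 : ε * (ε * (p.x ^ 2 - 1)) = p.x ^ 2 - 1 := by rw [← mul_assoc, hε, one_mul]
      have q2 : (ε * gA p) ^ 2 = gA p ^ 2 := by
        have : (ε * gA p) ^ 2 = (ε * ε) * gA p ^ 2 := by ring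
        rw [this, hε, one_mul]
      have q3 : (ε * ip a s3) ^ 2 = ip a s3 ^ 2 := by
        have : (ε * ip a s3) ^ 2 = (ε * ε) * ip a s3 ^ 2 := by ring
        rw [this, hε, one_mul]
      rw [q1, q2, q3] at this
      refine fin (gA p) (ip a s3) hA2 k1 (le_trans ?_ this)
      apply mul_le_mul_of_nonneg_right na
      have : 0 ≤ p.x ^ 2 - 1 := by linarith
      positivity
    · have h' : ip b (E3v p s1 s2) * ip ((-(p.x * ε)) • u3) (E3v p s1 s2) ≤ 0 := by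
        rw [i3]
        have e3 : ip b (E3v p s1 s2) = -t := by linarith
        rw [e3]
        have : gA p ^ 2 * (-t * (-(p.x * ε) * gB p)) = (p.x * gA p * gB p) * (t * (ε * gA p)) := by
          ring
        have h3 : gA p ^ 2 * (-t * (-(p.x * ε) * gB p)) ≤ 0 := by
          rw [this]; exact mul_nonpos_of_nonpos_of_nonneg hAB.le h
        have hA2' : 0 < gA p ^ 2 := by positivity
        by_contra hc
        push Not at hc
        have := mul_pos hA2' hc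
        linarith
      have := side hb hC3 h' hE3
      rw [i3, eb, ip_smul_left, ip_smul_right, N3] at this
      have q1 : -(p.x * ε) * (-(p.x * ε) * (p.x ^ 2 - 1)) = p.x ^ 2 * (p.x ^ 2 - 1) := by
        have : -(p.x * ε) * (-(p.x * ε) * (p.x ^ 2 - 1)) = (ε * ε) * (p.x ^ 2 * (p.x ^ 2 - 1)) := by
          ring
        rw [this, hε, one_mul]
      have q2 : (-(p.x * ε) * gB p) ^ 2 = p.x ^ 2 * gB p ^ 2 := by
        have : (-(p.x * ε) * gB p) ^ 2 = (ε * ε) * (p.x ^ 2 * gB p ^ 2) := by ring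
        rw [this, hε, one_mul]
      have q3 : (-(p.x * ε) * ip b s1) ^ 2 = p.x ^ 2 * ip b s1 ^ 2 := by
        have : (-(p.x * ε) * ip b s1) ^ 2 = (ε * ε) * (p.x ^ 2 * ip b s1 ^ 2) := by ring
        rw [this, hε, one_mul]
      rw [q1, q2, q3] at this
      have this2 : p.x ^ 2 * (ip b b * ((1 + δ ^ 2) * (p.x ^ 2 - 1) + gB p ^ 2)) ≤
          p.x ^ 2 * ((1 + δ ^ 2) * ip b s1 ^ 2) := by nlinarith
      have this3 := le_of_mul_le_mul_left this2 hx2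
      refine fin (gB p) (ip b s1) hB2 k3 (le_trans ?_ this3)
      apply mul_le_mul_of_nonneg_right nb
      have : 0 ≤ p.x ^ 2 - 1 := by linarith
      positivity

end Pool.Agent.W811.Stu
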