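import Mathlib
import Pool.Agent.W811.Stu.LB

/-!
Growth of the cone data along orbits; lower bound of the derivatives of level functions.
-/

set_option autoImplicit false

namespace Pool.Agent.W811.Stu

variable {δ : ℝ}

theorem growR (k : ℕ) {p : P3} {s1 s2 s3 : L} (hM : Mir p s1 s2 s3) :
    ∃ t1 t2 t3, Mir (stepR^[k] p) t1 t2 t3 ∧ ∀ (a b : L) (u : P3) (α β : ℝ),
      Dat δ p s1 s2 s3 a b u → Cn a → Cn b → α ^ 2 ≤ ip a a → β ^ 2 ≤ ip b b →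
      ∃ a' b', Dat δ (stepR^[k] p) t1 t2 t3 a' b' (dRk k p u) ∧ Cn a' ∧ Cn b' ∧
        (α + k * β) ^ 2 ≤ ip a' a' ∧ β ^ 2 ≤ ip b' b' := by
  induction k with
  | zero =>
    refine ⟨s1, s2, s3, hM, fun a b u α β h ha hb na nb => ⟨a, b, h, ha, hb, ?_, nb⟩⟩
    simpa using na
  | succ k ih =>
    obtain ⟨t1, t2, t3, hT, H⟩ := ih
    refine ⟨t1, t3, s3R (stepR^[k] p) t2 t3, ?_, fun a b u α β h ha hb na nb => ?_⟩
    · rw [Function.iterate_succ_apply']; exact hT.R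
    · obtain ⟨a', b', h', ha', hb', na', nb'⟩ := H a b u α β h ha hb na nb
      have c1 := Cn_pr hT.n1 hb'
      have c3 := Cn_pr hT.R.n3 hb'
      refine ⟨a' + pr t1 b', pr (s3R (stepR^[k] p) t2 t3) b', ?_, Cn_add ha' c1, c3, ?_, ?_⟩
      · rw [Function.iterate_succ_apply']; exact h'.R hT
      · have e : α + ((k + 1 : ℕ) : ℝ) * β = (α + k * β) + β := by push_cast; ring
        rw [e]
        refine norm_add ha' c1 na' ?_
        rw [norm_pr hT.n1]; nlinarith [sq_nonneg (ip b' t1)]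
      · rw [norm_pr hT.R.n3]; nlinarith [sq_nonneg (ip b' (s3R (stepR^[k] p) t2 t3))]

/-- lower bounds for the norms of the data -/
def gr (d : ℕ → ℕ) (α β : ℝ) : ℕ → ℝ × ℝ
  | 0 => (α, β)
  | m + 1 => ((gr d α β m).2, (gr d α β m).1 + d m * (gr d α β m).2)

theorem grow (d : ℕ → ℕ) (m : ℕ) {p : P3} {s1 s2 s3 : L} (hM : Mir p s1 s2 s3) :
    ∃ t1 t2 t3, Mir (orb d p m) t1 t2 t3 ∧ ∀ (a b : L) (u : P3) (α β : ℝ),
      Dat δ p s1 s2 s3 a b u → Cn a → Cn b → α ^ 2 ≤ ip a a → β ^ 2 ≤ ip b b →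
      ∃ a' b', Dat δ (orb d p m) t1 t2 t3 a' b' (dorb d p u m) ∧ Cn a' ∧ Cn b' ∧
        (gr d α β m).1 ^ 2 ≤ ip a' a' ∧ (gr d α β m).2 ^ 2 ≤ ip b' b' := by
  induction m with
  | zero => exact ⟨s1, s2, s3, hM, fun a b u α β h ha hb na nb => ⟨a, b, h, ha, hb, na, nb⟩⟩
  | succ m ih =>
    obtain ⟨t1, t2, t3, hT, H⟩ := ih
    obtain ⟨r1, r2, r3, hR, K⟩ := growR (δ := δ) (d m) hT
    refine ⟨r3, r2, r1, hR.S, fun a b u α β h ha hb na nb => ?_⟩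
    obtain ⟨a', b', h', ha', hb', na', nb'⟩ := H a b u α β h ha hb na nb
    obtain ⟨a'', b'', h'', ha'', hb'', na'', nb''⟩ := K a' b' _ _ _ h' ha' hb' na' nb'
    exact ⟨b'', a'', h''.S, hb'', ha'', nb'', na''⟩

lemma gr_ge {d : ℕ → ℕ} (hd : ∀ k, 1 ≤ d k) {β : ℝ} (hβ : 0 ≤ β) (m : ℕ) :
    0 ≤ (gr d 0 β m).1 ∧ β * 2 ^ (m / 2) ≤ (gr d 0 β m).2 ∧
    0 ≤ (gr d 0 β (m + 1)).1 ∧ β * 2 ^ ((m + 1) / 2) ≤ (gr d 0 β (m + 1)).2 := by
  have h1d : ∀ k, (1:ℝ) ≤ d k := fun k => by exact_mod_cast hd k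
  induction m with
  | zero =>
    refine ⟨le_rfl, by simp [gr], hβ, ?_⟩
    have : (gr d 0 β 1).2 = 0 + d 0 * β := rfl
    rw [this]; norm_num
    nlinarith [h1d 0]
  | succ m ih =>
    obtain ⟨i1, i2, i3, i4⟩ := ih
    have hpos : 0 ≤ (gr d 0 β m).2 := le_trans (by positivity) i2
    have hpos' : 0 ≤ (gr d 0 β (m + 1)).2 := le_trans (by positivity) i4
    have e0 : (gr d 0 β (m + 1)).2 = (gr d 0 β m).1 + d m * (gr d 0 β m).2 := rfl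
    have e1 : (gr d 0 β (m + 1)).1 = (gr d 0 β m).2 := rfl
    have e2 : (gr d 0 β (m + 2)).1 = (gr d 0 β (m + 1)).2 := rfl
    have e3 : (gr d 0 β (m + 2)).2 = (gr d 0 β (m + 1)).1 + d (m + 1) * (gr d 0 β (m + 1)).2 := rfl
    refine ⟨i3, i4, ?_, ?_⟩
    · show 0 ≤ (gr d 0 β (m + 2)).1
      rw [e2]; exact hpos'
    · show β * 2 ^ ((m + 2) / 2) ≤ (gr d 0 β (m + 2)).2
      have e4 : (m + 2) / 2 = m / 2 + 1 := by omega
      rw [e4, pow_succ, e3, e1]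
      have f1 : (gr d 0 β m).2 ≤ (gr d 0 β (m + 1)).2 := by
        rw [e0]; nlinarith [h1d m]
      have f2 : (gr d 0 β (m + 1)).2 ≤ d (m + 1) * (gr d 0 β (m + 1)).2 := by
        nlinarith [h1d (m + 1)]
      nlinarith

lemma lc_zero (s : ℝ) (u : P3) : lc s u 0 u = ⟨s * u.z, s * u.y, s * u.x⟩ := by
  unfold lc; ext <;> simp

/-- data for the push forward of `fV` at stage `m` -/
theorem stage (hδ : δ ≠ 0) {d : ℕ → ℕ} (hd : ∀ k, 1 ≤ d k) {p : P3} (hS : OnS δ p)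
    (hz : |p.z| ≤ 1) (m : ℕ) : ∃ (t1 t2 t3 a b : L) (η : ℝ), (η = 1 ∨ η = -1) ∧
      Mir (orb d p m) t1 t2 t3 ∧
      Dat δ (orb d p m) t1 t2 t3 a b (lc η (dorb d p (fV p) m) 0 (dorb d p (fV p) m)) ∧
      Cn a ∧ Cn b ∧ (gr d 0 |δ| m).1 ^ 2 ≤ ip a a ∧ (gr d 0 |δ| m).2 ^ 2 ≤ ip b b := by
  obtain ⟨s1, s2, s3, hM⟩ := exists_mir hδ hS
  have hδ2 : 0 < δ ^ 2 := by positivity
  set β := b0 δ p s1 s2 s3 with hβ
  have nβ : ip β β = 1 + δ ^ 2 - p.z ^ 2 := b0_norm hδ hS hM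
  have hz2 : p.z ^ 2 ≤ 1 := by rw [← sq_abs]; nlinarith [abs_nonneg p.z]
  have nβ0 : 0 ≤ ip β β := by rw [nβ]; linarith
  obtain ⟨η, hη, hηC⟩ : ∃ η : ℝ, (η = 1 ∨ η = -1) ∧ Cn (η • β) := by
    rcases Cn_or nβ0 with h | h
    · exact ⟨1, Or.inl rfl, by rwa [one_smul]⟩
    · exact ⟨-1, Or.inr rfl, by rwa [neg_one_smul]⟩
  have hη2 : η * η = 1 := by rcases hη with h | h <;> rw [h] <;> norm_num
  have D0 : Dat δ p s1 s2 s3 (0 : L) (η • β) (lc (-η) (fV p) 0 (fV p)) := by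
    have h := (b0_dat hδ hS hM).lc (b0_dat hδ hS hM) η 0
    rw [zero_smul, add_zero, zero_smul, add_zero, smul_zero] at h
    convert h using 1
    unfold lc; ext <;> simp only <;> ring
  obtain ⟨t1, t2, t3, hT, H⟩ := grow (δ := δ) d m hM
  obtain ⟨a', b', h', ha', hb', na', nb'⟩ := H 0 (η • β) _ 0 |δ| D0 Cn_zero hηC (by simp)
    (by rw [sq_abs, ip_smul_left, ip_smul_right, ← mul_assoc, hη2, one_mul, nβ]; linarith)
  refine ⟨t1, t2, t3, a', b', -η, by rcases hη with h | h <;> simp [h], hT, ?_, ha', hb', na', nb'⟩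
  rw [dorb_lc] at h'
  exact h'

theorem tLB : TLB := by
  intro δ κ hδ hκ0 hκ
  have hc := cc_sq δ
  have hcp := cc_pos δ
  have hδ0 : 0 < |δ| := abs_pos.2 hδ
  have hgap : 0 < cc δ ^ 2 - κ ^ 2 := by nlinarith
  refine ⟨|δ| * Real.sqrt (cc δ ^ 2 - κ ^ 2) / (2 * cc δ), by positivity, ?_⟩
  intro d hd m hm p hS hz hy
  obtain ⟨m, rfl⟩ : ∃ k, m = k + 2 := ⟨m - 2, by omega⟩
  obtain ⟨k, hk⟩ : ∃ k, d (m + 1) = k + 1 := ⟨d (m + 1) - 1, by have := hd (m + 1); omega⟩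
  obtain ⟨t1, t2, t3, a, b, η, hη, hT, hD, ha, hb, na, nb⟩ := stage hδ hd hS hz (m + 1)
  obtain ⟨g1, g2, g3, g4⟩ := gr_ge hd hδ0.le m
  have hη2 : η ^ 2 = 1 := by rcases hη with h | h <;> rw [h] <;> norm_num
  set n : ℝ := |δ| * 2 ^ (m / 2) with hn
  have hn0 : 0 ≤ n := by positivity
  have n1 : n ≤ (gr d 0 |δ| (m + 1)).1 := g2
  have n2 : n ≤ (gr d 0 |δ| (m + 1)).2 := by
    refine le_trans ?_ g4
    apply mul_le_mul_of_nonneg_left _ hδ0.le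
    exact pow_le_pow_right₀ (by norm_num) (by omega)
  obtain ⟨r1, r2, r3, hR, K⟩ := growR (δ := δ) k hT
  obtain ⟨a', b', h', ha', hb', na', nb'⟩ := K a b _ n n hD ha hb
    (le_trans (pow_le_pow_left₀ hn0 n1 2) na) (le_trans (pow_le_pow_left₀ hn0 n2 2) nb)
  have ex : (stepR^[k] (orb d p (m + 1))).x = (orb d p (m + 2)).y := by
    rw [iter_x, orb_succ_y, hk]; rfl
  have eu : (dRk k (orb d p (m + 1)) (lc η (dorb d p (fV p) (m + 1)) 0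
      (dorb d p (fV p) (m + 1)))).x = η * Vy d (m + 2) p := by
    rw [dRk_lc]
    have e2 : Vy d (m + 2) p = (dRk (d (m + 1)) (orb d p (m + 1)) (dorb d p (fV p) (m + 1))).z :=
      rfl
    rw [e2, hk]
    show η * _ + 0 * _ = _
    rw [zero_mul, add_zero]; rfl
  have hy2 : (orb d p (m + 2)).y ^ 2 ≤ κ ^ 2 := by
    rw [← sq_abs]; exact pow_le_pow_left₀ (abs_nonneg _) hy 2
  have hk0 : (0:ℝ) ≤ k := Nat.cast_nonneg k
  have hna : n ^ 2 ≤ (n + k * n) ^ 2 := by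
    apply pow_le_pow_left₀ hn0
    nlinarith [mul_nonneg hk0 hn0]
  have main := LBx hδ ((hS.orb d (m + 1)).iter k) hR h' ha' hb' (n := n)
    (le_trans hna na') nb' (by rw [ex, ← hc]; linarith)
  rw [ex, eu, ← hc, mul_pow η, hη2, one_mul] at main
  have e5 : (m + 2) / 2 = m / 2 + 1 := by omega
  have h6 : (n * Real.sqrt (cc δ ^ 2 - κ ^ 2)) ^ 2 ≤ (cc δ * |Vy d (m + 2) p|) ^ 2 := by
    rw [mul_pow, mul_pow (cc δ), Real.sq_sqrt hgap.le, sq_abs]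
    refine le_trans ?_ main
    apply mul_le_mul_of_nonneg_left _ (sq_nonneg n)
    linarith
  have h8 : n * Real.sqrt (cc δ ^ 2 - κ ^ 2) ≤ cc δ * |Vy d (m + 2) p| :=
    (abs_le_of_sq_le_sq' h6 (by positivity)).2
  rw [e5, pow_succ (2:ℝ)]
  have : |δ| * Real.sqrt (cc δ ^ 2 - κ ^ 2) / (2 * cc δ) * (2 ^ (m / 2) * 2) =
      n * Real.sqrt (cc δ ^ 2 - κ ^ 2) / cc δ := by
    rw [hn]; field_simp
  rw [this, div_le_iff₀ hcp]
  linarith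

end Pool.Agent.W811.Stu
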