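import Mathlib
import Pool.Agent.W811.Stu.Grow

/-!
Small variation of level functions along leaves of higher levels.
-/

set_option autoImplicit false

namespace Pool.Agent.W811.Stu

/-- Cramer's rule in `ℝ³` -/
lemma cramer (V s T E : L) : ∃ c1 c2 c3 D : ℝ, D • V = c1 • s + c2 • T + c3 • E ∧
    D ^ 2 = ip s s * ip T T * ip E E - ip s s * ip T E ^ 2 - ip s T ^ 2 * ip E E
      + 2 * ip s T * ip T E * ip s E - ip T T * ip s E ^ 2 := by
  obtain ⟨v1, v2, v3⟩ := V
  obtain ⟨a1, a2, a3⟩ := s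
  obtain ⟨w1, w2, w3⟩ := T
  obtain ⟨e1, e2, e3⟩ := E
  refine ⟨v1 * (w2 * e3 - w3 * e2) - v2 * (w1 * e3 - w3 * e1) + v3 * (w1 * e2 - w2 * e1),
    a1 * (v2 * e3 - v3 * e2) - a2 * (v1 * e3 - v3 * e1) + a3 * (v1 * e2 - v2 * e1),
    a1 * (w2 * v3 - w3 * v2) - a2 * (w1 * v3 - w3 * v1) + a3 * (w1 * v2 - w2 * v1),
    a1 * (w2 * e3 - w3 * e2) - a2 * (w1 * e3 - w3 * e1) + a3 * (w1 * e2 - w2 * e1), ?_, ?_⟩
  · ext <;> simp only [Prod.smul_fst, Prod.smul_snd, Prod.fst_add, Prod.snd_add, smul_eq_mul] <;>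
      ring
  · unfold ip; ring

/-- norm of a vector orthogonal to `s` -/
lemma parseval {V s T E : L} (hs : ip s s ≠ 0) (hT : ip T T ≠ 0) (hE : ip E E ≠ 0)
    (h1 : ip s T = 0) (h2 : ip s E = 0) (h3 : ip T E = 0) (hV : ip V s = 0) :
    ip V V = ip V T ^ 2 / ip T T + ip V E ^ 2 / ip E E := by
  obtain ⟨c1, c2, c3, D, h, hD⟩ := cramer V s T E
  rw [h1, h2, h3] at hD
  have hD0 : D ≠ 0 := by
    intro h0
    rw [h0] at hD
    have : ip s s * ip T T * ip E E = 0 := by linarith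
    exact mul_ne_zero (mul_ne_zero hs hT) hE this
  have q : ∀ W : L, D * ip V W = c1 * ip s W + c2 * ip T W + c3 * ip E W := by
    intro W
    have : ip (D • V) W = ip (c1 • s + c2 • T + c3 • E) W := by rw [h]
    simpa only [ip_smul_left, ip_add_left] using this
  have qs := q s
  have qT := q T
  have qE := q E
  have qV := q V
  rw [hV, ip_comm T s, ip_comm E s, h1, h2] at qs
  rw [h1, ip_comm E T, h3] at qT
  rw [h2, h3] at qE
  rw [ip_comm s V, hV, ip_comm T V, ip_comm E V] at qV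
  have k2 : c2 = D * ip V T / ip T T := by rw [eq_div_iff hT]; linarith
  have k3 : c3 = D * ip V E / ip E E := by rw [eq_div_iff hE]; linarith
  have : D * ip V V = D * (ip V T ^ 2 / ip T T + ip V E ^ 2 / ip E E) := by
    rw [qV, k2, k3]; ring
  exact mul_left_cancel₀ hD0 this

variable {δ : ℝ} {p : P3} {s1 s2 s3 a b : L} {u : P3}

lemma aH_E1 (hδ : δ ≠ 0) (hS : OnS δ p) (h : Mir p s1 s2 s3) :
    ip (aH δ p s1 s2 s3) (E1v p s2 s3) = 0 := by
  rw [E1v, ip_sub_right, ip_smul_right, ip_smul_right, aH_2 hδ h, aH_3 hδ h]; ring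

/-- the direction preserving `y` is dominated with a small constant -/
theorem domH (hδ : δ ≠ 0) (hS : OnS δ p) (hM : Mir p s1 s2 s3) (hD : Dat δ p s1 s2 s3 a b u)
    (ha : Cn a) (hb : Cn b) {n N : ℝ} (hn : 0 < n) (na : n ^ 2 ≤ ip a a) (nb : n ^ 2 ≤ ip b b)
    (hN : 0 ≤ N) (hNn : 1 + δ ^ 2 + p.z ^ 2 ≤ N ^ 2 * n ^ 2) (hy : p.y ^ 2 < 1 + δ ^ 2) :
    Cn (N • (a + pr s1 b) + aH δ p s1 s2 s3) ∧ Cn (N • (a + pr s1 b) - aH δ p s1 s2 s3) := by
  set T := aH δ p s1 s2 s3 with hT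
  set E1 := E1v p s2 s3 with hE1
  set E3 := E3v p s1 s2 with hE3
  set e := 1 + δ ^ 2 - p.y ^ 2 with he
  have he0 : 0 < e := by linarith
  have nT : ip T T = e := aH_norm hδ hS hM
  have nE : ip E1 E1 = -e := E1_n hS hM
  have TE : ip T E1 = 0 := aH_E1 hδ hS hM
  have T1 : ip T s1 = 0 := aH_1 hδ hS hM
  have E11 : ip E1 s1 = 0 := E1_1 hM
  obtain ⟨η, hη, hηC⟩ : ∃ η : ℝ, η * η = 1 ∧ Cn (η • T) := by
    rcases Cn_or (v := T) (by rw [nT]; exact he0.le) with h | h
    · exact ⟨1, by norm_num, by rwa [one_smul]⟩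
    · exact ⟨-1, by norm_num, by rwa [neg_one_smul]⟩
  have hηT : ip (η • T) (η • T) = e := by
    rw [ip_smul_left, ip_smul_right, ← mul_assoc, hη, one_mul, nT]
  have hbE : ip b E3 = -ip a E1 := by have := aE1 hD; linarith
  have hN0 : 0 < N := by
    rcases hN.lt_or_eq with h | h
    · exact h
    · rw [← h] at hNn
      have : 0 < 1 + δ ^ 2 + p.z ^ 2 := by positivity
      nlinarith
  -- the estimate for the two null directions
  have key : ∀ s : ℝ, s * s = 1 → e ≤ N * (ip a (η • T + s • E1) + ip b (η • T + s • E1)) := by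
    intro s hs
    set l := η • T + s • E1 with hl
    have ll : ip l l = 0 := by
      rw [hl, ip_add_left, ip_add_right, ip_add_right, hηT, ip_smul_left, ip_smul_right,
        ip_smul_left, ip_smul_right, ip_smul_left, ip_smul_right, ip_comm E1 T, TE, nE]
      linear_combination (-e) * hs
    have cl : Cn l := by
      apply Cn_of_ip hηC (by rw [hηT]; exact he0) ll.ge
      rw [hl, ip_add_right, hηT, ip_smul_left, ip_smul_right, TE]; linarith
    have lE : ip l E1 = -(s * e) := by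
      rw [hl, ip_add_left, ip_smul_left, ip_smul_left, TE, nE]; ring
    have l1 : ip l s1 = 0 := by
      rw [hl, ip_add_left, ip_smul_left, ip_smul_left, T1, E11]; ring
    have lE2 : ip l E1 ^ 2 = e ^ 2 := by
      rw [lE]; linear_combination e ^ 2 * hs
    have pa := ip_nonneg ha cl
    have pb := ip_nonneg hb cl
    -- it is enough to bound one of the two terms
    have suff : ∀ t : ℝ, 0 ≤ t → t ≤ ip a l + ip b l → e ^ 2 ≤ N ^ 2 * t ^ 2 →
        e ≤ N * (ip a l + ip b l) := by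
      intro t ht h1 h2
      have h3 : e ^ 2 ≤ (N * t) ^ 2 := by rw [mul_pow]; exact h2
      have h4 : e ≤ N * t := (abs_le_of_sq_le_sq' h3 (by positivity)).2
      exact le_trans h4 (mul_le_mul_of_nonneg_left h1 hN)
    have hzz : 0 ≤ p.z ^ 2 := sq_nonneg _
    have hyy : 0 ≤ p.y ^ 2 := sq_nonneg _
    rcases le_total (ip a E1 * ip l E1) 0 with hA | hA
    · -- the part `a`
      have h1 := side ha cl hA (C := e) (by rw [nE]; linarith)
      rw [ll, lE2] at h1
      have h2 : n ^ 2 * e ≤ ip a l ^ 2 := by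
        have : e * (n ^ 2 * e) ≤ e * ip a l ^ 2 := by nlinarith [mul_le_mul_of_nonneg_right na (sq_nonneg e)]
        exact le_of_mul_le_mul_left this he0
      apply suff (ip a l) pa (by linarith)
      calc e ^ 2 ≤ (1 + δ ^ 2 + p.z ^ 2) * e := by nlinarith
        _ ≤ N ^ 2 * n ^ 2 * e := mul_le_mul_of_nonneg_right hNn he0.le
        _ = N ^ 2 * (n ^ 2 * e) := by ring
        _ ≤ N ^ 2 * ip a l ^ 2 := mul_le_mul_of_nonneg_left h2 (sq_nonneg _)
    · -- the part `b`
      have hprod : ip b E3 * ip l E1 ≤ 0 := by rw [hbE]; linarith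
      have lE3 : ip l E3 = ip l E1 + p.z * ip l s3 := by
        rw [hE3, hE1, E3v, E1v, ip_sub_right, ip_sub_right, ip_smul_right, ip_smul_right,
          ip_smul_right, l1]; ring
      apply suff (ip b l) pb (by linarith)
      rcases le_or_gt (ip b E3 * ip l E3) 0 with hB | hB
      · have cW : Cn (pr s3 l) := Cn_pr hM.n3 cl
        have nW : ip (pr s3 l) (pr s3 l) = ip l s3 ^ 2 := by rw [norm_pr hM.n3, ll]; ring
        have bW : ip b (pr s3 l) = ip b l := by rw [ip_comm, ip_pr hD.b3, ip_comm]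
        have WE : ip (pr s3 l) E3 = ip l E3 := ip_pr (E3_3 hM)
        have h1 := side hb cW (E := E3) (by rw [WE]; exact hB) (C := 1 + δ ^ 2)
          (by rw [E3_n hS hM]; linarith)
        rw [nW, bW, WE, lE3] at h1
        set g := ip l E1
        set w := ip l s3
        have h2 : (1 + δ ^ 2) * g ^ 2 ≤
            (1 + δ ^ 2 + p.z ^ 2) * ((1 + δ ^ 2) * w ^ 2 + (g + p.z * w) ^ 2) := by
          have : (1 + δ ^ 2 + p.z ^ 2) * ((1 + δ ^ 2) * w ^ 2 + (g + p.z * w) ^ 2)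
            - (1 + δ ^ 2) * g ^ 2 = ((1 + δ ^ 2) * w + p.z * (g + p.z * w)) ^ 2 := by ring
          nlinarith [sq_nonneg ((1 + δ ^ 2) * w + p.z * (g + p.z * w))]
        have h3 : n ^ 2 * ((1 + δ ^ 2) * w ^ 2 + (g + p.z * w) ^ 2) ≤ (1 + δ ^ 2) * ip b l ^ 2 :=
          le_trans (mul_le_mul_of_nonneg_right nb (by positivity)) h1
        have hc : 0 < 1 + δ ^ 2 := by positivity
        have hcz : 0 < 1 + δ ^ 2 + p.z ^ 2 := by positivity
        have h4 : n ^ 2 * ((1 + δ ^ 2) * g ^ 2) ≤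
            (1 + δ ^ 2 + p.z ^ 2) * ((1 + δ ^ 2) * ip b l ^ 2) := by
          calc n ^ 2 * ((1 + δ ^ 2) * g ^ 2) ≤ n ^ 2 * ((1 + δ ^ 2 + p.z ^ 2) *
                ((1 + δ ^ 2) * w ^ 2 + (g + p.z * w) ^ 2)) :=
                mul_le_mul_of_nonneg_left h2 (sq_nonneg _)
            _ = (1 + δ ^ 2 + p.z ^ 2) *
                (n ^ 2 * ((1 + δ ^ 2) * w ^ 2 + (g + p.z * w) ^ 2)) := by ring
            _ ≤ _ := mul_le_mul_of_nonneg_left h3 hcz.le
        have h5 : n ^ 2 * g ^ 2 ≤ (1 + δ ^ 2 + p.z ^ 2) * ip b l ^ 2 := by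
          have : (1 + δ ^ 2) * (n ^ 2 * g ^ 2) ≤
            (1 + δ ^ 2) * ((1 + δ ^ 2 + p.z ^ 2) * ip b l ^ 2) := by nlinarith
          exact le_of_mul_le_mul_left this hc
        have h6 : (1 + δ ^ 2 + p.z ^ 2) * e ^ 2 ≤ (1 + δ ^ 2 + p.z ^ 2) * (N ^ 2 * ip b l ^ 2) := by
          calc (1 + δ ^ 2 + p.z ^ 2) * e ^ 2 ≤ N ^ 2 * n ^ 2 * e ^ 2 :=
                mul_le_mul_of_nonneg_right hNn (sq_nonneg _)
            _ = N ^ 2 * (n ^ 2 * g ^ 2) := by rw [lE2]; ring
            _ ≤ N ^ 2 * ((1 + δ ^ 2 + p.z ^ 2) * ip b l ^ 2) :=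
                mul_le_mul_of_nonneg_left h5 (sq_nonneg _)
            _ = _ := by ring
        exact le_of_mul_le_mul_left h6 hcz
      · have h1 := side hb cl (E := s3) (by rw [hD.b3]; simp) (C := 1) (by rw [hM.n3]; norm_num)
        rw [ll] at h1
        have h2 : n ^ 2 * ip l s3 ^ 2 ≤ ip b l ^ 2 := by
          have := mul_le_mul_of_nonneg_right nb (sq_nonneg (ip l s3))
          linarith
        have h3 : ip l E1 ^ 2 ≤ p.z ^ 2 * ip l s3 ^ 2 := by
          -- g and g + z w have opposite signs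
          set g := ip l E1
          set w := ip l s3
          rw [lE3] at hB
          have h4 : g * (g + p.z * w) ≤ 0 := by
            have hb0 : ip b E3 ≠ 0 := by intro h0; rw [h0] at hB; simp at hB
            have h5 : 0 < ip b E3 ^ 2 := by positivity
            have h6 : ip b E3 ^ 2 * (g * (g + p.z * w)) ≤ 0 := by
              have : ip b E3 ^ 2 * (g * (g + p.z * w)) =
                (ip b E3 * g) * (ip b E3 * (g + p.z * w)) := by ring
              rw [this]; exact mul_nonpos_of_nonpos_of_nonneg hprod hB.le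
            by_contra hc
            push Not at hc
            have := mul_pos h5 hc
            linarith
          nlinarith [sq_nonneg (g + p.z * w)]
        have hcz : 0 < 1 + δ ^ 2 + p.z ^ 2 := by positivity
        have h6 : (1 + δ ^ 2 + p.z ^ 2) * e ^ 2 ≤ (1 + δ ^ 2 + p.z ^ 2) * (N ^ 2 * ip b l ^ 2) := by
          calc (1 + δ ^ 2 + p.z ^ 2) * e ^ 2 ≤ N ^ 2 * n ^ 2 * e ^ 2 :=
                mul_le_mul_of_nonneg_right hNn (sq_nonneg _)
            _ ≤ N ^ 2 * n ^ 2 * (p.z ^ 2 * ip l s3 ^ 2) := by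
                rw [← lE2]; exact mul_le_mul_of_nonneg_left h3 (by positivity)
            _ = N ^ 2 * p.z ^ 2 * (n ^ 2 * ip l s3 ^ 2) := by ring
            _ ≤ N ^ 2 * p.z ^ 2 * ip b l ^ 2 := mul_le_mul_of_nonneg_left h2 (by positivity)
            _ = p.z ^ 2 * (N ^ 2 * ip b l ^ 2) := by ring
            _ ≤ _ := by
                apply mul_le_mul_of_nonneg_right _ (by positivity)
                nlinarith [sq_nonneg δ]
        exact le_of_mul_le_mul_left h6 hcz
  -- conclusion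
  set W := a + pr s1 b with hW
  have W1 : ip W s1 = 0 := by rw [hW, ip_add_left, hD.a1, ip_pr_self hM.n1, add_zero]
  have Wl : ∀ l : L, ip l s1 = 0 → ip W l = ip a l + ip b l := by
    intro l hl; rw [hW, ip_add_left, ip_pr hl]
  have k1 := key 1 (by norm_num)
  have k2 := key (-1) (by norm_num)
  have l1 : ∀ s : ℝ, ip (η • T + s • E1) s1 = 0 := by
    intro s; rw [ip_add_left, ip_smul_left, ip_smul_left, T1, E11]; ring
  rw [← Wl _ (l1 1), ip_add_right, ip_smul_right, ip_smul_right] at k1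
  rw [← Wl _ (l1 (-1)), ip_add_right, ip_smul_right, ip_smul_right] at k2
  have fin : ∀ σ : ℝ, σ * σ = 1 → Cn (N • W + σ • T) := by
    intro σ hσ
    have V1 : ip (N • W + σ • T) s1 = 0 := by
      rw [ip_add_left, ip_smul_left, ip_smul_left, W1, T1]; ring
    have VT : ip (N • W + σ • T) T = N * ip W T + σ * e := by
      rw [ip_add_left, ip_smul_left, ip_smul_left, nT]
    have VE : ip (N • W + σ • T) E1 = N * ip W E1 := by
      rw [ip_add_left, ip_smul_left, ip_smul_left, TE]; ring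
    have hPars := parseval (V := N • W + σ • T) (s := s1) (T := T) (E := E1)
      (by rw [hM.n1]; norm_num) (by rw [nT]; exact he0.ne') (by rw [nE]; linarith)
      (by rw [ip_comm, T1]) (by rw [ip_comm, E11]) TE V1
    rw [VT, VE, nT, nE] at hPars
    have hση : σ * η = 1 ∨ σ * η = -1 := by
      have : (σ * η) * (σ * η) = 1 := by
        have : (σ * η) * (σ * η) = (σ * σ) * (η * η) := by ring
        rw [this, hσ, hη, one_mul]
      exact mul_self_eq_one_iff.1 this
    have hmain : |N * ip W E1| ≤ η * (N * ip W T) + σ * η * e := by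
      rw [abs_le]
      rcases hση with h | h <;> rw [h] <;> constructor <;> nlinarith
    have h0 : 0 ≤ η * (N * ip W T) + σ * η * e := le_trans (abs_nonneg _) hmain
    apply Cn_of_ip hηC (by rw [hηT]; exact he0)
    · rw [hPars]
      have : (N * ip W T + σ * e) ^ 2 / e + (N * ip W E1) ^ 2 / -e =
        ((N * ip W T + σ * e) ^ 2 - (N * ip W E1) ^ 2) / e := by field_simp; ring
      rw [this]
      apply div_nonneg _ he0.le
      have h2 : (N * ip W T + σ * e) ^ 2 = (η * (N * ip W T) + σ * η * e) ^ 2 := by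
        have : (η * (N * ip W T) + σ * η * e) ^ 2 = (η * η) * (N * ip W T + σ * e) ^ 2 := by ring
        rw [this, hη, one_mul]
      rw [h2, ← sq_abs (N * ip W E1)]
      have := pow_le_pow_left₀ (abs_nonneg _) hmain 2
      linarith
    · rw [ip_smul_left, ip_comm T, VT]
      have : η * (N * ip W T + σ * e) = η * (N * ip W T) + σ * η * e := by ring
      rw [this]; exact h0
  have f1 := fin 1 (by norm_num)
  have f2 := fin (-1) (by norm_num)
  rw [one_smul] at f1
  rw [neg_one_smul, ← sub_eq_add_neg] at f2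
  exact ⟨f1, f2⟩

theorem tDrift : TDrift := by
  intro δ hδ
  have hc := cc_sq δ
  have hcp := cc_pos δ
  have hc1 := one_lt_cc hδ
  have hδ0 : 0 < |δ| := abs_pos.2 hδ
  refine ⟨2 * cc δ / |δ|, by positivity, ?_⟩
  intro d hd j M hj hM p hS hz hyM hyj
  obtain ⟨i, rfl⟩ : ∃ i, j = i + 1 := ⟨j - 1, by omega⟩
  obtain ⟨l, rfl⟩ : ∃ l, M = (i + 1) + (l + 2) := ⟨M - (i + 1) - 2, by omega⟩
  obtain ⟨t1, t2, t3, a, b, η, hη, hT, hD, ha, hb, na, nb⟩ := stage hδ hd hS hz (i + 1)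
  obtain ⟨g1, g2, g3, g4⟩ := gr_ge hd hδ0.le i
  set P := orb d p (i + 1) with hP
  set d' : ℕ → ℕ := fun k => d (i + 1 + k) with hd'
  have hSP : OnS δ P := hS.orb d (i + 1)
  set n : ℝ := |δ| * 2 ^ (i / 2) with hn
  have hn0 : 0 < n := by positivity
  have n1 : n ≤ (gr d 0 |δ| (i + 1)).1 := g2
  have n2 : n ≤ (gr d 0 |δ| (i + 1)).2 := by
    refine le_trans ?_ g4
    apply mul_le_mul_of_nonneg_left _ hδ0.le
    exact pow_le_pow_right₀ (by norm_num) (by omega)
  set N : ℝ := cc δ * (1 + |P.z|) / n with hN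
  have hN0 : 0 ≤ N := by positivity
  have hNn : 1 + δ ^ 2 + P.z ^ 2 ≤ N ^ 2 * n ^ 2 := by
    have : N ^ 2 * n ^ 2 = (cc δ * (1 + |P.z|)) ^ 2 := by
      rw [hN, div_pow, div_mul_cancel₀ _ (by positivity)]
    rw [this, mul_pow, hc, ← sq_abs P.z]
    nlinarith [abs_nonneg P.z, sq_nonneg δ, mul_nonneg (sq_nonneg δ) (abs_nonneg P.z),
      mul_nonneg (sq_nonneg δ) (sq_nonneg |P.z|)]
  have hyP : P.y ^ 2 < 1 + δ ^ 2 := by
    rw [← hc, ← sq_abs]; exact pow_lt_pow_left₀ hyj (abs_nonneg _) two_ne_zero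
  obtain ⟨D1, D2⟩ := domH hδ hSP hT hD ha hb hn0
    (le_trans (pow_le_pow_left₀ hn0.le n1 2) na) (le_trans (pow_le_pow_left₀ hn0.le n2 2) nb)
    hN0 hNn hyP
  obtain ⟨w, hw1, hw2⟩ := yword d' (fun k => hd _) l
  have hx : (run w (stepR P)).x ^ 2 < 1 + δ ^ 2 := by
    rw [← hw1, ← orb_add, ← hc, ← sq_abs]
    exact pow_lt_pow_left₀ hyM (abs_nonneg _) two_ne_zero
  have DH := (aH_dat hδ hSP hT).R hT
  rw [pr_zero, pr_zero, add_zero] at DH
  have hMR := hT.R
  have main := dom hδ hSP.R hMR w hx (hD.R hT) DH (Cn_add ha (Cn_pr hT.n1 hb)) (Cn_pr hMR.n3 hb)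
    (N := N) D1 D2 (by rw [add_zero]; exact Cn_smul (Cn_pr hMR.n3 hb) hN0)
    (by rw [sub_zero]; exact Cn_smul (Cn_pr hMR.n3 hb) hN0)
  rw [← hw2, ← hw2, dorb_lc, ← dorb_add] at main
  have eη : |(lc η (dorb d p (fV p) (i + 1 + (l + 2))) 0
      (dorb d p (fV p) (i + 1 + (l + 2)))).y| = |Vy d (i + 1 + (l + 2)) p| := by
    rw [lc_zero]; simp only; rw [abs_mul]
    rcases hη with h | h <;> rw [h] <;> simp [Vy]
  rw [eη] at main
  obtain ⟨s, hs, hL⟩ := LF_stage d (i + 1) (l + 2)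
  have e1 : |(dorb d p (LF d (i + 1 + (l + 2)) p) (i + 1)).y| =
      |(dorb d' P (fH P) (l + 2)).y| := by
    rw [hL, lc_zero]; simp only; rw [abs_mul]
    rcases hs with h | h <;> rw [h] <;> simp [LF, hd', hP]
  have e2 : |(LF d (i + 1 + (l + 2)) p).z| = |Vy d (i + 1 + (l + 2)) p| := rfl
  rw [e1, e2]
  have h2 : (2:ℝ) ^ ((i + 1) / 2) ≤ 2 * 2 ^ (i / 2) := by
    rw [← pow_succ']
    exact pow_le_pow_right₀ (by norm_num) (by omega)
  have hV := abs_nonneg (Vy d (i + 1 + (l + 2)) p)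
  calc |(dorb d' P (fH P) (l + 2)).y| * 2 ^ ((i + 1) / 2)
      ≤ (N * |Vy d (i + 1 + (l + 2)) p|) * (2 * 2 ^ (i / 2)) :=
        mul_le_mul main h2 (by positivity) (by positivity)
    _ = 2 * cc δ / |δ| * (1 + |P.z|) * |Vy d (i + 1 + (l + 2)) p| := by
        rw [hN, hn]; field_simp

end Pool.Agent.W811.Stu
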