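import Mathlib
import Pool.Agent.W811.Stu.Grow

/-!
The twist condition.
-/

set_option autoImplicit false

namespace Pool.Agent.W811.Stu

variable {δ : ℝ} {p : P3} {s1 s2 s3 a b : L} {u : P3}

/-- the vector representing the differential of the second trace -/
def Qv (p : P3) (s1 s2 s3 : L) : L := (1 - p.y ^ 2) • s1 - gA p • s2 - gX p • s3

lemma Qv_2 (h : Mir p s1 s2 s3) : ip (Qv p s1 s2 s3) s2 = 0 := by
  have hy' := h.hy; rw [ip_comm] at hy'
  simp only [Qv, ip_sub_left, ip_smul_left, h.n2, hy', h.hz]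
  unfold gA gX; ring

lemma Qv_3 (h : Mir p s1 s2 s3) : ip (Qv p s1 s2 s3) s3 = 0 := by
  simp only [Qv, ip_sub_left, ip_smul_left, h.n3, h.hy, h.hx]
  unfold gA gX; ring

lemma Qv_1 (hS : OnS δ p) (h : Mir p s1 s2 s3) : ip (Qv p s1 s2 s3) s1 = δ ^ 2 := by
  have hx' := h.hx; rw [ip_comm] at hx'
  have hz' := h.hz; rw [ip_comm] at hz'
  simp only [Qv, ip_sub_left, ip_smul_left, h.n1, hx', hz']
  unfold OnS at hS
  unfold gA gX; linear_combination hS

lemma Qv_n (hS : OnS δ p) (h : Mir p s1 s2 s3) :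
    ip (Qv p s1 s2 s3) (Qv p s1 s2 s3) = (1 - p.y ^ 2) * δ ^ 2 := by
  have e : ip (Qv p s1 s2 s3) (Qv p s1 s2 s3) = (1 - p.y ^ 2) * ip (Qv p s1 s2 s3) s1
      - gA p * ip (Qv p s1 s2 s3) s2 - gX p * ip (Qv p s1 s2 s3) s3 := by
    conv_lhs => rw [Qv, ip_sub_left, ip_sub_left, ip_smul_left, ip_smul_left, ip_smul_left]
    rw [ip_comm s2, ip_comm s1, ip_comm s3]
    rfl
  rw [e, Qv_1 hS h, Qv_2 h, Qv_3 h]; ring

lemma aH_Qv (hδ : δ ≠ 0) (hS : OnS δ p) (h : Mir p s1 s2 s3) :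
    ip (aH δ p s1 s2 s3) (Qv p s1 s2 s3) = δ * (1 + δ ^ 2 - p.y ^ 2) := by
  rw [Qv, ip_sub_right, ip_sub_right, ip_smul_right, ip_smul_right, ip_smul_right,
    aH_1 hδ hS h, aH_2 hδ h, aH_3 hδ h]
  unfold OnS at hS
  unfold gA gX; linear_combination δ * hS

/-- the twist inequality from cone data -/
theorem twist (hδ : 0 < δ) (hS : OnS δ p) (hM : Mir p s1 s2 s3) (hD : Dat δ p s1 s2 s3 a b u)
    (ha : Cn a) (hb : Cn b) (hbb : 0 < ip b b) (hy : |p.y| < 1) :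
    u.y ≠ 0 ∧ -(δ * |p.z| * u.y ^ 2) ≤
      ((1 - p.y ^ 2) * (u.x * p.z - u.z * p.x) - u.y * p.z * gA p) * u.y := by
  have hδ2 : 0 < δ ^ 2 := by positivity
  have hy2 : p.y ^ 2 < 1 := by rw [← sq_abs]; nlinarith [abs_nonneg p.y]
  set T := aH δ p s1 s2 s3 with hT
  set Q := Qv p s1 s2 s3 with hQ
  have nT : ip T T = 1 + δ ^ 2 - p.y ^ 2 := aH_norm hδ.ne' hS hM
  have nT0 : 0 < ip T T := by rw [nT]; linarith
  have nQ : ip Q Q = (1 - p.y ^ 2) * δ ^ 2 := Qv_n hS hM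
  have nQ0 : 0 < ip Q Q := by rw [nQ]; exact mul_pos (by linarith) hδ2
  have TQ : ip T Q = δ * (1 + δ ^ 2 - p.y ^ 2) := aH_Qv hδ.ne' hS hM
  obtain ⟨η, hη, hηC⟩ : ∃ η : ℝ, η * η = 1 ∧ Cn (η • T) := by
    rcases Cn_or nT0.le with h | h
    · exact ⟨1, by norm_num, by rwa [one_smul]⟩
    · exact ⟨-1, by norm_num, by rwa [neg_one_smul]⟩
  have hηT : 0 < ip (η • T) (η • T) := by
    rw [ip_smul_left, ip_smul_right, ← mul_assoc, hη, one_mul]; exact nT0
  have cQ : Cn (η • Q) := by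
    apply Cn_of_ip hηC hηT
    · rw [ip_smul_left, ip_smul_right, ← mul_assoc, hη, one_mul]; exact nQ0.le
    · rw [ip_smul_left, ip_smul_right, ← mul_assoc, hη, one_mul, TQ]
      exact mul_nonneg hδ.le (by linarith)
  have Q0 : η • Q ≠ 0 := by
    intro h0
    have h1 : ip (η • Q) (η • Q) = 0 := by rw [h0]; simp
    rw [ip_smul_left, ip_smul_right, ← mul_assoc, hη, one_mul] at h1
    linarith
  have pb : 0 < ip b (η • Q) := ip_pos hb hbb cQ Q0
  have pa : 0 ≤ ip a (η • T) := ip_nonneg ha hηC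
  rw [ip_smul_right] at pa pb
  have euy : δ * u.y = -ip b Q := by
    rw [hD.uy, hQ, Qv, ip_sub_right, ip_sub_right, ip_smul_right, ip_smul_right, ip_smul_right,
      hD.b3]; ring
  have haT : ip a T = -(1 / δ) * (gA p * ip a s2 + gX p * ip a s3) := by
    rw [hT, ip_comm, aH_ip, hD.a1]; ring
  -- the twist quantity
  have eG : δ * ((1 - p.y ^ 2) * (u.x * p.z - u.z * p.x) - u.y * p.z * gA p) =
      -(δ * (1 - p.y ^ 2) * ip a T) - δ ^ 2 * p.z * ip b s2 := by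
    have h1 : δ * ((1 - p.y ^ 2) * (u.x * p.z - u.z * p.x) - u.y * p.z * gA p) =
      (1 - p.y ^ 2) * ((δ * u.x) * p.z - (δ * u.z) * p.x) - (δ * u.y) * p.z * gA p := by ring
    rw [h1, hD.ux, hD.uz, hD.uy, haT]
    unfold OnS at hS
    unfold gA gB gX
    field_simp
    linear_combination (-(p.z * ip b s2)) * hS
  have hb2 : ip b s2 ^ 2 ≤ u.y ^ 2 := by
    set E : L := s2 - p.y • s3 with hE
    have hy' := hM.hy; rw [ip_comm] at hy'
    have nE : ip E E = -(1 - p.y ^ 2) := by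
      simp only [hE, ip_sub_left, ip_sub_right, ip_smul_left, ip_smul_right, hM.n2, hM.n3, hM.hy,
        hy']; ring
    have bE : ip b E = ip b s2 := by
      rw [hE, ip_sub_right, ip_smul_right, hD.b3]; ring
    have QE : ip Q E = 0 := by
      rw [hE, ip_sub_right, ip_smul_right, hQ, Qv_2 hM, Qv_3 hM]; ring
    have hG := gram_nonneg b Q E
    rw [QE, nE, bE, nQ] at hG
    have h1 : 0 < 1 - p.y ^ 2 := by linarith
    have h2 : (1 - p.y ^ 2) * (δ ^ 2 * ip b s2 ^ 2) ≤ (1 - p.y ^ 2) * ip b Q ^ 2 := by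
      have : 0 ≤ ip b b * ((1 - p.y ^ 2) * δ ^ 2) * (1 - p.y ^ 2) := by positivity
      nlinarith
    have h3 := le_of_mul_le_mul_left h2 h1
    have h4 : ip b Q ^ 2 = δ ^ 2 * u.y ^ 2 := by
      have : ip b Q = -(δ * u.y) := by linarith
      rw [this]; ring
    rw [h4] at h3
    exact le_of_mul_le_mul_left h3 hδ2
  constructor
  · intro h0
    rw [h0] at euy
    have : ip b Q = 0 := by linarith
    rw [this] at pb; simp at pb
  · have h1 : δ * (((1 - p.y ^ 2) * (u.x * p.z - u.z * p.x) - u.y * p.z * gA p) * u.y) =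
        (1 - p.y ^ 2) * ((η * ip a T) * (η * ip b Q)) - δ ^ 2 * p.z * ip b s2 * u.y := by
      have e1 : δ * (((1 - p.y ^ 2) * (u.x * p.z - u.z * p.x) - u.y * p.z * gA p) * u.y) =
        (δ * ((1 - p.y ^ 2) * (u.x * p.z - u.z * p.x) - u.y * p.z * gA p)) * u.y := by ring
      have e2 : (η * ip a T) * (η * ip b Q) = (η * η) * (ip a T * ip b Q) := by ring
      rw [e1, eG, e2, hη]
      linear_combination (-(1 - p.y ^ 2) * ip a T) * euy
    have h2 : 0 ≤ (1 - p.y ^ 2) * ((η * ip a T) * (η * ip b Q)) :=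
      mul_nonneg (by linarith) (mul_nonneg pa pb.le)
    have h3 : p.z * ip b s2 * u.y ≤ |p.z| * u.y ^ 2 := by
      have : |ip b s2| ≤ |u.y| := sq_le_sq.1 hb2
      calc p.z * ip b s2 * u.y ≤ |p.z * ip b s2 * u.y| := le_abs_self _
        _ = |p.z| * |ip b s2| * |u.y| := by rw [abs_mul, abs_mul]
        _ ≤ |p.z| * |u.y| * |u.y| := by gcongr
        _ = |p.z| * u.y ^ 2 := by rw [mul_assoc, abs_mul_abs_self]; ring
    have h4 : δ * (-(δ * |p.z| * u.y ^ 2)) ≤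
        δ * (((1 - p.y ^ 2) * (u.x * p.z - u.z * p.x) - u.y * p.z * gA p) * u.y) := by
      rw [h1]; nlinarith
    exact le_of_mul_le_mul_left h4 hδ

theorem tTwist : TTwist := by
  intro lam hlam d hd n E hy
  have hδ : (0:ℝ) < lam / 2 := by positivity
  obtain ⟨t1, t2, t3, a, b, η, hη, hT, hD, ha, hb, -, nb⟩ :=
    stage hδ.ne' hd (onS_lin lam E) (by simp [lin]) n
  obtain ⟨-, g2, -, -⟩ := gr_ge hd (abs_nonneg (lam / 2)) n
  have hbb : 0 < ip b b := by
    refine lt_of_lt_of_le ?_ nb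
    have : 0 < (gr d 0 |lam / 2| n).2 := lt_of_lt_of_le (by positivity) g2
    positivity
  obtain ⟨h1, h2⟩ := twist hδ ((onS_lin lam E).orb d n) hT hD ha hb hbb hy
  set u := dorb d (lin lam E) ⟨0, 1 / 2, 1 / 2⟩ n with hu
  have e : lc η (dorb d (lin lam E) (fV (lin lam E)) n) 0 (dorb d (lin lam E) (fV (lin lam E)) n) =
      ⟨-(η * lam) * u.z, -(η * lam) * u.y, -(η * lam) * u.x⟩ := by
    rw [lc_zero, fV_lin, dorb_lc, ← hu]
    unfold lc; ext <;> simp only <;> ring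
  rw [e] at h1 h2
  simp only at h1 h2
  have hη2 : (η * lam) ^ 2 = lam ^ 2 := by
    rcases hη with h | h <;> rw [h] <;> ring
  refine ⟨fun h0 => h1 (by rw [h0]; ring), ?_⟩
  have hl2 : 0 < lam ^ 2 := by positivity
  refine le_of_mul_le_mul_left ?_ hl2
  have e1 : lam ^ 2 * -(lam / 2 * |(orb d (lin lam E) n).z| * u.y ^ 2) =
      -(lam / 2 * |(orb d (lin lam E) n).z| * (-(η * lam) * u.y) ^ 2) := by
    have : (-(η * lam) * u.y) ^ 2 = (η * lam) ^ 2 * u.y ^ 2 := by ring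
    rw [this, hη2]; ring
  have e2 : lam ^ 2 * (((1 - (orb d (lin lam E) n).y ^ 2) * (u.x * (orb d (lin lam E) n).z
      - u.z * (orb d (lin lam E) n).x) - u.y * (orb d (lin lam E) n).z
      * gA (orb d (lin lam E) n)) * u.y) =
      ((1 - (orb d (lin lam E) n).y ^ 2) * (-(η * lam) * u.x * (orb d (lin lam E) n).z
      - -(η * lam) * u.z * (orb d (lin lam E) n).x) - -(η * lam) * u.y * (orb d (lin lam E) n).z
      * gA (orb d (lin lam E) n)) * (-(η * lam) * u.y) := by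
    rw [← hη2]; ring
  rw [e1, e2]
  exact h2

end Pool.Agent.W811.Stu
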