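import Mathlib
import Pool.Agent.W811.Stu.Defs

/-!
Statements of the independent parts of the project (frequency independence of the Sturmian
spectral dimension).
-/

set_option autoImplicit false

open MeasureTheory Filter Polynomial

namespace Pool.Agent.W811.Stu

/-- spectrum = trace condition, for frequencies with infinitely many pairs of digits `≥ 3` -/
def TOp : Prop :=
  ∀ lam : ℝ, 0 < lam → ∀ α : ℝ, Irrational α → 0 < α → α < 1 →
    (∃ᶠ k in atTop, 3 ≤ dig α k ∧ 3 ≤ dig α (k + 1)) →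
    ∀ T : lp (fun _ : ℤ => ℂ) 2 →L[ℂ] lp (fun _ : ℤ => ℂ) 2, IsSturm lam α T →
      {E : ℝ | (E : ℂ) ∈ spectrum ℂ T} = Sp lam (dig α)

/-- almost every point visits a set of positive measure under the Gauss map -/
def TErg : Prop :=
  ∀ D : Set ℝ, MeasurableSet D → volume (D ∩ Set.Ioo 0 1) ≠ 0 →
    ∀ᵐ α ∂(volume.restrict (Set.Ioo (0:ℝ) 1)), ∃ n, gauss^[n] α ∈ D

/-- the digits grow at most polynomially, almost surely -/
def TDig : Prop :=
  ∀ᵐ α ∂(volume.restrict (Set.Ioo (0:ℝ) 1)), ∀ᶠ n : ℕ in atTop, dig α n ≤ (n + 1) ^ 2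

/-- measurability of the Hausdorff dimension of nested compact sets which depend on the digits -/
def TMeas : Prop :=
  ∀ (C : ℕ → (ℕ → ℕ) → Set ℝ),
    (∀ n d, IsCompact (C n d)) → (∀ n d, C (n + 1) d ⊆ C n d) →
    (∀ n d d', (∀ k < n, d k = d' k) → C n d = C n d') →
    ∀ t : ENNReal, MeasurableSet {α : ℝ | Irrational α ∧ α ∈ Set.Ioo (0:ℝ) 1 ∧
      t ≤ dimH (⋂ n, C n (dig α))}

/-- Laguerre inequality from real zeros and large critical values -/
def TLag : Prop :=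
  ∀ (F : ℝ[X]) (c : ℝ), 0 < c → 1 ≤ F.natDegree →
    (∀ w : ℂ, aeval w F = 0 → w.im = 0) →
    (∀ E : ℝ, |F.eval E| < c → F.derivative.eval E ≠ 0) →
    (∀ E : ℝ, |F.eval E| < c →
      |F.derivative.derivative.eval E| * (c - |F.eval E|) ≤ (F.derivative.eval E) ^ 2) ∧
    (∀ E κ : ℝ, 0 < κ → κ < c → |F.eval E| ≤ κ → ∃ u v : ℝ, u ≤ E ∧ E ≤ v ∧ u < v ∧
      (∀ e ∈ Set.Icc u v, |F.eval e| ≤ κ) ∧
      ((F.eval u = -κ ∧ F.eval v = κ) ∨ (F.eval u = κ ∧ F.eval v = -κ)))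

end Pool.Agent.W811.Stu
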