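import Mathlib
import Pool.Agent.W811.Stu.Twist
import Pool.Agent.W811.Stu.Drift
import Pool.Agent.W811.Stu.Stmts4
import Pool.Agent.W374.SD.Flow
import Pool.Agent.W366.Stu.LeafEx
import Pool.Agent.W366.Stu.Exit
import Pool.Agent.W965.Stu.PD
import Pool.Agent.W965.Stu.Dist
import Pool.Agent.W571.Stu.Edge
import Pool.Agent.W571.Stu.Rev
import Pool.Agent.W216.Stu.Hyp
import Pool.Agent.W816.Stu.BddL
import Pool.Agent.W101.Stu.Ratio
import Pool.Agent.W816.Stu.LeafC
import Pool.Agent.W816.Stu.LeafT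
import Pool.Agent.W816.Stu.Join
import Pool.Agent.W965.Stu.HolEx
import Pool.Agent.W338.Stu.Comp
import Pool.Agent.W965.Stu.KeyA
import Pool.Agent.W816.Stu.HolA
import Pool.Agent.W816.Stu.HolB
import Pool.Agent.W101.Stu.Holn
import Pool.Agent.W338.Stu.Holc
import Pool.Agent.W965.Stu.FinH
import Pool.Agent.W965.Stu.FinB
import Pool.Agent.W965.Stu.Op
import Pool.Agent.W308.Stu.Bdd
import Pool.Agent.W308.Stu.Cross

/-!
Assembly.
-/

set_option autoImplicit false

namespace Pool.Agent.W811.Stu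

open Pool.Agent

theorem tFlow : TFlow := W374.SD.flow tEquiv
theorem tLeafEx : TLeafEx := W366.Stu.leafEx tFlow
theorem tExit : TExit := W366.Stu.exit tFlow tLeafEx
theorem tDist : TDist := W965.Stu.Dist.dist W965.Stu.PD.pd
theorem tEdge : TEdge := W571.Stu.edge W965.Stu.PD.pd tDist tEquiv
theorem tBddL : TBddL := W816.Stu.bddL
theorem tHyp : THyp := W216.Stu.Hyp.hyp
theorem tRatio : TRatio := W101.Stu.ratio W571.Stu.rev W216.Stu.Hyp.ell
theorem tLeafC : TLeafC := W816.Stu.leafC tDrift tBddL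
theorem tLeafT : TLeafT := W816.Stu.leafT tLeafC tBddL tHyp
theorem tJoin : TJoin := W816.Stu.join
theorem tJoin2 : TJoin2 := W816.Stu.join2 tLeafC
theorem tComp : TComp := W338.Stu.comp tExit tEdge tDist tLB tJoin
theorem tHolEx : THolEx := W965.Stu.HolEx.holEx W308.Stu.tCross tLeafEx tBddL tDist tTwist
theorem tHA : THA := W816.Stu.hola tExit tDist tJoin tJoin2 tLeafC tLeafT tHyp
theorem tHB : THB := W816.Stu.holb tComp tJoin tLeafC tLeafT
theorem tHN : THN := W101.Stu.holn tRatio tHyp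
theorem tHol : THol := W338.Stu.hol tHA tHB tHN tLB tHyp

/-- the key statement -/
theorem key : Key := W965.Stu.KeyA.key tHolEx tHol

/-- Hausdorff dimension -/
theorem tFinH : TFinH := W965.Stu.finH key W965.Stu.tOp W308.Stu.tBdd

/-- upper box dimension -/
theorem tFinB : TFinB := W965.Stu.finB key W965.Stu.tOp W308.Stu.tBdd

end Pool.Agent.W811.Stu
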