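import Mathlib
import Pool.Agent.W811.Stu.Final
import Pool.Agent.H695R3.ST.Trunc
import Pool.Agent.H695R3.ST.Near

/-!
The spectrum of the Sturmian operator does not depend on the phase.
-/

set_option autoImplicit false

open MeasureTheory

namespace Pool.Agent.W811.Stu

open Pool.Agent.H695R3.ST Pool.Agent.Helper434.PSCplx

/-- the orbit of an irrational rotation comes close to every point, from above -/
lemma exists_fract_lt {α : ℝ} (hα : Irrational α) (x : ℝ) {ε : ℝ} (hε : 0 < ε) :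
    ∃ s : ℤ, Int.fract (x + s * α) < ε := by
  have hd : Dense (AddSubgroup.closure {α, 1} : Set ℝ) :=
    dense_addSubgroupClosure_pair_iff.2 (by rwa [div_one])
  have hm : 0 < min ε 1 := lt_min hε one_pos
  obtain ⟨y, hy, hyI⟩ := hd.exists_mem_open (isOpen_Ioo (a := -x) (b := -x + min ε 1))
    ⟨-x + min ε 1 / 2, by linarith, by linarith⟩
  obtain ⟨m, n, h⟩ := AddSubgroup.mem_closure_pair.1 hy
  rw [zsmul_eq_mul, zsmul_eq_mul, mul_one] at h
  refine ⟨m, ?_⟩
  have h1 := hyI.1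
  have h2 := hyI.2
  have e1 := min_le_left ε 1
  have e2 := min_le_right ε 1
  have : Int.fract (x + m * α) = x + m * α + n := by
    rw [Int.fract_eq_iff]
    refine ⟨by linarith, by linarith, -n, by push_cast; ring⟩
  rw [this]
  linarith

/-- every finite window of the potential with phase `ω` occurs with phase `ω'` -/
lemma window {lam α : ℝ} (hα : Irrational α) (ω ω' : ℝ) (R : ℕ) (j : ℤ) :
    ∃ s : ℤ, ∀ n, j ≤ n → n < j + R → pot lam α ω' (n + s) = pot lam α ω n := by
  -- a common margin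
  obtain ⟨ε, hε, hb⟩ : ∃ ε : ℝ, 0 < ε ∧ ∀ n ∈ Finset.Ico j (j + R),
      Int.fract (ω + n * α) + ε < 1 ∧
      (Int.fract (ω + n * α) < 1 - α → Int.fract (ω + n * α) + ε < 1 - α) := by
    induction (Finset.Ico j (j + R)) using Finset.induction_on with
    | empty => exact ⟨1, one_pos, by simp⟩
    | insert a S _ ih =>
      obtain ⟨ε, hε, hb⟩ := ih
      have hf := Int.fract_lt_one (ω + a * α)
      set f := Int.fract (ω + a * α) with hf'
      obtain ⟨ε', hε', h1, h2⟩ : ∃ ε' : ℝ, 0 < ε' ∧ f + ε' < 1 ∧ (f < 1 - α → f + ε' < 1 - α) := by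
        by_cases h : f < 1 - α
        · refine ⟨min ((1 - f) / 2) ((1 - α - f) / 2), lt_min (by linarith) (by linarith), ?_,
            fun _ => ?_⟩
          · have := min_le_left ((1 - f) / 2) ((1 - α - f) / 2); linarith
          · have := min_le_right ((1 - f) / 2) ((1 - α - f) / 2); linarith
        · exact ⟨(1 - f) / 2, by linarith, by linarith, fun h' => absurd h' h⟩
      refine ⟨min ε ε', lt_min hε hε', fun n hn => ?_⟩
      have m1 := min_le_left ε ε'
      have m2 := min_le_right ε ε'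
      rcases Finset.mem_insert.1 hn with h | h
      · subst h
        exact ⟨by linarith, fun h' => by have := h2 h'; linarith⟩
      · obtain ⟨k1, k2⟩ := hb n h
        exact ⟨by linarith, fun h' => by have := k2 h'; linarith⟩
  obtain ⟨s, hs⟩ := exists_fract_lt hα (ω' - ω) hε
  refine ⟨s, fun n h1 h2 => ?_⟩
  obtain ⟨k1, k2⟩ := hb n (Finset.mem_Ico.2 ⟨h1, h2⟩)
  set t := Int.fract (ω' - ω + s * α) with ht
  have ht0 : 0 ≤ t := Int.fract_nonneg _
  have e : Int.fract (ω' + ((n + s : ℤ) : ℝ) * α) = Int.fract (ω + n * α) + t := by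
    rw [Int.fract_eq_iff]
    refine ⟨add_nonneg (Int.fract_nonneg _) ht0, by linarith,
      ⌊ω + n * α⌋ + ⌊ω' - ω + s * α⌋, ?_⟩
    have f1 := Int.floor_add_fract (ω + n * α)
    have f2 := Int.floor_add_fract (ω' - ω + s * α)
    rw [← ht] at f2
    push_cast
    linarith
  unfold pot
  rw [e]
  have f0 := Int.fract_nonneg (ω + n * α)
  by_cases h : 1 - α ≤ Int.fract (ω + n * α)
  · rw [if_pos h, if_pos (by linarith)]
  · rw [if_neg h, if_neg]
    rw [not_le] at h ⊢
    have := k2 h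
    linarith

/-- the spectrum does not depend on the phase -/
theorem spec_phase {lam α : ℝ} (hlam : 0 ≤ lam) (hα : Irrational α) {ω ω' : ℝ}
    {H H' : L2 →L[ℂ] L2} (hH : IsSchr (pot lam α ω) H) (hH' : IsSchr (pot lam α ω') H') :
    spectrum ℝ H ⊆ spectrum ℝ H' := by
  intro E hE
  have hs := schr_sa (pot_bound hlam α ω) hH
  have hs' := schr_sa (pot_bound hlam α ω') hH'
  have hcl : IsClosed (spectrum ℝ H') := (spectrum.isCompact H').isClosed
  rw [← hcl.closure_eq, Metric.mem_closure_iff]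
  intro ε hε
  obtain ⟨N, hN⟩ := exists_nat_gt (16 / (ε / 2) ^ 2)
  obtain ⟨E', hE', hd⟩ := transfer (R := N + 2) hH hH' hs hs' (half_pos hε) (by omega)
    (by push_cast; linarith) (fun j => window hα ω ω' (N + 2) j) hE
  exact ⟨E', hE', by rw [Real.dist_eq]; linarith⟩

lemma conv_spec (T : L2 →L[ℂ] L2) :
    {E : ℝ | (E : ℂ) ∈ spectrum ℂ T} = spectrum ℝ T := by
  ext E
  exact (spectrum.algebraMap_mem_iff ℂ : algebraMap ℝ ℂ E ∈ spectrum ℂ T ↔ E ∈ spectrum ℝ T)

/-- both dimensions, all phases -/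
theorem both : ∀ lam : ℝ, 0 < lam → ∃ (dH : ENNReal) (dB : EReal),
    ∀ᵐ α ∂(volume.restrict (Set.Ioo (0:ℝ) 1)), ∀ (ω : ℝ)
      (T : lp (fun _ : ℤ => ℂ) 2 →L[ℂ] lp (fun _ : ℤ => ℂ) 2), IsSchr (pot lam α ω) T →
      dimH {E : ℝ | (E : ℂ) ∈ spectrum ℂ T} = dH ∧ ubox {E : ℝ | (E : ℂ) ∈ spectrum ℂ T} = dB := by
  intro lam hlam
  obtain ⟨dH, hH⟩ := tFinH lam hlam
  obtain ⟨dB, hB⟩ := tFinB lam hlam
  refine ⟨dH, dB, ?_⟩
  have hirr : ∀ᵐ α ∂(volume.restrict (Set.Ioo (0:ℝ) 1)), Irrational α := by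
    apply ae_restrict_of_ae
    have : volume {α : ℝ | ¬ Irrational α} = 0 := by
      have e : {α : ℝ | ¬ Irrational α} = Set.range ((↑) : ℚ → ℝ) := by
        ext x; simp [Irrational]
      rw [e]
      exact (Set.countable_range _).measure_zero _
    exact this
  filter_upwards [hH, hB, hirr, ae_restrict_mem measurableSet_Ioo] with α h1 h2 hα hI ω T hT
  obtain ⟨T0, hT0, -⟩ := exists_schr (pot_bound hlam.le α 0)
  have hT0' : IsSturm lam α T0 := by
    intro u n
    rw [hT0 u n, pot_floor hI.1 hI.2]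
    congr 3
    push_cast
    simp only [zero_add]
  have e : {E : ℝ | (E : ℂ) ∈ spectrum ℂ T} = {E : ℝ | (E : ℂ) ∈ spectrum ℂ T0} := by
    rw [conv_spec, conv_spec]
    exact Set.Subset.antisymm (spec_phase hlam.le hα hT hT0) (spec_phase hlam.le hα hT0 hT)
  rw [e]
  exact ⟨h1 T0 hT0', h2 T0 hT0'⟩

end Pool.Agent.W811.Stu
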