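import Mathlib
import Pool.Agent.W811.Stu.Phase

/-!
Both dimensions are real numbers.
-/

set_option autoImplicit false

open MeasureTheory Filter Topology

namespace Pool.Agent.W811.Stu

open Pool.Agent.H695R3.ST Pool.Agent.Helper434.PSCplx
open Pool.Agent.W965.Stu

lemma ubox_nonneg (K : Set ℝ) : 0 ≤ ubox K := by
  rw [ubox_eq]
  refine le_trans ?_ (liminf_le_limsup)
  apply le_liminf_of_le
  · isBoundedDefault
  · filter_upwards [small_ev] with ε hε
    exact_mod_cast FN_nonneg K hε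

lemma covN_bdd {K : Set ℝ} {R : ℝ} (hR : 0 ≤ R) (hK : ∀ x ∈ K, |x| ≤ R) {ε : ℝ} (h : 0 < ε ∧ ε < 1) :
    (covN K ε : ℝ) ≤ (2 * R + 4) / ε := by
  classical
  obtain ⟨h0, h1⟩ := h
  set N : ℤ := ⌈R / ε⌉ with hN
  have hN0 : 0 ≤ N := Int.ceil_nonneg (by positivity)
  have hle : covN K ε ≤ ((Finset.Icc (-(N + 1)) N).image fun k : ℤ => (k : ℝ) * ε).card := by
    apply covN_le
    intro y hy
    have hy' := abs_le.1 (hK y hy)
    have e1 : (⌊y / ε⌋ : ℝ) ≤ y / ε := Int.floor_le _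
    have e2 : y / ε < ⌊y / ε⌋ + 1 := Int.lt_floor_add_one _
    rw [le_div_iff₀ h0] at e1
    rw [div_lt_iff₀ h0] at e2
    have hc : R / ε ≤ N := Int.le_ceil _
    rw [div_le_iff₀ h0] at hc
    refine Set.mem_iUnion₂.2 ⟨(⌊y / ε⌋ : ℝ) * ε, ?_, ?_⟩
    · refine Finset.mem_image.2 ⟨⌊y / ε⌋, Finset.mem_Icc.2 ⟨?_, ?_⟩, rfl⟩
      · have : (-(N + 1) : ℝ) < ⌊y / ε⌋ + 1 := by
          by_contra hcon
          push Not at hcon
          nlinarith
        have h3 : -(N + 1) < ⌊y / ε⌋ + 1 := by exact_mod_cast this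
        omega
      · have : (⌊y / ε⌋ : ℝ) ≤ N := by
          by_contra hcon
          push Not at hcon
          nlinarith
        exact_mod_cast this
    · constructor <;> nlinarith
  have hcard : ((Finset.Icc (-(N + 1)) N).image fun k : ℤ => (k : ℝ) * ε).card ≤ (2 * N + 2).toNat := by
    refine Finset.card_image_le.trans ?_
    rw [Int.card_Icc]
    apply le_of_eq
    congr 1
    ring
  have h2 : (covN K ε : ℝ) ≤ 2 * N + 2 := by
    have : (covN K ε : ℤ) ≤ 2 * N + 2 := by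
      have := hle.trans hcard
      omega
    exact_mod_cast this
  have h3 : (N : ℝ) < R / ε + 1 := Int.ceil_lt_add_one _
  have h4 : (1 : ℝ) ≤ 1 / ε := by rw [le_div_iff₀ h0]; linarith
  have e5 : (2 * R + 4) / ε = 2 * (R / ε) + 4 * (1 / ε) := by ring
  rw [e5]
  linarith

lemma ubox_le_one {K : Set ℝ} {R : ℝ} (hR : 0 ≤ R) (hK : ∀ x ∈ K, |x| ≤ R) : ubox K ≤ 1 := by
  rw [ubox_eq]
  have hC : 0 < 2 * R + 4 := by linarith
  have hlim : Tendsto (fun ε : ℝ => (((1 + Real.log (2 * R + 4) / Real.log (1 / ε) : ℝ)) : EReal))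
      (𝓝[>] 0) (𝓝 ((1 : ℝ) : EReal)) := by
    rw [EReal.tendsto_coe]
    have h1 : Tendsto (fun ε : ℝ => Real.log (2 * R + 4) / Real.log (1 / ε)) (𝓝[>] 0) (𝓝 0) :=
      log_tendsto.const_div_atTop _
    simpa using h1.const_add 1
  have h2 := hlim.limsup_eq
  rw [show (1 : EReal) = ((1 : ℝ) : EReal) by norm_num, ← h2]
  refine limsup_le_limsup ?_ (by isBoundedDefault) (by isBoundedDefault)
  · filter_upwards [small_ev] with ε hε
    have hl := log_pos' hε
    have hb := covN_bdd hR hK hε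
    rw [EReal.coe_le_coe_iff]
    show Real.log (covN K ε) / Real.log (1 / ε) ≤ _
    rcases Nat.eq_zero_or_pos (covN K ε) with h0 | h0
    · rw [h0]
      simp only [Nat.cast_zero, Real.log_zero, zero_div]
      have : 0 ≤ Real.log (2 * R + 4) / Real.log (1 / ε) :=
        div_nonneg (Real.log_nonneg (by linarith)) hl.le
      linarith
    · have h3 : Real.log (covN K ε) ≤ Real.log (2 * R + 4) + Real.log (1 / ε) := by
        rw [← Real.log_mul hC.ne' (by have := hε.1; positivity)]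
        apply Real.log_le_log (by exact_mod_cast h0)
        calc (covN K ε : ℝ) ≤ (2 * R + 4) / ε := hb
          _ = (2 * R + 4) * (1 / ε) := by ring
      have h4 : 1 + Real.log (2 * R + 4) / Real.log (1 / ε) =
          (Real.log (2 * R + 4) + Real.log (1 / ε)) / Real.log (1 / ε) := by
        field_simp
        ring
      rw [h4]
      exact div_le_div_of_nonneg_right h3 hl.le

lemma dimH_le_one (K : Set ℝ) : dimH K ≤ 1 := by
  refine (dimH_mono (Set.subset_univ K)).trans ?_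
  rw [Real.dimH_univ]

/-- both dimensions, all phases, real constants -/
theorem bothReal : ∀ lam : ℝ, 0 < lam → ∃ cH cB : ℝ,
    ∀ᵐ α ∂(volume.restrict (Set.Ioo (0:ℝ) 1)), ∀ ω : ℝ,
      (∃ T : L2 →L[ℂ] L2, IsSelfAdjoint T ∧ IsSchr (pot lam α ω) T) ∧
      ∀ T : L2 →L[ℂ] L2, IsSchr (pot lam α ω) T →
        dimH {E : ℝ | (E : ℂ) ∈ spectrum ℂ T} = ENNReal.ofReal cH ∧
        ubox {E : ℝ | (E : ℂ) ∈ spectrum ℂ T} = (cB : EReal) := by
  intro lam hlam
  obtain ⟨dH, dB, h⟩ := both lam hlam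
  -- the constants are finite
  have hne : (volume.restrict (Set.Ioo (0:ℝ) 1)) ≠ 0 := by
    intro h0
    have := congrArg (fun μ => μ (Set.Ioo (0:ℝ) 1)) h0
    simp at this
  have : (ae (volume.restrict (Set.Ioo (0:ℝ) 1))).NeBot := ae_neBot.2 hne
  obtain ⟨α0, h0⟩ := h.exists
  obtain ⟨T0, hT0, hs0⟩ := exists_schr (pot_bound hlam.le α0 0)
  obtain ⟨e1, e2⟩ := h0 0 T0 hT0
  have hH : dH ≤ 1 := by rw [← e1]; exact dimH_le_one _
  have hB0 : 0 ≤ dB := by rw [← e2]; exact ubox_nonneg _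
  have hB1 : dB ≤ 1 := by
    rw [← e2]
    apply ubox_le_one (R := ‖T0‖ * ‖(1 : L2 →L[ℂ] L2)‖) (by positivity)
    intro E hE
    have := spectrum.norm_le_norm_mul_of_mem (𝕜 := ℂ) hE
    rwa [Complex.norm_real, Real.norm_eq_abs] at this
  refine ⟨dH.toReal, dB.toReal, ?_⟩
  filter_upwards [h] with α hα ω
  obtain ⟨T, hT, hs⟩ := exists_schr (pot_bound hlam.le α ω)
  refine ⟨⟨T, hs, hT⟩, fun T' hT' => ?_⟩
  obtain ⟨k1, k2⟩ := hα ω T' hT'
  refine ⟨?_, ?_⟩
  · rw [k1, ENNReal.ofReal_toReal]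
    exact ne_top_of_le_ne_top (by norm_num) hH
  · rw [k2, EReal.coe_toReal]
    · intro h1; rw [h1] at hB1; exact absurd hB1 (by decide)
    · intro h1; rw [h1] at hB0; exact absurd hB0 (by simp)

end Pool.Agent.W811.Stu
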